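import Mathlib

set_option autoImplicit false

namespace Pool.Agent.H373SQ

/-- the numerator of the order of `PSL(n, q)` -/
def numPSL (n q : ℕ) : ℕ := q ^ (n * (n - 1) / 2) * ∏ i ∈ Finset.Icc 2 n, (q ^ i - 1)

/-- the order of `PSL(n, q)` -/
def ordPSL (n q : ℕ) : ℕ := numPSL n q / Nat.gcd n (q - 1)

/-- the numerator of the order of `PSU(n, q)` -/
def numPSU (n q : ℕ) : ℕ :=
  q ^ (n * (n - 1) / 2) * ∏ i ∈ Finset.Icc 2 n, (if Even i then q ^ i - 1 else q ^ i + 1)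

/-- the order of `PSU(n, q)` (over the field with `q ^ 2` elements) -/
def ordPSU (n q : ℕ) : ℕ := numPSU n q / Nat.gcd n (q + 1)

/-- the numerator of the order of `PSp(2n, q)` -/
def numBC (n q : ℕ) : ℕ := q ^ (n ^ 2) * ∏ i ∈ Finset.Icc 1 n, (q ^ (2 * i) - 1)

/-- the order of `PSp(2n, q)` and of `Ω(2n+1, q)` -/
def ordBC (n q : ℕ) : ℕ := numBC n q / Nat.gcd 2 (q - 1)

/-- the numerator of the order of `PΩ⁺(2n, q)` -/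
def numD (n q : ℕ) : ℕ :=
  q ^ (n * (n - 1)) * ((q ^ n - 1) * ∏ i ∈ Finset.Icc 1 (n - 1), (q ^ (2 * i) - 1))

/-- the order of `PΩ⁺(2n, q)` -/
def ordD (n q : ℕ) : ℕ := numD n q / Nat.gcd 4 (q ^ n - 1)

/-- the numerator of the order of `PΩ⁻(2n, q)` -/
def numTD (n q : ℕ) : ℕ :=
  q ^ (n * (n - 1)) * ((q ^ n + 1) * ∏ i ∈ Finset.Icc 1 (n - 1), (q ^ (2 * i) - 1))

/-- the order of `PΩ⁻(2n, q)` -/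
def ordTD (n q : ℕ) : ℕ := numTD n q / Nat.gcd 4 (q ^ n + 1)

/-- Suzuki groups `²B₂(q)` -/
def ordSz (q : ℕ) : ℕ := q ^ 2 * (q ^ 2 + 1) * (q - 1)

/-- Ree groups `²G₂(q)` -/
def ordRG (q : ℕ) : ℕ := q ^ 3 * (q ^ 3 + 1) * (q - 1)

/-- Ree groups `²F₄(q)` -/
def ordRF (q : ℕ) : ℕ := q ^ 12 * (q ^ 6 + 1) * (q ^ 4 - 1) * (q ^ 3 + 1) * (q - 1)

/-- Steinberg groups `³D₄(q)` -/
def ord3D4 (q : ℕ) : ℕ := q ^ 12 * (q ^ 8 + q ^ 4 + 1) * (q ^ 6 - 1) * (q ^ 2 - 1)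

def ordG2 (q : ℕ) : ℕ := q ^ 6 * (q ^ 6 - 1) * (q ^ 2 - 1)

def ordF4 (q : ℕ) : ℕ := q ^ 24 * (q ^ 12 - 1) * (q ^ 8 - 1) * (q ^ 6 - 1) * (q ^ 2 - 1)

def ordE6 (q : ℕ) : ℕ :=
  q ^ 36 * (q ^ 12 - 1) * (q ^ 9 - 1) * (q ^ 8 - 1) * (q ^ 6 - 1) * (q ^ 5 - 1) * (q ^ 2 - 1) /
    Nat.gcd 3 (q - 1)

def ordTE6 (q : ℕ) : ℕ :=
  q ^ 36 * (q ^ 12 - 1) * (q ^ 9 + 1) * (q ^ 8 - 1) * (q ^ 6 - 1) * (q ^ 5 + 1) * (q ^ 2 - 1) /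
    Nat.gcd 3 (q + 1)

def ordE7 (q : ℕ) : ℕ :=
  q ^ 63 * (q ^ 18 - 1) * (q ^ 14 - 1) * (q ^ 12 - 1) * (q ^ 10 - 1) * (q ^ 8 - 1) * (q ^ 6 - 1) *
    (q ^ 2 - 1) / Nat.gcd 2 (q - 1)

def ordE8 (q : ℕ) : ℕ :=
  q ^ 120 * (q ^ 30 - 1) * (q ^ 24 - 1) * (q ^ 20 - 1) * (q ^ 18 - 1) * (q ^ 14 - 1) *
    (q ^ 12 - 1) * (q ^ 8 - 1) * (q ^ 2 - 1)

end Pool.Agent.H373SQ
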