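import Mathlib
import Pool.Agent.Helper653.CubFermat

set_option autoImplicit false

namespace Pool.Agent.H373SQ

/-- `x^4 + 1 = 2 z^2` only for `x = 1`. -/
theorem quart_two {x z : ℕ} (h : x ^ 4 + 1 = 2 * z ^ 2) : x = 1 := by
  obtain ⟨m, hm⟩ : ∃ m, x = 2 * m + 1 := by
    rcases Nat.even_or_odd x with ⟨k, hk⟩ | ⟨k, hk⟩
    · exfalso
      have h1 : x ^ 4 = 2 * (8 * k ^ 4) := by rw [hk]; ring
      omega
    · exact ⟨k, hk⟩
  obtain ⟨w, hw⟩ : ∃ w : ℤ, (x : ℤ) ^ 4 - 1 = 2 * w := by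
    refine ⟨8 * m ^ 4 + 16 * m ^ 3 + 12 * m ^ 2 + 4 * m, ?_⟩
    rw [hm]; push_cast; ring
  have h' : (x : ℤ) ^ 4 + 1 = 2 * (z : ℤ) ^ 2 := by exact_mod_cast h
  have h2 : (z : ℤ) ^ 4 - (x : ℤ) ^ 4 = w ^ 2 := by
    have e1 : (4 : ℤ) * z ^ 4 = ((x : ℤ) ^ 4 + 1) ^ 2 := by rw [h']; ring
    have e2 : (4 : ℤ) * w ^ 2 = ((x : ℤ) ^ 4 - 1) ^ 2 := by rw [hw]; ring
    nlinarith
  rcases cub_fermat_sub _ _ _ h2 with h3 | h3
  · have : x = 0 := by exact_mod_cast h3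
    omega
  · rw [h3] at hw
    have h4 : (x : ℤ) ^ 4 = 1 := by linarith
    have h5 : x ^ 4 = 1 := by exact_mod_cast h4
    exact (Nat.pow_eq_one.1 h5).resolve_right (by norm_num)

theorem quart_one {x z : ℕ} (hx : 0 < x) (h : x ^ 4 + 1 = z ^ 2) : False := by
  have h1 : x ^ 2 < z := by
    by_contra hle
    push Not at hle
    have : z ^ 2 ≤ (x ^ 2) ^ 2 := Nat.pow_le_pow_left hle 2
    have e : (x ^ 2) ^ 2 = x ^ 4 := by ring
    omega
  have h2 : (x ^ 2 + 1) ^ 2 ≤ z ^ 2 := Nat.pow_le_pow_left h1 2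
  have e : (x ^ 2 + 1) ^ 2 = x ^ 4 + 2 * x ^ 2 + 1 := by ring
  have : 0 < x ^ 2 := by positivity
  omega

theorem four_mod_three (a : ℕ) : a ^ 4 % 3 = 0 ∨ a ^ 4 % 3 = 1 := by
  have h : a % 3 = 0 ∨ a % 3 = 1 ∨ a % 3 = 2 := by omega
  rcases h with h | h | h <;> simp [Nat.pow_mod, h]

theorem sq_mod_three (a : ℕ) : a ^ 2 % 3 = 0 ∨ a ^ 2 % 3 = 1 := by
  have h : a % 3 = 0 ∨ a % 3 = 1 ∨ a % 3 = 2 := by omega
  rcases h with h | h | h <;> simp [Nat.pow_mod, h]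

theorem four_mod_16 (a : ℕ) : a ^ 4 % 16 = 0 ∧ a % 2 = 0 ∨ a ^ 4 % 16 = 1 ∧ a % 2 = 1 := by
  have h : a % 16 < 16 := Nat.mod_lt _ (by norm_num)
  have h2 : a ^ 4 % 16 = (a % 16) ^ 4 % 16 := by rw [Nat.pow_mod]
  have h3 : a % 2 = (a % 16) % 2 := by omega
  rw [h2, h3]
  generalize a % 16 = t at h
  interval_cases t <;> simp

theorem sq_mod_8 (a : ℕ) : a ^ 2 % 8 = 1 ∧ a % 2 = 1 ∨ a ^ 2 % 8 = 0 ∧ a % 2 = 0 ∨
    a ^ 2 % 8 = 4 ∧ a % 2 = 0 := by
  have h : a % 8 < 8 := Nat.mod_lt _ (by norm_num)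
  have h2 : a ^ 2 % 8 = (a % 8) ^ 2 % 8 := by rw [Nat.pow_mod]
  have h3 : a % 2 = (a % 8) % 2 := by omega
  rw [h2, h3]
  generalize a % 8 = t at h
  interval_cases t <;> simp

/-- coprime naturals with product a fourth power -/
theorem split_four {a b c : ℕ} (_hc : 0 < c) (hab : Nat.Coprime a b) (h : a * b = c ^ 4) :
    ∃ r s, a = r ^ 4 ∧ b = s ^ 4 ∧ c = r * s := by
  have hu : IsUnit (gcd a b) := by
    rw [Nat.isUnit_iff]; exact hab
  obtain ⟨r, hr⟩ := exists_eq_pow_of_mul_eq_pow hu h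
  have hu' : IsUnit (gcd b a) := by
    rw [Nat.isUnit_iff]; exact hab.symm
  obtain ⟨s, hs⟩ := exists_eq_pow_of_mul_eq_pow hu' (by rw [mul_comm]; exact h)
  refine ⟨r, s, hr, hs, ?_⟩
  have : c ^ 4 = (r * s) ^ 4 := by rw [← h, hr, hs]; ring
  exact Nat.pow_left_injective (n := 4) (by norm_num) this

/-- coprime naturals with product three times a fourth power -/
theorem split_three {a b c : ℕ} (hc : 0 < c) (hab : Nat.Coprime a b) (h : a * b = 3 * c ^ 4) :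
    ∃ r s, c = r * s ∧ (a = 3 * r ^ 4 ∧ b = s ^ 4 ∨ a = r ^ 4 ∧ b = 3 * s ^ 4) := by
  have h3 : 3 ∣ a * b := ⟨c ^ 4, h⟩
  rcases (Nat.Prime.dvd_mul Nat.prime_three).1 h3 with ⟨a', ha⟩ | ⟨b', hb⟩
  · have h4 : a' * b = c ^ 4 := by
      have : 3 * (a' * b) = 3 * c ^ 4 := by rw [← h, ha]; ring
      omega
    obtain ⟨r, s, hr, hs, hc'⟩ := split_four hc (Nat.Coprime.coprime_dvd_left ⟨3, by rw [ha]; ring⟩ hab) h4
    exact ⟨r, s, hc', Or.inl ⟨by rw [ha, hr], hs⟩⟩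
  · have h4 : a * b' = c ^ 4 := by
      have : 3 * (a * b') = 3 * c ^ 4 := by rw [← h, hb]; ring
      omega
    obtain ⟨r, s, hr, hs, hc'⟩ := split_four hc (Nat.Coprime.coprime_dvd_right ⟨3, by rw [hb]; ring⟩ hab) h4
    exact ⟨r, s, hc', Or.inr ⟨hr, by rw [hb, hs]⟩⟩

/-- coprime naturals with product twelve times a fourth power -/
theorem split_twelve {a b c : ℕ} (hc : 0 < c) (hab : Nat.Coprime a b) (h : a * b = 12 * c ^ 4) :
    ∃ r s, c = r * s ∧ (a = 12 * r ^ 4 ∧ b = s ^ 4 ∨ a = r ^ 4 ∧ b = 12 * s ^ 4 ∨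
      a = 3 * r ^ 4 ∧ b = 4 * s ^ 4 ∨ a = 4 * r ^ 4 ∧ b = 3 * s ^ 4) := by
  have h2 : 2 ∣ a * b := ⟨6 * c ^ 4, by rw [h]; ring⟩
  have key : (∃ a', a = 4 * a') ∨ (∃ b', b = 4 * b') := by
    rcases (Nat.Prime.dvd_mul Nat.prime_two).1 h2 with h5 | h5
    · left
      have hb2 : Nat.Coprime 2 b := Nat.Coprime.coprime_dvd_left h5 hab
      have hb4 : Nat.Coprime 4 b := by
        have : (4 : ℕ) = 2 ^ 2 := by norm_num
        rw [this]; exact Nat.Coprime.pow_left 2 hb2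
      have : 4 ∣ a * b := ⟨3 * c ^ 4, by rw [h]; ring⟩
      exact hb4.dvd_of_dvd_mul_right this
    · right
      have hb2 : Nat.Coprime 2 a := Nat.Coprime.coprime_dvd_left h5 hab.symm
      have hb4 : Nat.Coprime 4 a := by
        have : (4 : ℕ) = 2 ^ 2 := by norm_num
        rw [this]; exact Nat.Coprime.pow_left 2 hb2
      have : 4 ∣ a * b := ⟨3 * c ^ 4, by rw [h]; ring⟩
      exact hb4.dvd_of_dvd_mul_left this
  rcases key with ⟨a', ha⟩ | ⟨b', hb⟩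
  · have h4 : a' * b = 3 * c ^ 4 := by
      have : 4 * (a' * b) = 4 * (3 * c ^ 4) := by rw [show 4 * (3 * c ^ 4) = 12 * c ^ 4 by ring, ← h, ha]; ring
      omega
    obtain ⟨r, s, hc', h5 | h5⟩ := split_three hc (Nat.Coprime.coprime_dvd_left ⟨4, by rw [ha]; ring⟩ hab) h4
    · exact ⟨r, s, hc', Or.inl ⟨by rw [ha, h5.1]; ring, h5.2⟩⟩
    · exact ⟨r, s, hc', Or.inr (Or.inr (Or.inr ⟨by rw [ha, h5.1], h5.2⟩))⟩
  · have h4 : a * b' = 3 * c ^ 4 := by
      have : 4 * (a * b') = 4 * (3 * c ^ 4) := by rw [show 4 * (3 * c ^ 4) = 12 * c ^ 4 by ring, ← h, hb]; ring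
      omega
    obtain ⟨r, s, hc', h5 | h5⟩ := split_three hc (Nat.Coprime.coprime_dvd_right ⟨4, by rw [hb]; ring⟩ hab) h4
    · exact ⟨r, s, hc', Or.inr (Or.inr (Or.inl ⟨h5.1, by rw [hb, h5.2]⟩))⟩
    · exact ⟨r, s, hc', Or.inr (Or.inl ⟨h5.1, by rw [hb, h5.2]; ring⟩)⟩

/-- `X^2 = 12 r^4 + 1` only for `r = 0`. -/
theorem quart_twelve : ∀ r X : ℕ, X ^ 2 = 12 * r ^ 4 + 1 → r = 0 := by
  intro r
  induction r using Nat.strong_induction_on with
  | _ r ih =>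
    intro X h
    by_contra hr0
    have hr : 0 < r := Nat.pos_of_ne_zero hr0
    -- X is odd
    obtain ⟨m, hm⟩ : ∃ m, X = 2 * m + 1 := by
      rcases Nat.even_or_odd X with ⟨k, hk⟩ | ⟨k, hk⟩
      · exfalso
        have h1 : X ^ 2 = 2 * (2 * k ^ 2) := by rw [hk]; ring
        omega
      · exact ⟨k, hk⟩
    have hprod : m * (m + 1) = 3 * r ^ 4 := by
      have h1 : X ^ 2 = 4 * (m * (m + 1)) + 1 := by rw [hm]; ring
      omega
    have hcop : Nat.Coprime m (m + 1) := by simp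
    obtain ⟨f, e, hfe, h5 | h5⟩ := split_three hr hcop hprod
    · -- m = 3 f^4, m+1 = e^4
      obtain ⟨h6, h7⟩ := h5
      have hE : e ^ 4 = 3 * f ^ 4 + 1 := by omega
      have hf : 0 < f := Nat.pos_of_ne_zero (by rintro rfl; simp at hfe; omega)
      have he : 0 < e := Nat.pos_of_ne_zero (by rintro rfl; simp at hfe; omega)
      have hpar : f % 2 = 0 ∧ e % 2 = 1 := by
        rcases four_mod_16 f with ⟨a1, a2⟩ | ⟨a1, a2⟩ <;> rcases four_mod_16 e with ⟨b1, b2⟩ | ⟨b1, b2⟩ <;>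
          omega
      obtain ⟨g, hg⟩ : ∃ g, f = 2 * g := ⟨f / 2, by omega⟩
      obtain ⟨j, hj⟩ : ∃ j, e = 2 * j + 1 := ⟨e / 2, by omega⟩
      have hg0 : 0 < g := by omega
      -- (e^2-1)/2 = 2 j (j+1)
      have he2 : e ^ 2 = 2 * (2 * (j * (j + 1))) + 1 := by rw [hj]; ring
      set t := 2 * (j * (j + 1)) with ht
      have hprod2 : t * (t + 1) = 12 * g ^ 4 := by
        have h8 : e ^ 4 = 4 * (t * (t + 1)) + 1 := by
          have : e ^ 4 = (e ^ 2) ^ 2 := by ring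
          rw [this, he2]; ring
        have h9 : 3 * f ^ 4 = 4 * (12 * g ^ 4) := by rw [hg]; ring
        omega
      have hcop2 : Nat.Coprime t (t + 1) := by simp
      have htodd : t % 2 = 0 := by omega
      have h3 : (t + 1) % 3 ≠ 0 := by
        have := sq_mod_three e
        omega
      obtain ⟨B, A, hBA, h10 | h10 | h10 | h10⟩ := split_twelve hg0 hcop2 hprod2
      · -- t = 12 B^4, t+1 = A^4
        have hA : (A ^ 2) ^ 2 = 12 * B ^ 4 + 1 := by
          have : (A ^ 2) ^ 2 = A ^ 4 := by ring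
          omega
        have hA0 : 0 < A := Nat.pos_of_ne_zero (by rintro rfl; simp at hBA; omega)
        have hB0 : 0 < B := Nat.pos_of_ne_zero (by rintro rfl; simp at hBA; omega)
        have hBle : B ≤ g := by rw [hBA]; exact Nat.le_mul_of_pos_right B hA0
        have hfle : f ≤ r := by rw [hfe]; exact Nat.le_mul_of_pos_right f he
        have := ih B (by omega) (A ^ 2) hA
        omega
      · omega
      · omega
      · omega
    · obtain ⟨h6, h7⟩ := h5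
      have := four_mod_three f
      omega

/-- `X^2 = 48 r^4 + 1` only for `r = 0` and `r = 1`. -/
theorem quart_48 {r X : ℕ} (h : X ^ 2 = 48 * r ^ 4 + 1) : r = 0 ∨ r = 1 := by
  by_contra hcon
  push Not at hcon
  have hr : 0 < r := Nat.pos_of_ne_zero hcon.1
  obtain ⟨m, hm⟩ : ∃ m, X = 2 * m + 1 := by
    rcases Nat.even_or_odd X with ⟨k, hk⟩ | ⟨k, hk⟩
    · exfalso
      have h1 : X ^ 2 = 2 * (2 * k ^ 2) := by rw [hk]; ring
      omega
    · exact ⟨k, hk⟩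
  have hprod : m * (m + 1) = 12 * r ^ 4 := by
    have h1 : X ^ 2 = 4 * (m * (m + 1)) + 1 := by rw [hm]; ring
    omega
  have hcop : Nat.Coprime m (m + 1) := by simp
  obtain ⟨f, e, hfe, h5 | h5 | h5 | h5⟩ := split_twelve hr hcop hprod
  · have : (e ^ 2) ^ 2 = 12 * f ^ 4 + 1 := by
      have : (e ^ 2) ^ 2 = e ^ 4 := by ring
      omega
    have := quart_twelve f _ this
    rw [this] at hfe; simp at hfe; omega
  · have := four_mod_three f
    omega
  · -- m = 3 f^4, m + 1 = 4 e^4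
    obtain ⟨h6, h7⟩ := h5
    have he0 : 0 < e := Nat.pos_of_ne_zero (by rintro rfl; simp at hfe; omega)
    have hf0 : 0 < f := Nat.pos_of_ne_zero (by rintro rfl; simp at hfe; omega)
    have he2 : 1 ≤ e ^ 2 := Nat.one_le_pow _ _ he0
    obtain ⟨u, hu⟩ : ∃ u, 2 * e ^ 2 = u + 1 := ⟨2 * e ^ 2 - 1, by omega⟩
    have hprod2 : u * (u + 2) = 3 * f ^ 4 := by
      have h8 : 4 * e ^ 4 = (u + 1) ^ 2 := by rw [← hu]; ring
      have h9 : (u + 1) ^ 2 = u * (u + 2) + 1 := by ring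
      omega
    have huodd : u % 2 = 1 := by omega
    have hcop2 : Nat.Coprime u (u + 2) := by
      have h2 : Nat.Coprime u 2 := by
        rw [Nat.coprime_comm, Nat.coprime_two_left]
        exact Nat.odd_iff.2 huodd
      simpa using h2
    obtain ⟨a, b, hab, h10 | h10⟩ := split_three hf0 hcop2 hprod2
    · -- u = 3 a^4, u+2 = b^4
      have := four_mod_three b
      have hq := sq_mod_three e
      omega
    · -- u = a^4, u + 2 = 3 b^4
      have h11 : a ^ 4 + 1 = 2 * e ^ 2 := by omega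
      have ha := quart_two h11
      rw [ha] at h10
      have he1 : e ^ 2 = 1 := by omega
      have he : e = 1 := (Nat.pow_eq_one.1 he1).resolve_right (by norm_num)
      have hf1 : 3 * f ^ 4 = 3 := by rw [he] at h7; omega
      have hf : f = 1 := by
        have : f ^ 4 = 1 := by omega
        exact (Nat.pow_eq_one.1 this).resolve_right (by norm_num)
      rw [he, hf] at hfe
      omega
  · have := four_mod_three f
    have := four_mod_three e
    omega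

end Pool.Agent.H373SQ
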