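import Mathlib
import Pool.Agent.H373SQ.Quart

set_option autoImplicit false

namespace Pool.Agent.H373SQ

theorem coprime_aux {α w c : ℕ} (h : α * (α + w) = 12 * c ^ 4) (hw : Nat.Coprime w (12 * c ^ 2)) :
    Nat.Coprime α (α + w) := by
  by_contra hg
  obtain ⟨l, hl, h1, h2⟩ := Nat.Prime.not_coprime_iff_dvd.1 hg
  have h3 : l ∣ w := (Nat.dvd_add_right h1).1 h2
  have h4 : l ∣ 12 * c ^ 4 := h ▸ (h1.mul_right _)
  have h5 : l ∣ 12 * c ^ 2 := by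
    rcases (Nat.Prime.dvd_mul hl).1 h4 with h6 | h6
    · exact h6.mul_right _
    · exact (dvd_pow (hl.dvd_of_dvd_pow h6) (by norm_num)).mul_left _
  exact Nat.not_coprime_of_dvd_of_dvd hl.one_lt h3 h5 hw

theorem c1 {u v : ℕ} (h : v ^ 2 = 12 * u ^ 4 + 6 * u ^ 2 + 1) : u = 0 := by
  by_contra hu0
  have hu4 : u ^ 4 = u ^ 2 * u ^ 2 := by ring
  have huev : u % 2 = 0 := by
    by_contra hodd
    have h1 := sq_mod_8 u
    have h2 := sq_mod_8 v
    obtain ⟨k, hk⟩ : ∃ k, u ^ 2 = 8 * k + 1 := ⟨u ^ 2 / 8, by omega⟩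
    have h3 : u ^ 4 = 8 * (8 * k ^ 2 + 2 * k) + 1 := by rw [hu4, hk]; ring
    omega
  obtain ⟨c, hc⟩ : ∃ c, u = 2 * c := ⟨u / 2, by omega⟩
  have hc0 : 0 < c := by omega
  have hu4' : u ^ 4 = 16 * c ^ 4 := by rw [hc]; ring
  have hu2' : u ^ 2 = 4 * c ^ 2 := by rw [hc]; ring
  rw [hu4', hu2'] at h
  have hw2 : (12 * c ^ 2 + 1) ^ 2 + 48 * c ^ 4 = v ^ 2 := by rw [h]; ring
  have hvw : 12 * c ^ 2 + 1 ≤ v := by
    by_contra hlt
    push Not at hlt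
    have : v ^ 2 < (12 * c ^ 2 + 1) ^ 2 := Nat.pow_lt_pow_left hlt (by norm_num)
    omega
  have hvodd : v % 2 = 1 := by
    have := sq_mod_8 v
    omega
  obtain ⟨α, hα⟩ : ∃ α, v = 12 * c ^ 2 + 1 + 2 * α := ⟨(v - (12 * c ^ 2 + 1)) / 2, by omega⟩
  have hprod : α * (α + (12 * c ^ 2 + 1)) = 12 * c ^ 4 := by
    have : v ^ 2 = (12 * c ^ 2 + 1) ^ 2 + 4 * (α * (α + (12 * c ^ 2 + 1))) := by rw [hα]; ring
    omega
  have hcop := coprime_aux hprod (by simp)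
  obtain ⟨r, s, hrs, h5 | h5 | h5 | h5⟩ := split_twelve hc0 hcop hprod
  · obtain ⟨h6, h7⟩ := h5
    have hX : ((s : ℤ) ^ 2 - 6 * (r : ℤ) ^ 2).natAbs ^ 2 = 48 * r ^ 4 + 1 := by
      zify
      rw [sq_abs]
      have h8 : (s : ℤ) ^ 4 = 12 * (r : ℤ) ^ 4 + (12 * ((r : ℤ) * s) ^ 2 + 1) := by
        have : s ^ 4 = 12 * r ^ 4 + (12 * (r * s) ^ 2 + 1) := by rw [← hrs]; omega
        exact_mod_cast this
      linear_combination h8
    rcases quart_48 hX with h9 | h9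
    · rw [h9] at hrs; simp at hrs; omega
    · rw [h9] at hrs h6
      simp at hrs
      rw [hrs] at h7
      have h10 : s ^ 2 * s ^ 2 = 12 * s ^ 2 + 13 := by
        have : s ^ 4 = s ^ 2 * s ^ 2 := by ring
        omega
      have h11 : s ^ 2 = 13 := by
        have : s ^ 2 ≤ 13 := by
          by_contra hlt
          push Not at hlt
          nlinarith
        interval_cases hs : s ^ 2 <;> omega
      have h12 : s ≤ 3 := by
        by_contra hlt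
        push Not at hlt
        nlinarith
      interval_cases s <;> omega
  · have := four_mod_three r
    omega
  · obtain ⟨h6, h7⟩ := h5
    have hX : (2 * (s : ℤ) ^ 2 - 3 * (r : ℤ) ^ 2).natAbs ^ 2 = 12 * r ^ 4 + 1 := by
      zify
      rw [sq_abs]
      have h8 : 4 * (s : ℤ) ^ 4 = 3 * (r : ℤ) ^ 4 + (12 * ((r : ℤ) * s) ^ 2 + 1) := by
        have : 4 * s ^ 4 = 3 * r ^ 4 + (12 * (r * s) ^ 2 + 1) := by rw [← hrs]; omega
        exact_mod_cast this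
      linear_combination h8
    have h9 := quart_twelve _ _ hX
    rw [h9] at hrs; simp at hrs; omega
  · have := four_mod_three r
    omega

theorem c2 {u v : ℕ} (hu : 0 < u) (h : v ^ 2 + 6 * u ^ 2 = 12 * u ^ 4 + 1) : u = 2 := by
  have hu4 : u ^ 4 = u ^ 2 * u ^ 2 := by ring
  have huev : u % 2 = 0 := by
    by_contra hodd
    have h1 := sq_mod_8 u
    have h2 := sq_mod_8 v
    obtain ⟨k, hk⟩ : ∃ k, u ^ 2 = 8 * k + 1 := ⟨u ^ 2 / 8, by omega⟩
    have h3 : u ^ 4 = 8 * (8 * k ^ 2 + 2 * k) + 1 := by rw [hu4, hk]; ring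
    omega
  obtain ⟨c, hc⟩ : ∃ c, u = 2 * c := ⟨u / 2, by omega⟩
  have hc0 : 0 < c := by omega
  have hc2 : 1 ≤ c ^ 2 := Nat.one_le_pow _ _ hc0
  have hu4' : u ^ 4 = 16 * c ^ 4 := by rw [hc]; ring
  have hu2' : u ^ 2 = 4 * c ^ 2 := by rw [hc]; ring
  rw [hu4', hu2'] at h
  obtain ⟨w, hw⟩ : ∃ w, w + 1 = 12 * c ^ 2 := ⟨12 * c ^ 2 - 1, by omega⟩
  have hw2 : w ^ 2 + 48 * c ^ 4 = v ^ 2 := by
    have h1 : (w + 1) ^ 2 = 144 * c ^ 4 := by rw [hw]; ring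
    have h2 : (w + 1) ^ 2 = w ^ 2 + 2 * w + 1 := by ring
    omega
  have hvw : w ≤ v := by
    by_contra hlt
    push Not at hlt
    have : v ^ 2 < w ^ 2 := Nat.pow_lt_pow_left hlt (by norm_num)
    omega
  have hvodd : v % 2 = 1 := by
    have := sq_mod_8 v
    omega
  obtain ⟨α, hα⟩ : ∃ α, v = w + 2 * α := ⟨(v - w) / 2, by omega⟩
  have hprod : α * (α + w) = 12 * c ^ 4 := by
    have : v ^ 2 = w ^ 2 + 4 * (α * (α + w)) := by rw [hα]; ring
    omega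
  have hcop := coprime_aux hprod (by rw [← hw]; simp)
  obtain ⟨r, s, hrs, h5 | h5 | h5 | h5⟩ := split_twelve hc0 hcop hprod
  · have := four_mod_three s
    omega
  · obtain ⟨h6, h7⟩ := h5
    have hX : (r ^ 2 + 6 * s ^ 2) ^ 2 = 48 * s ^ 4 + 1 := by
      have h8 : 12 * s ^ 4 + 1 = r ^ 4 + 12 * (r * s) ^ 2 := by rw [← hrs]; omega
      have h9 : (r ^ 2 + 6 * s ^ 2) ^ 2 = r ^ 4 + 12 * (r * s) ^ 2 + 36 * s ^ 4 := by ring
      omega
    rcases quart_48 hX with h9 | h9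
    · rw [h9] at hrs; simp at hrs; omega
    · rw [h9] at hX
      have h10 : r ≤ 1 := by
        by_contra hlt
        push Not at hlt
        have : 4 ≤ r ^ 2 := by nlinarith
        nlinarith
      rw [h9] at hrs
      omega
  · have := four_mod_three s
    omega
  · obtain ⟨h6, h7⟩ := h5
    have hX : (2 * r ^ 2 + 3 * s ^ 2) ^ 2 = 12 * s ^ 4 + 1 := by
      have h8 : 3 * s ^ 4 + 1 = 4 * r ^ 4 + 12 * (r * s) ^ 2 := by rw [← hrs]; omega
      have h9 : (2 * r ^ 2 + 3 * s ^ 2) ^ 2 = 4 * r ^ 4 + 12 * (r * s) ^ 2 + 9 * s ^ 4 := by ring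
      omega
    have h9 := quart_twelve _ _ hX
    rw [h9] at hrs; simp at hrs; omega

/-- coprime with product a square -/
theorem split_sq {a b y : ℕ} (hab : Nat.Coprime a b) (h : a * b = y ^ 2) :
    ∃ u v, a = u ^ 2 ∧ b = v ^ 2 := by
  have hu : IsUnit (gcd a b) := by rw [Nat.isUnit_iff]; exact hab
  obtain ⟨r, hr⟩ := exists_eq_pow_of_mul_eq_pow hu h
  have hu' : IsUnit (gcd b a) := by rw [Nat.isUnit_iff]; exact hab.symm
  obtain ⟨s, hs⟩ := exists_eq_pow_of_mul_eq_pow hu' (by rw [mul_comm]; exact h)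
  exact ⟨r, s, hr, hs⟩

theorem split_two_sq {a b y : ℕ} (hab : Nat.Coprime a b) (hb : b % 2 = 1) (h : a * b = 2 * y ^ 2) :
    ∃ u v, a = 2 * u ^ 2 ∧ b = v ^ 2 := by
  have h2 : 2 ∣ a * b := ⟨y ^ 2, h⟩
  have h3 : 2 ∣ a := by
    rcases (Nat.Prime.dvd_mul Nat.prime_two).1 h2 with h3 | h3
    · exact h3
    · omega
  obtain ⟨a', ha⟩ := h3
  have h4 : a' * b = y ^ 2 := by
    have : 2 * (a' * b) = 2 * y ^ 2 := by rw [← h, ha]; ring
    omega
  obtain ⟨u, v, hu, hv⟩ := split_sq (Nat.Coprime.coprime_dvd_left ⟨2, by rw [ha]; ring⟩ hab) h4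
  exact ⟨u, v, by rw [ha, hu], hv⟩

theorem not_sq_between {n m : ℕ} (h1 : n ^ 2 < m) (h2 : m < (n + 1) ^ 2) : ¬ IsSquare m := by
  rintro ⟨t, ht⟩
  have h3 : n < t := by
    by_contra hle
    push Not at hle
    nlinarith
  have h4 : t < n + 1 := by
    by_contra hle
    push Not at hle
    nlinarith
  omega

theorem not_sq_phi3 {q : ℕ} (hq : 1 ≤ q) : ¬ IsSquare (q ^ 2 + q + 1) :=
  not_sq_between (n := q) (by omega) (by nlinarith)

theorem not_sq_phi6 {q b : ℕ} (hq : 2 ≤ q) (hb : b + q = q ^ 2 + 1) : ¬ IsSquare b := by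
  obtain ⟨n, rfl⟩ : ∃ n, q = n + 1 := ⟨q - 1, by omega⟩
  refine not_sq_between (n := n) ?_ ?_
  · nlinarith
  · nlinarith

theorem not_sq_succ {q : ℕ} (hq : 1 ≤ q) : ¬ IsSquare (q ^ 2 + 1) :=
  not_sq_between (n := q) (by omega) (by nlinarith)

theorem not_sq_pred {q b : ℕ} (hq : 2 ≤ q) (hb : b + 1 = q ^ 2) : ¬ IsSquare b := by
  obtain ⟨n, rfl⟩ : ∃ n, q = n + 1 := ⟨q - 1, by omega⟩
  refine not_sq_between (n := n) ?_ ?_
  · nlinarith
  · nlinarith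

theorem cube_sub {q y : ℕ} (hq : 2 ≤ q) (h : q ^ 3 = 2 * y ^ 2 + 1) : False := by
  obtain ⟨a, rfl⟩ : ∃ a, q = a + 1 := ⟨q - 1, by omega⟩
  have ha : 1 ≤ a := by omega
  have hprod : a * (a ^ 2 + 3 * a + 3) = 2 * y ^ 2 := by
    have : (a + 1) ^ 3 = a * (a ^ 2 + 3 * a + 3) + 1 := by ring
    omega
  have hbodd : (a ^ 2 + 3 * a + 3) % 2 = 1 := by
    have : a ^ 2 = a * a := by ring
    rcases Nat.even_or_odd a with ⟨k, hk⟩ | ⟨k, hk⟩
    · have e : a ^ 2 + 3 * a + 3 = 2 * (2 * k ^ 2 + 3 * k + 1) + 1 := by rw [hk]; ring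
      omega
    · have e : a ^ 2 + 3 * a + 3 = 2 * (2 * k ^ 2 + 5 * k + 3) + 1 := by rw [hk]; ring
      omega
  by_cases h3 : 3 ∣ a
  · obtain ⟨a', ha'⟩ := h3
    have hb' : a ^ 2 + 3 * a + 3 = 3 * (3 * a' ^ 2 + 3 * a' + 1) := by rw [ha']; ring
    have hy : 3 ∣ y := by
      have h5 : 3 ∣ 2 * y ^ 2 := ⟨3 * (a' * (3 * a' ^ 2 + 3 * a' + 1)), by rw [← hprod, hb', ha']; ring⟩
      have h6 : 3 ∣ y ^ 2 := by
        rcases (Nat.Prime.dvd_mul Nat.prime_three).1 h5 with h6 | h6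
        · omega
        · exact h6
      exact Nat.prime_three.dvd_of_dvd_pow h6
    obtain ⟨y', hy'⟩ := hy
    have hprod' : a' * (3 * a' ^ 2 + 3 * a' + 1) = 2 * y' ^ 2 := by
      have h5 : 9 * (a' * (3 * a' ^ 2 + 3 * a' + 1)) = 9 * (2 * y' ^ 2) := by
        calc 9 * (a' * (3 * a' ^ 2 + 3 * a' + 1)) = a * (a ^ 2 + 3 * a + 3) := by rw [hb', ha']; ring
          _ = 9 * (2 * y' ^ 2) := by rw [hprod, hy']; ring
      omega
    have hcop : Nat.Coprime a' (3 * a' ^ 2 + 3 * a' + 1) := by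
      have e : 3 * a' ^ 2 + 3 * a' + 1 = a' * (3 * a' + 3) + 1 := by ring
      rw [e]; simp
    obtain ⟨u, v, hu, hv⟩ := split_two_sq hcop (by omega) hprod'
    have h7 : v ^ 2 = 12 * u ^ 4 + 6 * u ^ 2 + 1 := by
      rw [← hv, hu]; ring
    have := c1 h7
    rw [this] at hu
    simp at hu
    omega
  · have hcop : Nat.Coprime a (a ^ 2 + 3 * a + 3) := by
      have e : a ^ 2 + 3 * a + 3 = 3 + a * (a + 3) := by ring
      rw [e, Nat.coprime_add_mul_left_right]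
      exact ((Nat.Prime.coprime_iff_not_dvd Nat.prime_three).2 h3).symm
    obtain ⟨u, v, hu, hv⟩ := split_two_sq hcop hbodd hprod
    have : ¬ IsSquare (a ^ 2 + 3 * a + 3) := not_sq_between (n := a + 1) (by nlinarith) (by nlinarith)
    exact this ⟨v, by rw [hv]; ring⟩

theorem cube_add {q y : ℕ} (hq : 2 ≤ q) (h : q ^ 3 + 1 = 2 * y ^ 2) : q = 23 := by
  obtain ⟨n, hn⟩ : ∃ n, q = n + 1 := ⟨q - 1, by omega⟩
  -- b = q^2 - q + 1 = n^2 + n + 1, q + 1 = n + 2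
  have hprod : (n + 2) * (n ^ 2 + n + 1) = 2 * y ^ 2 := by
    rw [← h, hn]; ring
  have hbodd : (n ^ 2 + n + 1) % 2 = 1 := by
    rcases Nat.even_or_odd n with ⟨k, hk⟩ | ⟨k, hk⟩
    · have e : n ^ 2 + n + 1 = 2 * (2 * k ^ 2 + k) + 1 := by rw [hk]; ring
      omega
    · have e : n ^ 2 + n + 1 = 2 * (2 * k ^ 2 + 3 * k + 1) + 1 := by rw [hk]; ring
      omega
  by_cases h3 : 3 ∣ n + 2
  · obtain ⟨a', ha'⟩ := h3
    obtain ⟨d, hd⟩ : ∃ d, a' = d + 1 := ⟨a' - 1, by omega⟩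
    have hnd : n = 3 * d + 1 := by omega
    have hb' : n ^ 2 + n + 1 = 3 * (3 * d ^ 2 + 3 * d + 1) := by rw [hnd]; ring
    have hy : 3 ∣ y := by
      have h5 : 3 ∣ 2 * y ^ 2 := ⟨(n + 2) * (3 * d ^ 2 + 3 * d + 1), by rw [← hprod, hb']; ring⟩
      have h6 : 3 ∣ y ^ 2 := by
        rcases (Nat.Prime.dvd_mul Nat.prime_three).1 h5 with h6 | h6
        · omega
        · exact h6
      exact Nat.prime_three.dvd_of_dvd_pow h6
    obtain ⟨y', hy'⟩ := hy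
    have hprod' : (d + 1) * (3 * d ^ 2 + 3 * d + 1) = 2 * y' ^ 2 := by
      have h5 : 9 * ((d + 1) * (3 * d ^ 2 + 3 * d + 1)) = 9 * (2 * y' ^ 2) := by
        calc 9 * ((d + 1) * (3 * d ^ 2 + 3 * d + 1)) = (n + 2) * (n ^ 2 + n + 1) := by
              rw [hb', ha', hd]; ring
          _ = 9 * (2 * y' ^ 2) := by rw [hprod, hy']; ring
      omega
    have hcop : Nat.Coprime (d + 1) (3 * d ^ 2 + 3 * d + 1) := by
      have e : 3 * d ^ 2 + 3 * d + 1 = 1 + (d + 1) * (3 * d) := by ring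
      rw [e, Nat.coprime_add_mul_left_right]; simp
    obtain ⟨u, v, hu, hv⟩ := split_two_sq hcop (by omega) hprod'
    have hu0 : 0 < u := Nat.pos_of_ne_zero (by rintro rfl; simp at hu)
    have h7 : v ^ 2 + 6 * u ^ 2 = 12 * u ^ 4 + 1 := by
      have e1 : 12 * u ^ 4 = 3 * (2 * u ^ 2) ^ 2 := by ring
      rw [← hv, e1, ← hu]
      have : 6 * u ^ 2 = 3 * (d + 1) := by omega
      rw [this]; ring
    have := c2 hu0 h7
    rw [this] at hu
    omega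
  · exfalso
    have hcop : Nat.Coprime (n + 2) (n ^ 2 + n + 1) := by
      by_contra hg
      obtain ⟨l, hl, h1, h2⟩ := Nat.Prime.not_coprime_iff_dvd.1 hg
      have h4 : l ∣ (n ^ 2 + n + 1) + 3 * (n + 2) := dvd_add h2 (h1.mul_left 3)
      have h5 : (n ^ 2 + n + 1) + 3 * (n + 2) = (n + 2) * (n + 2) + 3 := by ring
      rw [h5] at h4
      have h6 : l ∣ 3 := (Nat.dvd_add_right (h1.mul_right _)).1 h4
      have h7 : l = 3 := (Nat.prime_dvd_prime_iff_eq hl Nat.prime_three).1 h6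
      exact h3 (h7 ▸ h1)
    obtain ⟨u, v, hu, hv⟩ := split_two_sq hcop hbodd hprod
    have hn1 : 1 ≤ n := by omega
    exact not_sq_phi3 hn1 ⟨v, by rw [hv]; ring⟩

end Pool.Agent.H373SQ
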