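import Mathlib
import Pool.Agent.H373SQ.Cube

set_option autoImplicit false

namespace Pool.Agent.H373SQ

theorem exists_odd_val {a : ℕ} (ha : a ≠ 0) (h : ¬ IsSquare a) :
    ∃ l, l.Prime ∧ Odd (padicValNat l a) := by
  obtain ⟨s, b, hsb, hs⟩ := Nat.sq_mul_squarefree a
  have hb0 : b ≠ 0 := by rintro rfl; simp at hsb; exact ha hsb.symm
  have hs0 : s ≠ 0 := hs.ne_zero
  have hs1 : s ≠ 1 := by rintro rfl; exact h ⟨b, by rw [← hsb]; ring⟩
  obtain ⟨l, hl, hls⟩ := Nat.exists_prime_and_dvd hs1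
  have : Fact l.Prime := ⟨hl⟩
  refine ⟨l, hl, ?_⟩
  have h1 : padicValNat l s = 1 := by
    apply le_antisymm
    · by_contra hlt
      push Not at hlt
      have h2 : l ^ 2 ∣ s := (padicValNat_dvd_iff_le hs0).2 hlt
      have := hs l (by rw [← sq]; exact h2)
      exact hl.one_lt.ne' (Nat.isUnit_iff.1 this)
    · exact one_le_padicValNat_of_dvd hs0 hls
  rw [← hsb, padicValNat.mul (pow_ne_zero _ hb0) hs0, padicValNat.pow, h1]
  exact ⟨padicValNat l b, rfl⟩

theorem exists_odd_val2 {a : ℕ} (ha : a ≠ 0) (h : ¬ IsSquare a) (h2 : ∀ z, a ≠ 2 * z ^ 2) :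
    ∃ l, l.Prime ∧ l ≠ 2 ∧ Odd (padicValNat l a) := by
  obtain ⟨s, b, hsb, hs⟩ := Nat.sq_mul_squarefree a
  have hb0 : b ≠ 0 := by rintro rfl; simp at hsb; exact ha hsb.symm
  have hs0 : s ≠ 0 := hs.ne_zero
  by_cases hodd : ∃ l, l.Prime ∧ l ∣ s ∧ l ≠ 2
  · obtain ⟨l, hl, hls, hl2⟩ := hodd
    have : Fact l.Prime := ⟨hl⟩
    refine ⟨l, hl, hl2, ?_⟩
    have h1 : padicValNat l s = 1 := by
      apply le_antisymm
      · by_contra hlt
        push Not at hlt
        have h2 : l ^ 2 ∣ s := (padicValNat_dvd_iff_le hs0).2 hlt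
        have := hs l (by rw [← sq]; exact h2)
        exact hl.one_lt.ne' (Nat.isUnit_iff.1 this)
      · exact one_le_padicValNat_of_dvd hs0 hls
    rw [← hsb, padicValNat.mul (pow_ne_zero _ hb0) hs0, padicValNat.pow, h1]
    exact ⟨padicValNat l b, rfl⟩
  · exfalso
    push Not at hodd
    have h3 : s = 2 ^ s.primeFactorsList.length :=
      Nat.eq_prime_pow_of_unique_prime_dvd hs0 (fun {d} hd hds => hodd d hd hds)
    generalize s.primeFactorsList.length = k at h3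
    match k, h3 with
    | 0, h3 => exact h ⟨b, by rw [← hsb, h3]; ring⟩
    | 1, h3 => exact h2 b (by rw [← hsb, h3]; ring)
    | k + 2, h3 =>
      have := hs 2 ⟨2 ^ k, by rw [h3]; ring⟩
      exact absurd (Nat.isUnit_iff.1 this) (by norm_num)

theorem key {N g c a b l : ℕ} (hl : l.Prime) (h : N * g = c ^ 2 * (a * b)) (hc : c ≠ 0)
    (ha : a ≠ 0) (hav : Odd (padicValNat l a)) (hb : ¬ l ∣ b) (hg : ¬ l ∣ g) : ¬ IsSquare N := by
  rintro ⟨t, ht⟩
  have : Fact l.Prime := ⟨hl⟩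
  have hb0 : b ≠ 0 := by rintro rfl; exact hb (dvd_zero _)
  have hg0 : g ≠ 0 := by rintro rfl; exact hg (dvd_zero _)
  have ht0 : t ≠ 0 := by
    rintro rfl
    rw [ht] at h
    simp only [mul_zero, zero_mul] at h
    exact (mul_ne_zero (pow_ne_zero 2 hc) (mul_ne_zero ha hb0)) h.symm
  have h1 : padicValNat l (N * g) = 2 * padicValNat l t := by
    rw [ht, padicValNat.mul (mul_ne_zero ht0 ht0) hg0, padicValNat.mul ht0 ht0,
      padicValNat.eq_zero_of_not_dvd hg]; ring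
  have h2 : padicValNat l (c ^ 2 * (a * b)) = 2 * padicValNat l c + padicValNat l a := by
    rw [padicValNat.mul (pow_ne_zero 2 hc) (mul_ne_zero ha hb0), padicValNat.mul ha hb0,
      padicValNat.eq_zero_of_not_dvd hb, padicValNat.pow]; ring
  rw [h, h2] at h1
  obtain ⟨j, hj⟩ := hav
  omega

theorem dvd_sub_one_iff {q l i : ℕ} (hq : 1 ≤ q) : l ∣ q ^ i - 1 ↔ (q : ZMod l) ^ i = 1 := by
  rw [← CharP.cast_eq_zero_iff (ZMod l) l, Nat.cast_sub (Nat.one_le_pow _ _ hq)]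
  push_cast
  exact sub_eq_zero

theorem dvd_add_one_iff {q l i : ℕ} : l ∣ q ^ i + 1 ↔ (q : ZMod l) ^ i = -1 := by
  rw [← CharP.cast_eq_zero_iff (ZMod l) l]
  push_cast
  exact ⟨fun h => by linear_combination h, fun h => by rw [h]; ring⟩

theorem neg_one_ne_one {l : ℕ} (hl : l.Prime) (h2 : l ≠ 2) : (-1 : ZMod l) ≠ 1 := by
  have : Fact (2 < l) := ⟨lt_of_le_of_ne hl.two_le (Ne.symm h2)⟩
  exact ZMod.neg_one_ne_one

theorem order_two_pow {q l k : ℕ} (hl : l.Prime) (h2 : l ≠ 2) (h : l ∣ q ^ (2 ^ k) + 1) (i : ℕ) :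
    (q : ZMod l) ^ i = 1 ↔ 2 ^ (k + 1) ∣ i := by
  have h1 : (q : ZMod l) ^ (2 ^ k) = -1 := dvd_add_one_iff.1 h
  have : Fact (Nat.Prime 2) := ⟨Nat.prime_two⟩
  have ho : orderOf (q : ZMod l) = 2 ^ (k + 1) := by
    apply orderOf_eq_prime_pow
    · rw [h1]; exact neg_one_ne_one hl h2
    · rw [pow_succ, pow_mul, h1]; ring
  rw [← ho]
  exact orderOf_dvd_iff_pow_eq_one.symm

/-- the order of `q` modulo a prime `l ≠ 3` dividing `R^2 - R + 1`, `R = q^(2^k)` -/
theorem order_three_two_pow {q l k b : ℕ} (hl : l.Prime) (h2 : l ≠ 2) (h3 : l ≠ 3)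
    (hb : b + q ^ (2 ^ k) = (q ^ (2 ^ k)) ^ 2 + 1) (h : l ∣ b) (i : ℕ) :
    (q : ZMod l) ^ i = 1 ↔ 3 * 2 ^ (k + 1) ∣ i := by
  have : Fact l.Prime := ⟨hl⟩
  set R : ZMod l := (q : ZMod l) ^ (2 ^ k) with hR
  have h0 : (b : ZMod l) = 0 := (CharP.cast_eq_zero_iff (ZMod l) l b).2 h
  have h1 : R ^ 2 - R + 1 = 0 := by
    have := congrArg (fun n : ℕ => (n : ZMod l)) hb
    push_cast at this
    rw [h0, zero_add] at this
    rw [hR]
    linear_combination -this
  have hR3 : R ^ 3 = -1 := by linear_combination (R + 1) * h1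
  have hne : (-1 : ZMod l) ≠ 1 := neg_one_ne_one hl h2
  have h3' : (3 : ZMod l) ≠ 0 := by
    intro h4
    have : ((3 : ℕ) : ZMod l) = 0 := by exact_mod_cast h4
    rw [CharP.cast_eq_zero_iff (ZMod l) l] at this
    exact h3 ((Nat.prime_dvd_prime_iff_eq hl Nat.prime_three).1 this)
  have hR2 : R ^ 2 ≠ 1 := by
    intro h4
    have h5 : R = -1 := by
      have : R ^ 3 = R := by rw [pow_succ, h4, one_mul]
      rw [← this, hR3]
    rw [h5] at h1
    exact h3' (by linear_combination h1)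
  have ho : orderOf (q : ZMod l) = 3 * 2 ^ (k + 1) := by
    apply orderOf_eq_of_pow_and_pow_div_prime (by positivity)
    · have : (q : ZMod l) ^ (3 * 2 ^ (k + 1)) = (R ^ 3) ^ 2 := by
        rw [hR, ← pow_mul, ← pow_mul]; congr 1; ring
      rw [this, hR3]; ring
    · intro p hp hpd
      have hp23 : p = 3 ∨ p = 2 := by
        rcases (Nat.Prime.dvd_mul hp).1 hpd with h5 | h5
        · left; exact (Nat.prime_dvd_prime_iff_eq hp Nat.prime_three).1 h5
        · right; exact (Nat.prime_dvd_prime_iff_eq hp Nat.prime_two).1 (hp.dvd_of_dvd_pow h5)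
      rcases hp23 with rfl | rfl
      · have e : 3 * 2 ^ (k + 1) / 3 = 2 ^ (k + 1) := by omega
        have : (q : ZMod l) ^ (2 ^ (k + 1)) = R ^ 2 := by
          rw [hR, ← pow_mul]; congr 1
        rw [e, this]; exact hR2
      · have e : 3 * 2 ^ (k + 1) / 2 = 3 * 2 ^ k := by rw [pow_succ]; omega
        have : (q : ZMod l) ^ (3 * 2 ^ k) = R ^ 3 := by
          rw [hR, ← pow_mul]; congr 1; ring
        rw [e, this, hR3]; exact hne
  rw [← ho]
  exact orderOf_dvd_iff_pow_eq_one.symm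

/-- an odd prime dividing `q^(2^k) + 1`, `k ≥ 2`, to an odd power -/
theorem exists_prime_two_pow {q k : ℕ} (hq : 2 ≤ q) (hk : 2 ≤ k) :
    ∃ l, l.Prime ∧ l ≠ 2 ∧ Odd (padicValNat l (q ^ (2 ^ k) + 1)) := by
  obtain ⟨j, rfl⟩ : ∃ j, k = j + 2 := ⟨k - 2, by omega⟩
  have e : q ^ (2 ^ (j + 2)) = (q ^ (2 ^ j)) ^ 4 := by
    rw [← pow_mul]; congr 1; ring
  have hx : 2 ≤ q ^ (2 ^ j) := by
    calc 2 ≤ q ^ 1 := by simpa using hq
      _ ≤ q ^ (2 ^ j) := Nat.pow_le_pow_right (by omega) Nat.one_le_two_pow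
  rw [e]
  apply exists_odd_val2 (by omega)
  · rintro ⟨z, hz⟩
    exact quart_one (by omega) (hz.trans (by ring))
  · intro z hz
    have := quart_two hz
    omega

/-- the same for `k = 1` and a square `q` -/
theorem exists_prime_sq {s : ℕ} (hs : 2 ≤ s) :
    ∃ l, l.Prime ∧ l ≠ 2 ∧ Odd (padicValNat l ((s ^ 2) ^ (2 ^ 1) + 1)) := by
  have e : (s ^ 2) ^ (2 ^ 1) = s ^ 4 := by ring
  rw [e]
  apply exists_odd_val2 (by omega)
  · rintro ⟨z, hz⟩
    exact quart_one (by omega) (hz.trans (by ring))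
  · intro z hz
    have := quart_two hz
    omega

/-- `q` is a square if it occurs to an odd power -/
theorem sq_of_odd_exp {q N g b e : ℕ} (hq : IsPrimePow q) (he : Odd e) (h : N * g = q ^ e * b)
    (hb : Nat.Coprime q b) (hg : Nat.Coprime q g) (hb0 : b ≠ 0) (hN : IsSquare N) :
    ∃ s, 2 ≤ s ∧ q = s ^ 2 := by
  obtain ⟨p, m, hp, hm, rfl⟩ := hq
  have hp' : p.Prime := hp.nat_prime
  have : Fact p.Prime := ⟨hp'⟩
  obtain ⟨t, ht⟩ := hN
  have hpb : ¬ p ∣ b := by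
    intro h1
    exact hp'.one_lt.ne' (Nat.eq_one_of_dvd_coprimes hb (dvd_pow_self p (by omega)) h1)
  have hpg : ¬ p ∣ g := by
    intro h1
    exact hp'.one_lt.ne' (Nat.eq_one_of_dvd_coprimes hg (dvd_pow_self p (by omega)) h1)
  have hg0 : g ≠ 0 := by rintro rfl; exact hpg (dvd_zero _)
  have hq0 : (p ^ m) ^ e ≠ 0 := pow_ne_zero _ (pow_ne_zero _ hp'.ne_zero)
  have ht0 : t ≠ 0 := by
    rintro rfl
    rw [ht] at h
    simp only [mul_zero, zero_mul] at h
    exact (mul_ne_zero hq0 hb0) h.symm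
  have h1 : padicValNat p (N * g) = 2 * padicValNat p t := by
    rw [ht, padicValNat.mul (mul_ne_zero ht0 ht0) hg0, padicValNat.mul ht0 ht0,
      padicValNat.eq_zero_of_not_dvd hpg]; ring
  have h2 : padicValNat p ((p ^ m) ^ e * b) = m * e := by
    rw [padicValNat.mul hq0 hb0, padicValNat.eq_zero_of_not_dvd hpb, ← pow_mul,
      padicValNat.prime_pow]; ring
  rw [h, h2] at h1
  have hmev : Even m := by
    by_contra hodd
    rw [Nat.not_even_iff_odd] at hodd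
    have := hodd.mul he
    rw [h1] at this
    exact (Nat.not_odd_iff_even.2 (even_two_mul _)) this
  obtain ⟨r, hr⟩ := hmev
  refine ⟨p ^ r, ?_, by rw [← pow_mul, hr]; congr 1; ring⟩
  calc 2 ≤ p ^ 1 := by simpa using hp'.two_le
    _ ≤ p ^ r := Nat.pow_le_pow_right hp'.pos (by omega)

end Pool.Agent.H373SQ
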