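import Mathlib
import Pool.Agent.H373SQ.Val
import Pool.Agent.H373SQ.Defs

set_option autoImplicit false

namespace Pool.Agent.H373SQ

theorem mult_unique {m i : ℕ} (hi : m ∣ i) (hi0 : i ≠ 0) (hlt : i < 2 * m) : i = m := by
  obtain ⟨c, rfl⟩ := hi
  have hm : 0 < m := Nat.pos_of_ne_zero (by rintro rfl; simp at hi0)
  have hc0 : c ≠ 0 := by rintro rfl; simp at hi0
  have hc2 : c < 2 := by
    by_contra hge
    push Not at hge
    have : m * 2 ≤ m * c := Nat.mul_le_mul_left m hge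
    omega
  have : c = 1 := by omega
  rw [this, mul_one]

theorem not_dvd_one {m : ℕ} (hm : 2 ≤ m) : ¬ m ∣ 1 := by
  intro h
  have := Nat.le_of_dvd one_pos h
  omega

theorem pow_dvd_two_mul {k i : ℕ} (h : 2 ^ (k + 1) ∣ 2 * i) : 2 ^ k ∣ i := by
  rw [pow_succ, mul_comm] at h
  exact Nat.dvd_of_mul_dvd_mul_left (by norm_num) h

theorem dvd_of_odd {l a : ℕ} (h : Odd (padicValNat l a)) : l ∣ a :=
  dvd_of_one_le_padicValNat (by obtain ⟨j, hj⟩ := h; omega)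

theorem sub_mul_add {q k : ℕ} (hq : 1 ≤ q) :
    q ^ (2 ^ (k + 1)) - 1 = (q ^ (2 ^ k) - 1) * (q ^ (2 ^ k) + 1) := by
  have e : q ^ (2 ^ (k + 1)) = q ^ (2 ^ k) * q ^ (2 ^ k) := by
    rw [← pow_add]; congr 1; ring
  rw [e]
  have h1 : 1 ≤ q ^ (2 ^ k) := Nat.one_le_pow _ _ hq
  obtain ⟨u, hu⟩ : ∃ u, q ^ (2 ^ k) = u + 1 := ⟨q ^ (2 ^ k) - 1, by omega⟩
  rw [hu]
  simp only [Nat.add_sub_cancel]
  have : (u + 1) * (u + 1) = u * (u + 1 + 1) + 1 := by ring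
  omega

theorem not_dvd_q {q l k : ℕ} (hl : l.Prime) (h : l ∣ q ^ (2 ^ k) + 1) : ¬ l ∣ q := by
  intro h1
  have h2 : l ∣ q ^ (2 ^ k) := dvd_pow h1 (by positivity)
  have h3 : l ∣ 1 := (Nat.dvd_add_right h2).1 h
  exact hl.one_lt.ne' (Nat.dvd_one.1 h3)

theorem add_one_imp {q l i : ℕ} (h : l ∣ q ^ i + 1) : (q : ZMod l) ^ (2 * i) = 1 := by
  rw [mul_comm, pow_mul, dvd_add_one_iff.1 h]; ring

theorem psl_core {n q j l : ℕ} (hq : 2 ≤ q) (hk1 : 2 ^ (j + 1) ≤ n) (hk2 : n < 2 ^ (j + 1 + 1))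
    (hl : l.Prime) (hl2 : l ≠ 2) (hodd : Odd (padicValNat l (q ^ (2 ^ j) + 1))) :
    ¬ IsSquare (ordPSL n q) := by
  have hn2 : 2 ≤ n := by
    have : 2 ^ 1 ≤ 2 ^ (j + 1) := Nat.pow_le_pow_right (by norm_num) (by omega)
    omega
  have hdiv := dvd_of_odd hodd
  have ho := order_two_pow hl hl2 hdiv
  have hmem : 2 ^ (j + 1) ∈ Finset.Icc 2 n := by
    rw [Finset.mem_Icc]; refine ⟨?_, hk1⟩
    calc 2 = 2 ^ 1 := rfl
      _ ≤ 2 ^ (j + 1) := Nat.pow_le_pow_right (by norm_num) (by omega)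
  have hg1 : Nat.gcd n (q - 1) ∣ q - 1 := Nat.gcd_dvd_right _ _
  have hdvd : Nat.gcd n (q - 1) ∣ numPSL n q := by
    apply Dvd.dvd.mul_left
    apply Dvd.dvd.trans _ (Finset.dvd_prod_of_mem (fun i => q ^ i - 1) (show 2 ∈ Finset.Icc 2 n by
      rw [Finset.mem_Icc]; omega))
    exact hg1.trans (by simpa using Nat.sub_dvd_pow_sub_pow q 1 2)
  refine key (c := 1) (g := Nat.gcd n (q - 1)) (a := q ^ (2 ^ j) + 1)
    (b := q ^ (n * (n - 1) / 2) * ((q ^ (2 ^ j) - 1) *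
      ∏ i ∈ (Finset.Icc 2 n).erase (2 ^ (j + 1)), (q ^ i - 1))) hl ?_ one_ne_zero (by omega) hodd ?_ ?_
  · rw [ordPSL, Nat.div_mul_cancel hdvd, numPSL,
      ← Finset.mul_prod_erase (Finset.Icc 2 n) (fun i => q ^ i - 1) hmem]
    simp only [sub_mul_add (show 1 ≤ q by omega)]
    ring
  · intro h
    rcases (Nat.Prime.dvd_mul hl).1 h with h | h
    · exact not_dvd_q hl hdiv (hl.dvd_of_dvd_pow h)
    rcases (Nat.Prime.dvd_mul hl).1 h with h | h
    · rw [dvd_sub_one_iff (by omega), ho] at h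
      have := Nat.le_of_dvd (by positivity) h
      have : 2 ^ j < 2 ^ (j + 1) := Nat.pow_lt_pow_right (by norm_num) (by omega)
      omega
    · obtain ⟨i, hi, h⟩ := (Prime.dvd_finsetProd_iff hl.prime _).1 h
      rw [Finset.mem_erase, Finset.mem_Icc] at hi
      rw [dvd_sub_one_iff (by omega), ho] at h
      exact hi.1 (mult_unique h (by omega) (by rw [pow_succ] at hk2; omega))
  · intro h
    have h1 : l ∣ q ^ 1 - 1 := by rw [pow_one]; exact h.trans hg1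
    rw [dvd_sub_one_iff (by omega), ho] at h1
    exact not_dvd_one (by
      calc 2 = 2 ^ 1 := rfl
        _ ≤ 2 ^ (j + 1) := Nat.pow_le_pow_right (by norm_num) (by omega)) h1

theorem psu_core {n q j l : ℕ} (hq : 2 ≤ q) (hj : 1 ≤ j) (hk1 : 2 ^ (j + 1) ≤ n)
    (hk2 : n < 2 ^ (j + 1 + 1)) (hl : l.Prime) (hl2 : l ≠ 2)
    (hodd : Odd (padicValNat l (q ^ (2 ^ j) + 1))) : ¬ IsSquare (ordPSU n q) := by
  have hn2 : 2 ≤ n := by
    have : 2 ^ 1 ≤ 2 ^ (j + 1) := Nat.pow_le_pow_right (by norm_num) (by omega)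
    omega
  have hdiv := dvd_of_odd hodd
  have ho := order_two_pow hl hl2 hdiv
  have h4 : 2 ∣ 2 ^ j := dvd_pow_self 2 (by omega)
  have hmem : 2 ^ (j + 1) ∈ Finset.Icc 2 n := by
    rw [Finset.mem_Icc]; refine ⟨?_, hk1⟩
    calc 2 = 2 ^ 1 := rfl
      _ ≤ 2 ^ (j + 1) := Nat.pow_le_pow_right (by norm_num) (by omega)
  have hg1 : Nat.gcd n (q + 1) ∣ q + 1 := Nat.gcd_dvd_right _ _
  have hdvd : Nat.gcd n (q + 1) ∣ numPSU n q := by
    apply Dvd.dvd.mul_left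
    apply Dvd.dvd.trans _ (Finset.dvd_prod_of_mem (fun i => if Even i then q ^ i - 1 else q ^ i + 1)
      (show 2 ∈ Finset.Icc 2 n by rw [Finset.mem_Icc]; omega))
    simp only [even_two, if_true]
    refine hg1.trans ⟨q - 1, ?_⟩
    have := Nat.sq_sub_sq q 1
    simpa using this
  refine key (c := 1) (g := Nat.gcd n (q + 1)) (a := q ^ (2 ^ j) + 1)
    (b := q ^ (n * (n - 1) / 2) * ((q ^ (2 ^ j) - 1) *
      ∏ i ∈ (Finset.Icc 2 n).erase (2 ^ (j + 1)), (if Even i then q ^ i - 1 else q ^ i + 1)))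
      hl ?_ one_ne_zero (by omega) hodd ?_ ?_
  · have hev : Even (2 ^ (j + 1)) := ⟨2 ^ j, by ring⟩
    rw [ordPSU, Nat.div_mul_cancel hdvd, numPSU,
      ← Finset.mul_prod_erase (Finset.Icc 2 n) (fun i => if Even i then q ^ i - 1 else q ^ i + 1) hmem]
    simp only [hev, if_true, sub_mul_add (show 1 ≤ q by omega)]
    ring
  · intro h
    rcases (Nat.Prime.dvd_mul hl).1 h with h | h
    · exact not_dvd_q hl hdiv (hl.dvd_of_dvd_pow h)
    rcases (Nat.Prime.dvd_mul hl).1 h with h | h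
    · rw [dvd_sub_one_iff (by omega), ho] at h
      have := Nat.le_of_dvd (by positivity) h
      have : 2 ^ j < 2 ^ (j + 1) := Nat.pow_lt_pow_right (by norm_num) (by omega)
      omega
    · obtain ⟨i, hi, h⟩ := (Prime.dvd_finsetProd_iff hl.prime _).1 h
      rw [Finset.mem_erase, Finset.mem_Icc] at hi
      by_cases hev : Even i
      · simp only [hev, if_true] at h
        rw [dvd_sub_one_iff (by omega), ho] at h
        exact hi.1 (mult_unique h (by omega) (by rw [pow_succ] at hk2; omega))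
      · simp only [hev, if_false] at h
        have h5 := pow_dvd_two_mul ((ho _).1 (add_one_imp h))
        have h6 : 2 ∣ i := h4.trans h5
        rw [Nat.not_even_iff] at hev
        omega
  · intro h
    have h1 : l ∣ q ^ 1 + 1 := by rw [pow_one]; exact h.trans hg1
    have h5 := pow_dvd_two_mul ((ho _).1 (add_one_imp h1))
    have h6 : 2 ∣ 1 := h4.trans h5
    omega

theorem bc_core {n q j l : ℕ} (hq : 2 ≤ q) (hk1 : 2 ^ j ≤ n) (hk2 : n < 2 ^ (j + 1))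
    (hl : l.Prime) (hl2 : l ≠ 2) (hodd : Odd (padicValNat l (q ^ (2 ^ j) + 1))) :
    ¬ IsSquare (ordBC n q) := by
  have hn2 : 1 ≤ n := by
    have : 0 < 2 ^ j := by positivity
    omega
  have hdiv := dvd_of_odd hodd
  have ho := order_two_pow hl hl2 hdiv
  have hmem : 2 ^ j ∈ Finset.Icc 1 n := by
    rw [Finset.mem_Icc]; exact ⟨Nat.one_le_two_pow, hk1⟩
  have hg1 : Nat.gcd 2 (q - 1) ∣ q - 1 := Nat.gcd_dvd_right _ _
  have hdvd : Nat.gcd 2 (q - 1) ∣ numBC n q := by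
    apply Dvd.dvd.mul_left
    apply Dvd.dvd.trans _ (Finset.dvd_prod_of_mem (fun i => q ^ (2 * i) - 1)
      (show 1 ∈ Finset.Icc 1 n by rw [Finset.mem_Icc]; omega))
    exact hg1.trans (by simpa using Nat.sub_dvd_pow_sub_pow q 1 2)
  refine key (c := 1) (g := Nat.gcd 2 (q - 1)) (a := q ^ (2 ^ j) + 1)
    (b := q ^ (n ^ 2) * ((q ^ (2 ^ j) - 1) *
      ∏ i ∈ (Finset.Icc 1 n).erase (2 ^ j), (q ^ (2 * i) - 1))) hl ?_ one_ne_zero (by omega) hodd ?_ ?_
  · rw [ordBC, Nat.div_mul_cancel hdvd, numBC,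
      ← Finset.mul_prod_erase (Finset.Icc 1 n) (fun i => q ^ (2 * i) - 1) hmem]
    have e : 2 * 2 ^ j = 2 ^ (j + 1) := by ring
    simp only [e, sub_mul_add (show 1 ≤ q by omega)]
    ring
  · intro h
    rcases (Nat.Prime.dvd_mul hl).1 h with h | h
    · exact not_dvd_q hl hdiv (hl.dvd_of_dvd_pow h)
    rcases (Nat.Prime.dvd_mul hl).1 h with h | h
    · rw [dvd_sub_one_iff (by omega), ho] at h
      have := Nat.le_of_dvd (by positivity) h
      have : 2 ^ j < 2 ^ (j + 1) := Nat.pow_lt_pow_right (by norm_num) (by omega)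
      omega
    · obtain ⟨i, hi, h⟩ := (Prime.dvd_finsetProd_iff hl.prime _).1 h
      rw [Finset.mem_erase, Finset.mem_Icc] at hi
      rw [dvd_sub_one_iff (by omega), ho] at h
      exact hi.1 (mult_unique (pow_dvd_two_mul h) (by omega) (by rw [pow_succ] at hk2; omega))
  · intro h
    have h1 : l ∣ q ^ 1 - 1 := by rw [pow_one]; exact h.trans hg1
    rw [dvd_sub_one_iff (by omega), ho] at h1
    exact not_dvd_one (by
      calc 2 = 2 ^ 1 := rfl
        _ ≤ 2 ^ (j + 1) := Nat.pow_le_pow_right (by norm_num) (by omega)) h1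

theorem not_dvd_gcd_four {l m : ℕ} (hl : l.Prime) (hl2 : l ≠ 2) : ¬ l ∣ Nat.gcd 4 m := by
  intro h
  have h1 : l ∣ 2 ^ 2 := h.trans (Nat.gcd_dvd_left 4 m)
  exact hl2 ((Nat.prime_dvd_prime_iff_eq hl Nat.prime_two).1 (hl.dvd_of_dvd_pow h1))

/-- `PΩ⁺(2n, q)`, `n ≥ 5` not a power of two -/
theorem d_big {n q : ℕ} (hn : 5 ≤ n) (hn2 : ∀ j, n ≠ 2 ^ j) (hq : 2 ≤ q) : ¬ IsSquare (ordD n q) := by
  have hk1' : 2 ^ (Nat.log 2 n) ≤ n := Nat.pow_log_le_self 2 (by omega)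
  have hk2 : n < 2 ^ (Nat.log 2 n + 1) := Nat.lt_pow_succ_log_self (by norm_num) n
  have hk3 : 2 ≤ Nat.log 2 n := Nat.le_log_of_pow_le (by norm_num) (by omega)
  have hk1 : 2 ^ (Nat.log 2 n) ≤ n - 1 := by
    have := hn2 (Nat.log 2 n)
    omega
  generalize Nat.log 2 n = j at hk1 hk2 hk3
  obtain ⟨l, hl, hl2, hodd⟩ := exists_prime_two_pow hq hk3
  have hdiv := dvd_of_odd hodd
  have ho := order_two_pow hl hl2 hdiv
  have hmem : 2 ^ j ∈ Finset.Icc 1 (n - 1) := by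
    rw [Finset.mem_Icc]; exact ⟨Nat.one_le_two_pow, hk1⟩
  have hdvd : Nat.gcd 4 (q ^ n - 1) ∣ numD n q := by
    apply Dvd.dvd.mul_left
    exact (Nat.gcd_dvd_right _ _).trans (Dvd.intro _ rfl)
  refine key (c := 1) (g := Nat.gcd 4 (q ^ n - 1)) (a := q ^ (2 ^ j) + 1)
    (b := q ^ (n * (n - 1)) * ((q ^ n - 1) * ((q ^ (2 ^ j) - 1) *
      ∏ i ∈ (Finset.Icc 1 (n - 1)).erase (2 ^ j), (q ^ (2 * i) - 1)))) hl ?_ one_ne_zero (by omega)
      hodd ?_ (not_dvd_gcd_four hl hl2)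
  · rw [ordD, Nat.div_mul_cancel hdvd, numD,
      ← Finset.mul_prod_erase (Finset.Icc 1 (n - 1)) (fun i => q ^ (2 * i) - 1) hmem]
    have e : 2 * 2 ^ j = 2 ^ (j + 1) := by ring
    simp only [e, sub_mul_add (show 1 ≤ q by omega)]
    ring
  · intro h
    rcases (Nat.Prime.dvd_mul hl).1 h with h | h
    · exact not_dvd_q hl hdiv (hl.dvd_of_dvd_pow h)
    rcases (Nat.Prime.dvd_mul hl).1 h with h | h
    · rw [dvd_sub_one_iff (by omega), ho] at h
      have := Nat.le_of_dvd (by omega) h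
      omega
    rcases (Nat.Prime.dvd_mul hl).1 h with h | h
    · rw [dvd_sub_one_iff (by omega), ho] at h
      have := Nat.le_of_dvd (by positivity) h
      have : 2 ^ j < 2 ^ (j + 1) := Nat.pow_lt_pow_right (by norm_num) (by omega)
      omega
    · obtain ⟨i, hi, h⟩ := (Prime.dvd_finsetProd_iff hl.prime _).1 h
      rw [Finset.mem_erase, Finset.mem_Icc] at hi
      rw [dvd_sub_one_iff (by omega), ho] at h
      exact hi.1 (mult_unique (pow_dvd_two_mul h) (by omega) (by rw [pow_succ] at hk2; omega))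

/-- `PΩ⁻(2n, q)`, `n ≥ 5` -/
theorem td_big {n q : ℕ} (hn : 5 ≤ n) (hq : 2 ≤ q) : ¬ IsSquare (ordTD n q) := by
  have hk1 : 2 ^ (Nat.log 2 (n - 1)) ≤ n - 1 := Nat.pow_log_le_self 2 (by omega)
  have hk2 : n - 1 < 2 ^ (Nat.log 2 (n - 1) + 1) := Nat.lt_pow_succ_log_self (by norm_num) _
  have hk3 : 2 ≤ Nat.log 2 (n - 1) := Nat.le_log_of_pow_le (by norm_num) (by omega)
  generalize Nat.log 2 (n - 1) = j at hk1 hk2 hk3
  obtain ⟨l, hl, hl2, hodd⟩ := exists_prime_two_pow hq hk3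
  have hdiv := dvd_of_odd hodd
  have ho := order_two_pow hl hl2 hdiv
  have hmem : 2 ^ j ∈ Finset.Icc 1 (n - 1) := by
    rw [Finset.mem_Icc]; exact ⟨Nat.one_le_two_pow, hk1⟩
  have hdvd : Nat.gcd 4 (q ^ n + 1) ∣ numTD n q := by
    apply Dvd.dvd.mul_left
    exact (Nat.gcd_dvd_right _ _).trans (Dvd.intro _ rfl)
  refine key (c := 1) (g := Nat.gcd 4 (q ^ n + 1)) (a := q ^ (2 ^ j) + 1)
    (b := q ^ (n * (n - 1)) * ((q ^ n + 1) * ((q ^ (2 ^ j) - 1) *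
      ∏ i ∈ (Finset.Icc 1 (n - 1)).erase (2 ^ j), (q ^ (2 * i) - 1)))) hl ?_ one_ne_zero (by omega)
      hodd ?_ (not_dvd_gcd_four hl hl2)
  · rw [ordTD, Nat.div_mul_cancel hdvd, numTD,
      ← Finset.mul_prod_erase (Finset.Icc 1 (n - 1)) (fun i => q ^ (2 * i) - 1) hmem]
    have e : 2 * 2 ^ j = 2 ^ (j + 1) := by ring
    simp only [e, sub_mul_add (show 1 ≤ q by omega)]
    ring
  · intro h
    rcases (Nat.Prime.dvd_mul hl).1 h with h | h
    · exact not_dvd_q hl hdiv (hl.dvd_of_dvd_pow h)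
    rcases (Nat.Prime.dvd_mul hl).1 h with h | h
    · have h5 := pow_dvd_two_mul ((ho _).1 (add_one_imp h))
      obtain ⟨c, hc⟩ := h5
      have hc2 : c = 2 := by
        have h6 : 0 < 2 ^ j := by positivity
        rw [pow_succ] at hk2
        have h7 : 2 ^ j * 1 < 2 ^ j * c := by omega
        have h8 : 2 ^ j * c ≤ 2 ^ j * 2 := by omega
        have := lt_of_mul_lt_mul_left h7 (Nat.zero_le _)
        have := Nat.le_of_mul_le_mul_left h8 h6
        omega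
      have h9 : (q : ZMod l) ^ n = 1 := by
        rw [ho, hc, hc2, pow_succ]
      have h10 := dvd_add_one_iff.1 h
      rw [h9] at h10
      exact neg_one_ne_one hl hl2 h10.symm
    rcases (Nat.Prime.dvd_mul hl).1 h with h | h
    · rw [dvd_sub_one_iff (by omega), ho] at h
      have := Nat.le_of_dvd (by positivity) h
      have : 2 ^ j < 2 ^ (j + 1) := Nat.pow_lt_pow_right (by norm_num) (by omega)
      omega
    · obtain ⟨i, hi, h⟩ := (Prime.dvd_finsetProd_iff hl.prime _).1 h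
      rw [Finset.mem_erase, Finset.mem_Icc] at hi
      rw [dvd_sub_one_iff (by omega), ho] at h
      exact hi.1 (mult_unique (pow_dvd_two_mul h) (by omega) (by rw [pow_succ] at hk2; omega))

/-- `PSL(n, q)`, `n ≥ 8` -/
theorem psl_big {n q : ℕ} (hn : 8 ≤ n) (hq : 2 ≤ q) : ¬ IsSquare (ordPSL n q) := by
  have hk1 : 2 ^ (Nat.log 2 n) ≤ n := Nat.pow_log_le_self 2 (by omega)
  have hk2 : n < 2 ^ (Nat.log 2 n + 1) := Nat.lt_pow_succ_log_self (by norm_num) n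
  have hk3 : 3 ≤ Nat.log 2 n := Nat.le_log_of_pow_le (by norm_num) (by omega)
  obtain ⟨j, hj⟩ : ∃ j, Nat.log 2 n = j + 1 := ⟨Nat.log 2 n - 1, by omega⟩
  rw [hj] at hk1 hk2 hk3
  obtain ⟨l, hl, hl2, hodd⟩ := exists_prime_two_pow hq (show 2 ≤ j by omega)
  exact psl_core hq hk1 hk2 hl hl2 hodd

/-- `PSU(n, q)`, `n ≥ 8` -/
theorem psu_big {n q : ℕ} (hn : 8 ≤ n) (hq : 2 ≤ q) : ¬ IsSquare (ordPSU n q) := by
  have hk1 : 2 ^ (Nat.log 2 n) ≤ n := Nat.pow_log_le_self 2 (by omega)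
  have hk2 : n < 2 ^ (Nat.log 2 n + 1) := Nat.lt_pow_succ_log_self (by norm_num) n
  have hk3 : 3 ≤ Nat.log 2 n := Nat.le_log_of_pow_le (by norm_num) (by omega)
  obtain ⟨j, hj⟩ : ∃ j, Nat.log 2 n = j + 1 := ⟨Nat.log 2 n - 1, by omega⟩
  rw [hj] at hk1 hk2 hk3
  obtain ⟨l, hl, hl2, hodd⟩ := exists_prime_two_pow hq (show 2 ≤ j by omega)
  exact psu_core hq (by omega) hk1 hk2 hl hl2 hodd

/-- `PSp(2n, q)` and `Ω(2n+1, q)`, `n ≥ 4` -/
theorem bc_big {n q : ℕ} (hn : 4 ≤ n) (hq : 2 ≤ q) : ¬ IsSquare (ordBC n q) := by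
  have hk1 : 2 ^ (Nat.log 2 n) ≤ n := Nat.pow_log_le_self 2 (by omega)
  have hk2 : n < 2 ^ (Nat.log 2 n + 1) := Nat.lt_pow_succ_log_self (by norm_num) n
  have hk3 : 2 ≤ Nat.log 2 n := Nat.le_log_of_pow_le (by norm_num) (by omega)
  obtain ⟨l, hl, hl2, hodd⟩ := exists_prime_two_pow hq hk3
  exact bc_core hq hk1 hk2 hl hl2 hodd

end Pool.Agent.H373SQ
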