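import Mathlib
import Pool.Agent.H373SQ.Defs

set_option autoImplicit false

namespace Pool.Agent.H373SQ

open Matrix

theorem prod_GL (n q : ℕ) (hq : 1 ≤ q) : ∏ i : Fin n, (q ^ n - q ^ (i : ℕ)) =
    q ^ (n * (n - 1) / 2) * ∏ i ∈ Finset.Icc 1 n, (q ^ i - 1) := by
  rw [Fin.prod_univ_eq_prod_range (fun i => q ^ n - q ^ i) n]
  have h1 : ∀ i ∈ Finset.range n, q ^ n - q ^ i = q ^ i * (q ^ (n - i) - 1) := by
    intro i hi
    have hi' := Finset.mem_range.1 hi
    rw [Nat.mul_sub, mul_one, ← pow_add, Nat.add_sub_cancel' hi'.le]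
  rw [Finset.prod_congr rfl h1, Finset.prod_mul_distrib, Finset.prod_pow_eq_pow_sum,
    Finset.sum_range_id]
  congr 1
  refine Finset.prod_bij' (fun i _ => n - i) (fun i _ => n - i) ?_ ?_ ?_ ?_ ?_
  · intro i hi
    have := Finset.mem_range.1 hi
    exact Finset.mem_Icc.2 ⟨by omega, by omega⟩
  · intro i hi
    have := Finset.mem_Icc.1 hi
    exact Finset.mem_range.2 (by omega)
  · intro i hi
    have := Finset.mem_range.1 hi
    omega
  · intro i hi
    have := Finset.mem_Icc.1 hi
    omega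
  · intro i _
    rfl

theorem prod_GL' (n q : ℕ) (hn : 1 ≤ n) (hq : 1 ≤ q) :
    ∏ i : Fin n, (q ^ n - q ^ (i : ℕ)) = numPSL n q * (q - 1) := by
  rw [prod_GL n q hq, numPSL, mul_assoc]
  congr 1
  have : Finset.Icc 1 n = insert 1 (Finset.Icc 2 n) := by
    ext i
    simp only [Finset.mem_Icc, Finset.mem_insert]
    omega
  rw [this, Finset.prod_insert (by simp), pow_one, mul_comm]

/-- `SL(n, F)` is the kernel of the determinant on `GL(n, F)` -/
noncomputable def slEquivKer (n : ℕ) (F : Type) [Field F] :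
    SpecialLinearGroup (Fin n) F ≃ (GeneralLinearGroup.det (n := Fin n) (R := F)).ker :=
  Equiv.ofBijective
    (fun A => ⟨(A : GL (Fin n) F), by
      rw [MonoidHom.mem_ker]
      exact SpecialLinearGroup.coeToGL_det A⟩)
    ⟨fun A B h => SpecialLinearGroup.toGL_injective (Subtype.ext_iff.1 h), fun B => by
      have hB : (B.1 : Matrix (Fin n) (Fin n) F).det = 1 := by
        have := B.2
        rw [MonoidHom.mem_ker] at this
        exact congrArg Units.val this
      refine ⟨⟨(B.1 : Matrix (Fin n) (Fin n) F), hB⟩, ?_⟩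
      apply Subtype.ext
      apply Units.ext
      rfl⟩

theorem card_SL (n : ℕ) (hn : 1 ≤ n) (F : Type) [Field F] [Finite F] :
    Nat.card (SpecialLinearGroup (Fin n) F) = numPSL n (Nat.card F) := by
  have := Fintype.ofFinite F
  have : Nonempty (Fin n) := ⟨⟨0, hn⟩⟩
  have hq : 1 < Nat.card F := Finite.one_lt_card
  have h1 := Matrix.card_GL_field (𝔽 := F) n
  rw [← Nat.card_eq_fintype_card] at h1
  rw [prod_GL' n (Nat.card F) hn hq.le] at h1
  have h2 := Subgroup.card_mul_index (GeneralLinearGroup.det (n := Fin n) (R := F)).ker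
  rw [Subgroup.index_ker, MonoidHom.range_eq_top.2 GeneralLinearGroup.det_surjective,
    ← Nat.card_congr (slEquivKer n F), h1] at h2
  have h3 : Nat.card (⊤ : Subgroup Fˣ) = Nat.card F - 1 := by
    rw [Subgroup.card_top, Nat.card_units]
  rw [h3] at h2
  exact Nat.eq_of_mul_eq_mul_right (by omega) h2

theorem card_center (n : ℕ) (hn : 1 ≤ n) (F : Type) [Field F] [Finite F] :
    Nat.card (Subgroup.center (SpecialLinearGroup (Fin n) F)) = Nat.gcd n (Nat.card F - 1) := by
  have := Fintype.ofFinite F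
  have e := SpecialLinearGroup.center_equiv_rootsOfUnity' (R := F) (n := Fin n) ⟨0, hn⟩
  rw [Nat.card_congr e.toEquiv, Fintype.card_fin]
  have h1 : rootsOfUnity n F = (powMonoidHom n : Fˣ →* Fˣ).ker := by
    ext x
    rw [mem_rootsOfUnity, MonoidHom.mem_ker, powMonoidHom_apply]
  rw [h1, IsCyclic.card_powMonoidHom_ker, Nat.card_units, Nat.gcd_comm]

/-- the order of `PSL(n, F)` -/
theorem card_PSL (n : ℕ) (hn : 1 ≤ n) (F : Type) [Field F] [Finite F] :
    Nat.card (ProjectiveSpecialLinearGroup (Fin n) F) = ordPSL n (Nat.card F) := by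
  have h1 := Subgroup.card_eq_card_quotient_mul_card_subgroup
    (Subgroup.center (SpecialLinearGroup (Fin n) F))
  rw [card_center n hn F, card_SL n hn F] at h1
  have hq : 1 < Nat.card F := Finite.one_lt_card
  rw [ordPSL, h1, Nat.mul_div_cancel]
  exact Nat.gcd_pos_of_pos_left _ hn

end Pool.Agent.H373SQ
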