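import Mathlib
import Pool.Agent.H373SQ.Defs

set_option autoImplicit false

namespace Pool.Agent.H373SQ

open Module

/-- families of `n` mutually orthogonal hyperbolic pairs -/
def IsSB {F V : Type} [Field F] [AddCommGroup V] [Module F V] (ω : V →ₗ[F] V →ₗ[F] F) {n : ℕ}
    (b : Fin n → V × V) : Prop :=
  (∀ i j, ω (b i).1 (b j).1 = 0) ∧ (∀ i j, ω (b i).2 (b j).2 = 0) ∧
    ∀ i j, ω (b i).1 (b j).2 = if i = j then 1 else 0

section

variable {F V : Type} [Field F] [AddCommGroup V] [Module F V] (ω : V →ₗ[F] V →ₗ[F] F)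

theorem alt_neg (ha : ∀ v, ω v v = 0) (v w : V) : ω v w = - ω w v := by
  have h := ha (v + w)
  simp only [map_add, LinearMap.add_apply, ha] at h
  linear_combination h

/-- the orthogonal complement of `e`, `f` -/
def orth (p : V × V) : Submodule F V := LinearMap.ker ((ω p.1).prod (ω p.2))

theorem mem_orth {p : V × V} {v : V} : v ∈ orth ω p ↔ ω p.1 v = 0 ∧ ω p.2 v = 0 := by
  rw [orth, LinearMap.mem_ker]
  change (ω p.1 v, ω p.2 v) = 0 ↔ _
  rw [Prod.mk_eq_zero]

theorem finrank_orth [Finite V] (ha : ∀ v, ω v v = 0) {n : ℕ} (hn : finrank F V = 2 * (n + 1)) {p : V × V}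
    (hp : ω p.1 p.2 = 1) : finrank F (orth ω p) = 2 * n := by
  have hsurj : Function.Surjective ((ω p.1).prod (ω p.2)) := by
    rintro ⟨a, b⟩
    have h1 := alt_neg ω ha p.2 p.1
    refine ⟨a • p.2 - b • p.1, Prod.ext ?_ ?_⟩
    · change ω p.1 (a • p.2 - b • p.1) = a
      simp only [map_sub, map_smul, smul_eq_mul, ha, hp]; ring
    · change ω p.2 (a • p.2 - b • p.1) = b
      simp only [map_sub, map_smul, smul_eq_mul, ha, hp, h1]; ring
  have h2 := LinearMap.finrank_range_add_finrank_ker ((ω p.1).prod (ω p.2))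
  rw [LinearMap.range_eq_top.2 hsurj, finrank_top, finrank_prod, finrank_self, hn] at h2
  have h3 : finrank F (orth ω p) = finrank F (LinearMap.ker ((ω p.1).prod (ω p.2))) := rfl
  omega

/-- the restricted form -/
def restr (W : Submodule F V) : W →ₗ[F] W →ₗ[F] F := ω.compl₁₂ W.subtype W.subtype

theorem restr_apply (W : Submodule F V) (v w : W) : restr ω W v w = ω v w := rfl

theorem restr_nondeg (ha : ∀ v, ω v v = 0) (hnd : ∀ v, (∀ w, ω v w = 0) → v = 0) {p : V × V}
    (hp : ω p.1 p.2 = 1) (v : orth ω p) (hv : ∀ w, restr ω (orth ω p) v w = 0) : v = 0 := by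
  apply Subtype.ext
  apply hnd
  intro w
  obtain ⟨h1, h2⟩ := (mem_orth ω).1 v.2
  have h21 := alt_neg ω ha p.2 p.1
  -- the component of `w` in the complement
  have hw : w - (ω p.1 w) • p.2 + (ω p.2 w) • p.1 ∈ orth ω p := by
    rw [mem_orth]
    constructor
    · simp only [map_add, map_sub, map_smul, smul_eq_mul, ha, hp]; ring
    · simp only [map_add, map_sub, map_smul, smul_eq_mul, ha, hp, h21]; ring
  have h3 := hv ⟨_, hw⟩
  rw [restr_apply] at h3
  simp only [map_add, map_sub, map_smul, smul_eq_mul] at h3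
  have h4 := alt_neg ω ha v p.1
  have h5 := alt_neg ω ha v p.2
  rw [h4, h5, h1, h2] at h3
  simpa using h3

theorem card_pairs [Finite V] (hnd : ∀ v, (∀ w, ω v w = 0) → v = 0) {m : ℕ}
    (hm : finrank F V = m + 1) :
    Nat.card {p : V × V // ω p.1 p.2 = 1} = (Nat.card F ^ (m + 1) - 1) * Nat.card F ^ m := by
  have e : {p : V × V // ω p.1 p.2 = 1} ≃ Σ e : {e : V // e ≠ 0}, {f : V // ω e.1 f = 1} :=
    { toFun := fun p => ⟨⟨p.1.1, by
          intro h0
          have := p.2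
          rw [h0] at this
          simp at this⟩, ⟨p.1.2, p.2⟩⟩
      invFun := fun s => ⟨(s.1.1, s.2.1), s.2.2⟩
      left_inv := fun p => rfl
      right_inv := fun s => rfl }
  rw [Nat.card_congr e]
  have hfib : ∀ e : {e : V // e ≠ 0}, Nat.card {f : V // ω e.1 f = 1} = Nat.card F ^ m := by
    intro e
    obtain ⟨w, hw⟩ : ∃ w, ω e.1 w ≠ 0 := by
      by_contra hcon
      push Not at hcon
      exact e.2 (hnd _ hcon)
    set f0 := (ω e.1 w)⁻¹ • w with hf0
    have hf01 : ω e.1 f0 = 1 := by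
      rw [hf0, map_smul, smul_eq_mul, inv_mul_cancel₀ hw]
    have e2 : {f : V // ω e.1 f = 1} ≃ LinearMap.ker (ω e.1) :=
      { toFun := fun f => ⟨f.1 - f0, by rw [LinearMap.mem_ker, map_sub, f.2, hf01, sub_self]⟩
        invFun := fun g => ⟨g.1 + f0, by
          have := g.2
          rw [LinearMap.mem_ker] at this
          rw [map_add, this, hf01, zero_add]⟩
        left_inv := fun f => by simp
        right_inv := fun g => by simp }
    rw [Nat.card_congr e2]
    have hsurj : Function.Surjective (ω e.1) := fun a => ⟨a • f0, by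
      rw [map_smul, hf01, smul_eq_mul, mul_one]⟩
    have h2 := LinearMap.finrank_range_add_finrank_ker (ω e.1)
    rw [LinearMap.range_eq_top.2 hsurj, finrank_top, finrank_self, hm] at h2
    rw [Module.natCard_eq_pow_finrank (K := F)]
    congr 1
    omega
  have : Finite {e : V // e ≠ 0} := inferInstance
  have := Fintype.ofFinite {e : V // e ≠ 0}
  rw [Nat.card_sigma]
  simp only [hfib, Finset.sum_const, smul_eq_mul, Finset.card_univ]
  congr 1
  rw [← Nat.card_eq_fintype_card]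
  have h3 : Nat.card V = Nat.card F ^ (m + 1) := by
    rw [Module.natCard_eq_pow_finrank (K := F), hm]
  have := Fintype.ofFinite V
  have h4 : Nat.card {e : V // e ≠ 0} = Nat.card V - 1 := by
    classical
    rw [Nat.card_eq_fintype_card, Nat.card_eq_fintype_card]
    simp [Fintype.card_subtype_compl]
  rw [h4, h3]

end

theorem alt_zero {F V : Type} [Field F] [AddCommGroup V] [Module F V] {ω : V →ₗ[F] V →ₗ[F] F}
    (ha : ∀ v, ω v v = 0) {v w : V} (h : ω v w = 0) : ω w v = 0 := by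
  have h2 := ha (v + w)
  simp only [map_add, LinearMap.add_apply, ha, h] at h2
  simpa using h2

section split

variable {F V : Type} [Field F] [AddCommGroup V] [Module F V] (ω : V →ₗ[F] V →ₗ[F] F)

theorem cons_SB (ha : ∀ v, ω v v = 0) {n : ℕ} {p : V × V} (hp : ω p.1 p.2 = 1)
    {b : Fin n → orth ω p × orth ω p} (hb : IsSB (restr ω (orth ω p)) b) :
    IsSB ω (Fin.cons p (fun i => (((b i).1 : V), ((b i).2 : V))) : Fin (n + 1) → V × V) := by
  obtain ⟨h1, h2, h3⟩ := hb
  have hb1 := fun i => (mem_orth ω).1 (b i).1.2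
  have hb2 := fun i => (mem_orth ω).1 (b i).2.2
  refine ⟨?_, ?_, ?_⟩
  · simp only [Fin.forall_fin_succ, Fin.cons_zero, Fin.cons_succ]
    exact ⟨⟨ha _, fun j => (hb1 j).1⟩, fun i => ⟨alt_zero ha (hb1 i).1, fun j => h1 i j⟩⟩
  · simp only [Fin.forall_fin_succ, Fin.cons_zero, Fin.cons_succ]
    exact ⟨⟨ha _, fun j => (hb2 j).2⟩, fun i => ⟨alt_zero ha (hb2 i).2, fun j => h2 i j⟩⟩
  · simp only [Fin.forall_fin_succ, Fin.cons_zero, Fin.cons_succ, if_true, Fin.succ_ne_zero,
      if_false, Fin.succ_inj, (Fin.succ_ne_zero _).symm]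
    exact ⟨⟨hp, fun j => (hb2 j).1⟩, fun i => ⟨alt_zero ha (hb1 i).2, fun j => h3 i j⟩⟩

theorem tail_mem (ha : ∀ v, ω v v = 0) {n : ℕ} {b : Fin (n + 1) → V × V} (hb : IsSB ω b) (i : Fin n) :
    (b i.succ).1 ∈ orth ω (b 0) ∧ (b i.succ).2 ∈ orth ω (b 0) := by
  obtain ⟨h1, h2, h3⟩ := hb
  refine ⟨(mem_orth ω).2 ⟨h1 _ _, alt_zero ha ?_⟩, (mem_orth ω).2 ⟨?_, h2 _ _⟩⟩
  · rw [h3, if_neg (Fin.succ_ne_zero i)]
  · rw [h3, if_neg (Fin.succ_ne_zero i).symm]

theorem head_SB {n : ℕ} {b : Fin (n + 1) → V × V} (hb : IsSB ω b) : ω (b 0).1 (b 0).2 = 1 := by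
  rw [hb.2.2, if_pos rfl]

theorem tail_SB (ha : ∀ v, ω v v = 0) {n : ℕ} {b : Fin (n + 1) → V × V} (hb : IsSB ω b) :
    IsSB (restr ω (orth ω (b 0))) (fun i : Fin n =>
      ((⟨(b i.succ).1, (tail_mem ω ha hb i).1⟩ : orth ω (b 0)),
        (⟨(b i.succ).2, (tail_mem ω ha hb i).2⟩ : orth ω (b 0)))) := by
  refine ⟨fun i j => hb.1 _ _, fun i j => hb.2.1 _ _, fun i j => ?_⟩
  have h := hb.2.2 i.succ j.succ
  simp only [Fin.succ_inj] at h
  exact h

/-- splitting off the first hyperbolic pair -/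
def splitEquiv (ha : ∀ v, ω v v = 0) (n : ℕ) :
    {b : Fin (n + 1) → V × V // IsSB ω b} ≃
      Σ p : {p : V × V // ω p.1 p.2 = 1},
        {b : Fin n → orth ω p.1 × orth ω p.1 // IsSB (restr ω (orth ω p.1)) b} where
  toFun b := ⟨⟨b.1 0, head_SB ω b.2⟩, ⟨_, tail_SB ω ha b.2⟩⟩
  invFun s := ⟨_, cons_SB ω ha s.1.2 s.2.2⟩
  left_inv b := by
    apply Subtype.ext
    funext i
    refine Fin.cases ?_ (fun i => ?_) i
    · rfl
    · rfl
  right_inv s := rfl

end split

theorem card_SB (F : Type) [Field F] [Finite F] (n : ℕ) : ∀ (V : Type) [AddCommGroup V] [Module F V]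
    [Finite V] (ω : V →ₗ[F] V →ₗ[F] F), (∀ v, ω v v = 0) → (∀ v, (∀ w, ω v w = 0) → v = 0) →
    finrank F V = 2 * n → Nat.card {b : Fin n → V × V // IsSB ω b} =
      ∏ i ∈ Finset.range n, ((Nat.card F ^ (2 * i + 2) - 1) * Nat.card F ^ (2 * i + 1)) := by
  induction n with
  | zero =>
    intro V _ _ _ ω ha hnd hdim
    have : Unique {b : Fin 0 → V × V // IsSB ω b} :=
      { default := ⟨fun i => i.elim0, fun i => i.elim0, fun i => i.elim0, fun i => i.elim0⟩
        uniq := fun b => Subtype.ext (funext fun i => i.elim0) }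
    simp
  | succ n ih =>
    intro V _ _ _ ω ha hnd hdim
    rw [Nat.card_congr (splitEquiv ω ha n)]
    have := Fintype.ofFinite {p : V × V // ω p.1 p.2 = 1}
    rw [Nat.card_sigma]
    have hfib : ∀ p : {p : V × V // ω p.1 p.2 = 1},
        Nat.card {b : Fin n → orth ω p.1 × orth ω p.1 // IsSB (restr ω (orth ω p.1)) b} =
          ∏ i ∈ Finset.range n, ((Nat.card F ^ (2 * i + 2) - 1) * Nat.card F ^ (2 * i + 1)) :=
      fun p => ih (orth ω p.1) (restr ω (orth ω p.1)) (fun v => ha v.1)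
        (restr_nondeg ω ha hnd p.2) (finrank_orth ω ha hdim p.2)
    simp only [hfib, Finset.sum_const, smul_eq_mul, Finset.card_univ]
    rw [← Nat.card_eq_fintype_card, card_pairs ω hnd (m := 2 * n + 1) (by rw [hdim]; ring),
      Finset.prod_range_succ, mul_comm]

end Pool.Agent.H373SQ
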