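import Mathlib
import Pool.Agent.H373SQ.SympCount

set_option autoImplicit false

namespace Pool.Agent.H373SQ

open Matrix Module

/-- the standard symplectic form, with matrix `J` -/
noncomputable def stdForm (n : ℕ) (F : Type) [Field F] :
    (Fin n ⊕ Fin n → F) →ₗ[F] (Fin n ⊕ Fin n → F) →ₗ[F] F :=
  Matrix.toLinearMap₂' F (J (Fin n) F)

theorem stdForm_apply (n : ℕ) (F : Type) [Field F] (v w : Fin n ⊕ Fin n → F) :
    stdForm n F v w = ∑ i, (v (Sum.inr i) * w (Sum.inl i) - v (Sum.inl i) * w (Sum.inr i)) := by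
  rw [stdForm, Matrix.toLinearMap₂'_apply', J, Matrix.fromBlocks_mulVec]
  simp [dotProduct, Fintype.sum_sum_type, Finset.sum_sub_distrib, Matrix.neg_mulVec]
  ring_nf

theorem stdForm_alt (n : ℕ) (F : Type) [Field F] (v : Fin n ⊕ Fin n → F) : stdForm n F v v = 0 := by
  rw [stdForm_apply]
  exact Finset.sum_eq_zero fun i _ => by ring

theorem stdForm_nondeg (n : ℕ) (F : Type) [Field F] (v : Fin n ⊕ Fin n → F)
    (h : ∀ w, stdForm n F v w = 0) : v = 0 := by
  funext x
  rcases x with i | i
  · have h1 := h (Pi.single (Sum.inr i) 1)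
    rw [stdForm_apply] at h1
    simpa [Pi.single_apply] using h1
  · have h1 := h (Pi.single (Sum.inl i) 1)
    rw [stdForm_apply] at h1
    simpa [Pi.single_apply] using h1

theorem mem_sp_iff {n : ℕ} {F : Type} [Field F] {A : Matrix (Fin n ⊕ Fin n) (Fin n ⊕ Fin n) F} :
    A ∈ symplecticGroup (Fin n) F ↔ ∀ x y, stdForm n F (A x) (A y) = J (Fin n) F x y := by
  rw [SymplecticGroup.mem_iff, ← Matrix.ext_iff]
  refine forall_congr' fun x => forall_congr' fun y => ?_
  rw [Matrix.mul_mul_apply, Matrix.transpose_transpose, stdForm, Matrix.toLinearMap₂'_apply']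

theorem isSB_iff {n : ℕ} {F : Type} [Field F] (A : Matrix (Fin n ⊕ Fin n) (Fin n ⊕ Fin n) F) :
    IsSB (stdForm n F) (fun i => (A (Sum.inr i), A (Sum.inl i))) ↔ A ∈ symplecticGroup (Fin n) F := by
  rw [mem_sp_iff]
  constructor
  · rintro ⟨h1, h2, h3⟩ x y
    rcases x with i | i <;> rcases y with j | j
    · rw [J, fromBlocks_apply₁₁]; exact h2 i j
    · rw [J, fromBlocks_apply₁₂, alt_neg _ (stdForm_alt n F)]
      have := h3 j i
      simp only at this
      rw [this, Matrix.neg_apply, Matrix.one_apply]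
      simp only [eq_comm]
    · rw [J, fromBlocks_apply₂₁, Matrix.one_apply]; exact h3 i j
    · rw [J, fromBlocks_apply₂₂]; exact h1 i j
  · intro h
    refine ⟨fun i j => ?_, fun i j => ?_, fun i j => ?_⟩
    · rw [h, J, fromBlocks_apply₂₂]; rfl
    · rw [h, J, fromBlocks_apply₁₁]; rfl
    · rw [h, J, fromBlocks_apply₂₁, Matrix.one_apply]

/-- symplectic matrices are families of hyperbolic pairs -/
def spEquiv (n : ℕ) (F : Type) [Field F] :
    symplecticGroup (Fin n) F ≃
      {b : Fin n → (Fin n ⊕ Fin n → F) × (Fin n ⊕ Fin n → F) // IsSB (stdForm n F) b} where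
  toFun A := ⟨fun i => (A.1 (Sum.inr i), A.1 (Sum.inl i)), (isSB_iff A.1).2 A.2⟩
  invFun b := ⟨Matrix.of (Sum.elim (fun i => (b.1 i).2) (fun i => (b.1 i).1)), by
    rw [← isSB_iff]
    exact b.2⟩
  left_inv A := by
    apply Subtype.ext
    funext x
    rcases x with i | i <;> rfl
  right_inv b := rfl

theorem prod_sp (n q : ℕ) : ∏ i ∈ Finset.range n, ((q ^ (2 * i + 2) - 1) * q ^ (2 * i + 1)) = numBC n q := by
  induction n with
  | zero => simp [numBC]
  | succ n ih =>
    rw [Finset.prod_range_succ, ih, numBC, numBC, Finset.prod_Icc_succ_top (by omega)]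
    rw [show (n + 1) ^ 2 = n ^ 2 + (2 * n + 1) by ring, pow_add, show 2 * (n + 1) = 2 * n + 2 by ring]
    ring

theorem card_Sp (n : ℕ) (F : Type) [Field F] [Finite F] :
    Nat.card (symplecticGroup (Fin n) F) = numBC n (Nat.card F) := by
  rw [Nat.card_congr (spEquiv n F), card_SB F n _ (stdForm n F) (stdForm_alt n F) (stdForm_nondeg n F),
    prod_sp]
  rw [finrank_fintype_fun_eq_card, Fintype.card_sum, Fintype.card_fin]
  ring

/-- the matrix `-1` in `Sp(2n, F)` -/
def negOne (n : ℕ) (F : Type) [Field F] : symplecticGroup (Fin n) F :=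
  ⟨-1, SymplecticGroup.neg_mem (one_mem _)⟩

theorem negOne_sq (n : ℕ) (F : Type) [Field F] : negOne n F ^ 2 = 1 := by
  apply Subtype.ext
  rw [SubmonoidClass.coe_pow]
  simp [negOne]

theorem card_zpowers_negOne (n : ℕ) (hn : 1 ≤ n) (F : Type) [Field F] [Finite F] :
    Nat.card (Subgroup.zpowers (negOne n F)) = Nat.gcd 2 (Nat.card F - 1) := by
  have := Fintype.ofFinite F
  have hq : 1 < Nat.card F := Finite.one_lt_card
  rw [Nat.card_zpowers]
  by_cases hc : ringChar F = 2
  · have h1 : (-1 : F) = 1 := neg_one_eq_one_iff.2 hc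
    have h2 : negOne n F = 1 := by
      apply Subtype.ext
      change (-1 : Matrix _ _ F) = 1
      ext i j
      rw [Matrix.neg_apply, Matrix.one_apply]
      split_ifs
      · exact h1
      · simp
    have h3 := FiniteField.even_card_of_char_two hc
    rw [← Nat.card_eq_fintype_card] at h3
    rw [h2, orderOf_one]
    symm
    exact (Nat.coprime_two_left (n := Nat.card F - 1)).2 (by
      rw [Nat.odd_iff]; omega)
  · have h1 : (-1 : F) ≠ 1 := fun h => hc (neg_one_eq_one_iff.1 h)
    have h2 : negOne n F ≠ 1 := by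
      intro h
      have h4 : (-1 : Matrix (Fin n ⊕ Fin n) (Fin n ⊕ Fin n) F) = 1 := congrArg Subtype.val h
      have h5 := congrFun (congrFun h4 (Sum.inl ⟨0, hn⟩)) (Sum.inl ⟨0, hn⟩)
      rw [Matrix.neg_apply, Matrix.one_apply_eq] at h5
      exact h1 h5
    have h3 := FiniteField.odd_card_of_char_ne_two hc
    rw [← Nat.card_eq_fintype_card] at h3
    rw [orderOf_eq_prime (negOne_sq n F) h2]
    symm
    exact Nat.gcd_eq_left (by omega)

/-- the symplectic transvection with axis `u` -/
noncomputable def transv (n : ℕ) (F : Type) [Field F] (u : Fin n ⊕ Fin n → F) :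
    Matrix (Fin n ⊕ Fin n) (Fin n ⊕ Fin n) F := 1 + vecMulVec (J (Fin n) F *ᵥ u) u

theorem stdForm_single (n : ℕ) (F : Type) [Field F] (x : Fin n ⊕ Fin n) (u : Fin n ⊕ Fin n → F) :
    stdForm n F (Pi.single x 1) u = (J (Fin n) F *ᵥ u) x := by
  rw [stdForm, Matrix.toLinearMap₂'_apply', single_dotProduct, one_mul]

theorem stdForm_single_single (n : ℕ) (F : Type) [Field F] (x y : Fin n ⊕ Fin n) :
    stdForm n F (Pi.single x 1) (Pi.single y 1) = J (Fin n) F x y := by
  rw [stdForm_single, Matrix.mulVec_single_one]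
  rfl

theorem transv_row (n : ℕ) (F : Type) [Field F] (u : Fin n ⊕ Fin n → F) (x : Fin n ⊕ Fin n) :
    transv n F u x = Pi.single x 1 + (J (Fin n) F *ᵥ u) x • u := by
  funext y
  rw [transv, Matrix.add_apply, vecMulVec_apply, Matrix.one_apply, Pi.add_apply, Pi.smul_apply,
    smul_eq_mul, Pi.single_apply]
  simp only [eq_comm]

theorem transv_mem (n : ℕ) (F : Type) [Field F] (u : Fin n ⊕ Fin n → F) :
    transv n F u ∈ symplecticGroup (Fin n) F := by
  rw [mem_sp_iff]
  intro x y
  rw [transv_row, transv_row]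
  simp only [map_add, map_smul, LinearMap.add_apply, LinearMap.smul_apply, smul_eq_mul,
    stdForm_alt, stdForm_single_single]
  rw [alt_neg _ (stdForm_alt n F) u (Pi.single y 1), stdForm_single, stdForm_single]
  ring

theorem eigen_of_center {n : ℕ} {F : Type} [Field F] {A : symplecticGroup (Fin n) F}
    (hA : A ∈ Subgroup.center (symplecticGroup (Fin n) F)) (u : Fin n ⊕ Fin n → F) (hu : u ≠ 0) :
    ∃ c : F, u ᵥ* A.1 = c • u := by
  have h1 := Subgroup.mem_center_iff.1 hA ⟨transv n F u, transv_mem n F u⟩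
  have h2 : transv n F u * A.1 = A.1 * transv n F u := congrArg Subtype.val h1
  rw [transv, add_mul, mul_add, one_mul, mul_one, vecMulVec_mul, mul_vecMulVec] at h2
  have h3 := add_left_cancel h2
  obtain ⟨x, hx⟩ : ∃ x, (J (Fin n) F *ᵥ u) x ≠ 0 := by
    by_contra hcon
    push Not at hcon
    apply hu
    apply stdForm_nondeg n F u
    intro w
    rw [alt_neg _ (stdForm_alt n F), stdForm, Matrix.toLinearMap₂'_apply',
      show J (Fin n) F *ᵥ u = 0 from funext hcon, dotProduct_zero, neg_zero]
  refine ⟨((J (Fin n) F *ᵥ u) x)⁻¹ * (A.1 *ᵥ (J (Fin n) F *ᵥ u)) x, ?_⟩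
  funext y
  have h4 := congrFun (congrFun h3 x) y
  rw [vecMulVec_apply, vecMulVec_apply] at h4
  rw [Pi.smul_apply, smul_eq_mul, mul_assoc, ← h4, ← mul_assoc, inv_mul_cancel₀ hx, one_mul]

/-- the centre of `Sp(2n, F)` consists of `1` and `-1` -/
theorem center_sp (n : ℕ) (hn : 1 ≤ n) (F : Type) [Field F] :
    Subgroup.center (symplecticGroup (Fin n) F) = Subgroup.zpowers (negOne n F) := by
  apply le_antisymm
  · intro A hA
    have heig := eigen_of_center hA
    -- the rows of `A`
    have hrow : ∀ x, ∃ c : F, A.1 x = c • (Pi.single x 1 : Fin n ⊕ Fin n → F) := by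
      intro x
      obtain ⟨c, hc⟩ := heig (Pi.single x 1) (by
        intro h0
        have := congrFun h0 x
        simp at this)
      rw [single_one_vecMul] at hc
      exact ⟨c, hc⟩
    choose c hc using hrow
    have hcc : ∀ x y, c x = c y := by
      intro x y
      by_cases hxy : x = y
      · rw [hxy]
      obtain ⟨d, hd⟩ := heig (Pi.single x 1 + Pi.single y 1) (by
        intro h0
        have := congrFun h0 x
        rw [Pi.add_apply, Pi.single_eq_same, Pi.single_eq_of_ne hxy] at this
        simp at this)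
      rw [add_vecMul, single_one_vecMul, single_one_vecMul] at hd
      have hx := congrFun hd x
      have hy := congrFun hd y
      change (A.1 x + A.1 y) x = _ at hx
      change (A.1 x + A.1 y) y = _ at hy
      rw [hc x, hc y] at hx hy
      simp [Pi.single_eq_of_ne hxy, Pi.single_eq_of_ne (Ne.symm hxy)] at hx hy
      rw [hx, hy]
    set x0 : Fin n ⊕ Fin n := Sum.inl ⟨0, hn⟩ with hx0
    have hsq : c x0 * c x0 = 1 := by
      have h1 := mem_sp_iff.1 A.2 (Sum.inr ⟨0, hn⟩) (Sum.inl ⟨0, hn⟩)
      rw [hc, hc, map_smul, LinearMap.map_smul₂, stdForm_single_single, J,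
        fromBlocks_apply₂₁, Matrix.one_apply_eq, hcc (Sum.inr ⟨0, hn⟩) x0] at h1
      simpa using h1
    rcases mul_self_eq_one_iff.1 hsq with h1 | h1
    · have : A = 1 := by
        apply Subtype.ext
        funext x y
        rw [hc x, hcc x x0, h1, one_smul]
        change _ = (1 : Matrix _ _ F) x y
        rw [Matrix.one_apply, Pi.single_apply]
        simp only [eq_comm]
      rw [this]
      exact one_mem _
    · have : A = negOne n F := by
        apply Subtype.ext
        funext x y
        rw [hc x, hcc x x0, h1]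
        change _ = (-1 : Matrix _ _ F) x y
        rw [Matrix.neg_apply, Matrix.one_apply, Pi.smul_apply, Pi.single_apply, smul_eq_mul, neg_one_mul]
        simp only [eq_comm]
      rw [this]
      exact Subgroup.mem_zpowers _
  · rw [Subgroup.zpowers_le, Subgroup.mem_center_iff]
    intro g
    apply Subtype.ext
    change g.1 * (-1) = (-1) * g.1
    rw [mul_neg, neg_mul, mul_one, one_mul]

/-- `PSp(2n, F)` is the symplectic group modulo its centre -/
abbrev PSp (n : ℕ) (F : Type) [Field F] : Type :=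
  symplecticGroup (Fin n) F ⧸ Subgroup.center (symplecticGroup (Fin n) F)

theorem card_PSp (n : ℕ) (hn : 1 ≤ n) (F : Type) [Field F] [Finite F] :
    Nat.card (PSp n F) = ordBC n (Nat.card F) := by
  have h1 := Subgroup.card_eq_card_quotient_mul_card_subgroup
    (Subgroup.center (symplecticGroup (Fin n) F))
  have h2 : Nat.card (Subgroup.center (symplecticGroup (Fin n) F)) = Nat.gcd 2 (Nat.card F - 1) := by
    rw [center_sp n hn F, card_zpowers_negOne n hn F]
  rw [h2, card_Sp n F] at h1
  rw [ordBC, h1, Nat.mul_div_cancel]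
  exact Nat.gcd_pos_of_pos_left _ (by norm_num)

end Pool.Agent.H373SQ
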