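import Mathlib
import Pool.Agent.H373SQ.Big

set_option autoImplicit false

namespace Pool.Agent.H373SQ

theorem exists_prime_phi6 {q k : ℕ} (hq : 2 ≤ q) (hk : 1 ≤ k) :
    ∃ b l, b + q ^ (2 ^ k) = (q ^ (2 ^ k)) ^ 2 + 1 ∧ l.Prime ∧ l ≠ 2 ∧ l ≠ 3 ∧ b ≠ 0 ∧
      Odd (padicValNat l b) := by
  obtain ⟨j, rfl⟩ : ∃ j, k = j + 1 := ⟨k - 1, by omega⟩
  set S := q ^ (2 ^ j) with hS
  have hSR : q ^ (2 ^ (j + 1)) = S ^ 2 := by rw [hS, ← pow_mul, pow_succ]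
  set R := q ^ (2 ^ (j + 1)) with hR
  have hR2 : 2 ≤ R := by
    calc 2 ≤ q ^ 1 := by simpa using hq
      _ ≤ R := Nat.pow_le_pow_right (by omega) Nat.one_le_two_pow
  have hle : R ≤ R ^ 2 + 1 := by nlinarith
  refine ⟨R ^ 2 + 1 - R, ?_⟩
  set b := R ^ 2 + 1 - R with hb
  have hbR : b + R = R ^ 2 + 1 := by omega
  have hsq := not_sq_phi6 hR2 hbR
  have hb0 : b ≠ 0 := by rintro h0; rw [h0] at hsq; exact hsq (IsSquare.zero)
  obtain ⟨l, hl, hodd⟩ := exists_odd_val hb0 hsq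
  have hlb := dvd_of_odd hodd
  have hb2 : b % 2 = 1 := by
    rcases Nat.even_or_odd R with ⟨m, hm⟩ | ⟨m, hm⟩
    · have e : R ^ 2 = 2 * (2 * m ^ 2) := by rw [hm]; ring
      omega
    · have e : R ^ 2 = 2 * (2 * m ^ 2 + 2 * m) + 1 := by rw [hm]; ring
      omega
  have hb3 : b % 3 = 1 := by
    rcases sq_mod_three S with h | h
    · obtain ⟨m, hm⟩ : ∃ m, R = 3 * m := ⟨R / 3, by omega⟩
      have e : R ^ 2 = 3 * (3 * m ^ 2) := by rw [hm]; ring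
      omega
    · obtain ⟨m, hm⟩ : ∃ m, R = 3 * m + 1 := ⟨R / 3, by omega⟩
      have e : R ^ 2 = 3 * (3 * m ^ 2 + 2 * m) + 1 := by rw [hm]; ring
      omega
  refine ⟨l, hbR, hl, ?_, ?_, hb0, hodd⟩
  · rintro rfl; omega
  · rintro rfl; omega

theorem phi6_prod {q k b : ℕ} (hq : 1 ≤ q) (hb : b + q ^ (2 ^ k) = (q ^ (2 ^ k)) ^ 2 + 1) :
    q ^ (2 * (3 * 2 ^ k)) - 1 = (q ^ (3 * 2 ^ k) - 1) * ((q ^ (2 ^ k) + 1) * b) := by
  have hR3 : q ^ (3 * 2 ^ k) = (q ^ (2 ^ k)) ^ 3 := by rw [← pow_mul]; congr 1; ring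
  have hR6 : q ^ (2 * (3 * 2 ^ k)) = (q ^ (3 * 2 ^ k)) ^ 2 := by rw [← pow_mul]; congr 1; ring
  have h1 : 1 ≤ q ^ (3 * 2 ^ k) := Nat.one_le_pow _ _ hq
  rw [hR6]
  rw [hR3] at h1 ⊢
  set R := q ^ (2 ^ k)
  have e1 : (R + 1) * b + (R + 1) * R = (R + 1) * (R ^ 2 + 1) := by rw [← mul_add, hb]
  have e2 : (R + 1) * (R ^ 2 + 1) = (R ^ 3 + 1) + (R + 1) * R := by ring
  have e3 : (R + 1) * b = R ^ 3 + 1 := by omega
  rw [e3]
  obtain ⟨u, hu⟩ : ∃ u, R ^ 3 = u + 1 := ⟨R ^ 3 - 1, by omega⟩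
  rw [hu]
  simp only [Nat.add_sub_cancel]
  have : (u + 1) ^ 2 = u * (u + 1 + 1) + 1 := by ring
  omega

theorem not_dvd_q' {q l k b : ℕ} (hl : l.Prime) (hb : b + q ^ (2 ^ k) = (q ^ (2 ^ k)) ^ 2 + 1)
    (h : l ∣ b) : ¬ l ∣ q := by
  intro h1
  have h2 : l ∣ q ^ (2 ^ k) := dvd_pow h1 (by positivity)
  have h3 : l ∣ (q ^ (2 ^ k)) ^ 2 + 1 := hb ▸ dvd_add h h2
  have h4 : l ∣ 1 := (Nat.dvd_add_right (dvd_pow h2 (by norm_num))).1 h3
  exact hl.one_lt.ne' (Nat.dvd_one.1 h4)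

theorem three_not_dvd {m i : ℕ} (h : 3 * m ∣ 2 ^ i) : False := by
  have h3 : 3 ∣ 2 ^ i := (Dvd.intro m rfl).trans h
  have := Nat.prime_three.dvd_of_dvd_pow h3
  omega

/-- `PΩ⁺(2n, q)`, `n = 2^j ≥ 8` -/
theorem d_pow {q k : ℕ} (hq : 2 ≤ q) (hk : 1 ≤ k) : ¬ IsSquare (ordD (2 ^ (k + 2)) q) := by
  obtain ⟨b, l, hb, hl, hl2, hl3, hb0, hodd⟩ := exists_prime_phi6 hq hk
  have hdiv := dvd_of_odd hodd
  have ho := order_three_two_pow hl hl2 hl3 hb hdiv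
  set n := 2 ^ (k + 2) with hn
  have hn4 : n = 4 * 2 ^ k := by rw [hn]; ring
  have hp : 0 < 2 ^ k := by positivity
  have hmem : 3 * 2 ^ k ∈ Finset.Icc 1 (n - 1) := by
    rw [Finset.mem_Icc]; omega
  have hdvd : Nat.gcd 4 (q ^ n - 1) ∣ numD n q := by
    apply Dvd.dvd.mul_left
    exact (Nat.gcd_dvd_right _ _).trans (Dvd.intro _ rfl)
  refine key (c := 1) (g := Nat.gcd 4 (q ^ n - 1)) (a := b)
    (b := q ^ (n * (n - 1)) * ((q ^ n - 1) * ((q ^ (3 * 2 ^ k) - 1) * ((q ^ (2 ^ k) + 1) *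
      ∏ i ∈ (Finset.Icc 1 (n - 1)).erase (3 * 2 ^ k), (q ^ (2 * i) - 1))))) hl ?_ one_ne_zero hb0
      hodd ?_ (not_dvd_gcd_four hl hl2)
  · rw [ordD, Nat.div_mul_cancel hdvd, numD,
      ← Finset.mul_prod_erase (Finset.Icc 1 (n - 1)) (fun i => q ^ (2 * i) - 1) hmem]
    simp only [phi6_prod (show 1 ≤ q by omega) hb]
    ring
  · intro h
    rcases (Nat.Prime.dvd_mul hl).1 h with h | h
    · exact not_dvd_q' hl hb hdiv (hl.dvd_of_dvd_pow h)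
    rcases (Nat.Prime.dvd_mul hl).1 h with h | h
    · rw [dvd_sub_one_iff (by omega), ho] at h
      exact three_not_dvd h
    rcases (Nat.Prime.dvd_mul hl).1 h with h | h
    · rw [dvd_sub_one_iff (by omega), ho] at h
      have := Nat.le_of_dvd (by positivity) h
      rw [pow_succ] at this
      omega
    rcases (Nat.Prime.dvd_mul hl).1 h with h | h
    · have h1 := (ho _).1 (add_one_imp h)
      have e : 2 * 2 ^ k = 2 ^ (k + 1) := by ring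
      rw [e] at h1
      exact three_not_dvd h1
    · obtain ⟨i, hi, h⟩ := (Prime.dvd_finsetProd_iff hl.prime _).1 h
      rw [Finset.mem_erase, Finset.mem_Icc] at hi
      rw [dvd_sub_one_iff (by omega), ho] at h
      have h5 : 3 * 2 ^ k ∣ i := by
        have e : 3 * 2 ^ (k + 1) = 2 * (3 * 2 ^ k) := by ring
        rw [e] at h
        exact Nat.dvd_of_mul_dvd_mul_left (by norm_num) h
      exact hi.1 (mult_unique h5 (by omega) (by omega))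

/-- `PΩ⁻(8, q)` -/
theorem td_four {q : ℕ} (hq : 2 ≤ q) : ¬ IsSquare (ordTD 4 q) := by
  obtain ⟨l, hl, hl2, hodd⟩ := exists_prime_two_pow hq (le_refl 2)
  have hdiv := dvd_of_odd hodd
  have ho := order_two_pow hl hl2 hdiv
  have e4 : (2 : ℕ) ^ 2 = 4 := by norm_num
  have e8 : (2 : ℕ) ^ (2 + 1) = 8 := by norm_num
  rw [e4] at hodd
  rw [e8] at ho
  have hdvd : Nat.gcd 4 (q ^ 4 + 1) ∣ numTD 4 q := by
    apply Dvd.dvd.mul_left
    exact (Nat.gcd_dvd_right _ _).trans (Dvd.intro _ rfl)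
  refine key (c := 1) (g := Nat.gcd 4 (q ^ 4 + 1)) (a := q ^ 4 + 1)
    (b := q ^ (4 * (4 - 1)) * (∏ i ∈ (Finset.Icc 1 (4 - 1)), (q ^ (2 * i) - 1))) hl ?_ one_ne_zero
      (by omega) hodd ?_ (not_dvd_gcd_four hl hl2)
  · rw [ordTD, Nat.div_mul_cancel hdvd, numTD]
    ring
  · intro h
    rcases (Nat.Prime.dvd_mul hl).1 h with h | h
    · exact not_dvd_q hl hdiv (hl.dvd_of_dvd_pow h)
    · obtain ⟨i, hi, h⟩ := (Prime.dvd_finsetProd_iff hl.prime _).1 h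
      rw [Finset.mem_Icc] at hi
      rw [dvd_sub_one_iff (by omega), ho] at h
      omega

theorem e6 {q : ℕ} (hq : 2 ≤ q) : ¬ IsSquare (ordE6 q) := by
  obtain ⟨l, hl, hl2, hodd⟩ := exists_prime_two_pow hq (le_refl 2)
  have hdiv := dvd_of_odd hodd
  have ho := order_two_pow hl hl2 hdiv
  have e4 : (2 : ℕ) ^ 2 = 4 := by norm_num
  have e8 : (2 : ℕ) ^ (2 + 1) = 8 := by norm_num
  have es := sub_mul_add (q := q) (k := 2) (by omega)
  rw [e4] at hodd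
  rw [e8] at ho
  rw [e8, e4] at es
  have hg1 : Nat.gcd 3 (q - 1) ∣ q - 1 := Nat.gcd_dvd_right _ _
  have hd2 : q - 1 ∣ q ^ 2 - 1 := by simpa using Nat.sub_dvd_pow_sub_pow q 1 2
  refine key (c := 1) (g := Nat.gcd 3 (q - 1)) (a := q ^ 4 + 1)
    (b := q ^ 36 * ((q ^ 12 - 1) * ((q ^ 9 - 1) * ((q ^ 4 - 1) * ((q ^ 6 - 1) * ((q ^ 5 - 1) *
      (q ^ 2 - 1))))))) hl ?_ one_ne_zero (by omega) hodd ?_ ?_
  · rw [ordE6, Nat.div_mul_cancel ((hg1.trans hd2).mul_left _), es]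
    ring
  · intro h
    rcases (Nat.Prime.dvd_mul hl).1 h with h | h
    · exact not_dvd_q hl hdiv (hl.dvd_of_dvd_pow h)
    simp only [Nat.Prime.dvd_mul hl, dvd_sub_one_iff (show 1 ≤ q by omega), ho] at h
    omega
  · intro h
    have h1 : l ∣ q ^ 1 - 1 := by rw [pow_one]; exact h.trans hg1
    rw [dvd_sub_one_iff (by omega), ho] at h1
    omega

theorem te6 {q : ℕ} (hq : 2 ≤ q) : ¬ IsSquare (ordTE6 q) := by
  obtain ⟨l, hl, hl2, hodd⟩ := exists_prime_two_pow hq (le_refl 2)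
  have hdiv := dvd_of_odd hodd
  have ho := order_two_pow hl hl2 hdiv
  have e4 : (2 : ℕ) ^ 2 = 4 := by norm_num
  have e8 : (2 : ℕ) ^ (2 + 1) = 8 := by norm_num
  have es := sub_mul_add (q := q) (k := 2) (by omega)
  rw [e4] at hodd
  rw [e8] at ho
  rw [e8, e4] at es
  have hg1 : Nat.gcd 3 (q + 1) ∣ q + 1 := Nat.gcd_dvd_right _ _
  have hd2 : q + 1 ∣ q ^ 2 - 1 := ⟨q - 1, by simpa using Nat.sq_sub_sq q 1⟩
  refine key (c := 1) (g := Nat.gcd 3 (q + 1)) (a := q ^ 4 + 1)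
    (b := q ^ 36 * ((q ^ 12 - 1) * ((q ^ 9 + 1) * ((q ^ 4 - 1) * ((q ^ 6 - 1) * ((q ^ 5 + 1) *
      (q ^ 2 - 1))))))) hl ?_ one_ne_zero (by omega) hodd ?_ ?_
  · rw [ordTE6, Nat.div_mul_cancel ((hg1.trans hd2).mul_left _), es]
    ring
  · intro h
    rcases (Nat.Prime.dvd_mul hl).1 h with h | h
    · exact not_dvd_q hl hdiv (hl.dvd_of_dvd_pow h)
    have h9 : ¬ l ∣ q ^ 9 + 1 := fun h => by have := (ho _).1 (add_one_imp h); omega
    have h5 : ¬ l ∣ q ^ 5 + 1 := fun h => by have := (ho _).1 (add_one_imp h); omega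
    simp only [Nat.Prime.dvd_mul hl, dvd_sub_one_iff (show 1 ≤ q by omega), ho, h9, h5, false_or, or_false] at h
    omega
  · intro h
    have h1 : l ∣ q ^ 1 + 1 := by rw [pow_one]; exact h.trans hg1
    have := (ho _).1 (add_one_imp h1)
    omega

theorem e7 {q : ℕ} (hq : 2 ≤ q) : ¬ IsSquare (ordE7 q) := by
  obtain ⟨l, hl, hl2, hodd⟩ := exists_prime_two_pow hq (le_refl 2)
  have hdiv := dvd_of_odd hodd
  have ho := order_two_pow hl hl2 hdiv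
  have e4 : (2 : ℕ) ^ 2 = 4 := by norm_num
  have e8 : (2 : ℕ) ^ (2 + 1) = 8 := by norm_num
  have es := sub_mul_add (q := q) (k := 2) (by omega)
  rw [e4] at hodd
  rw [e8] at ho
  rw [e8, e4] at es
  have hg1 : Nat.gcd 2 (q - 1) ∣ q - 1 := Nat.gcd_dvd_right _ _
  have hd2 : q - 1 ∣ q ^ 2 - 1 := by simpa using Nat.sub_dvd_pow_sub_pow q 1 2
  refine key (c := 1) (g := Nat.gcd 2 (q - 1)) (a := q ^ 4 + 1)
    (b := q ^ 63 * ((q ^ 18 - 1) * ((q ^ 14 - 1) * ((q ^ 12 - 1) * ((q ^ 10 - 1) * ((q ^ 4 - 1) *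
      ((q ^ 6 - 1) * (q ^ 2 - 1)))))))) hl ?_ one_ne_zero (by omega) hodd ?_ ?_
  · rw [ordE7, Nat.div_mul_cancel ((hg1.trans hd2).mul_left _), es]
    ring
  · intro h
    rcases (Nat.Prime.dvd_mul hl).1 h with h | h
    · exact not_dvd_q hl hdiv (hl.dvd_of_dvd_pow h)
    simp only [Nat.Prime.dvd_mul hl, dvd_sub_one_iff (show 1 ≤ q by omega), ho] at h
    omega
  · intro h
    have h1 : l ∣ q ^ 1 - 1 := by rw [pow_one]; exact h.trans hg1
    rw [dvd_sub_one_iff (by omega), ho] at h1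
    omega

theorem e8 {q : ℕ} (hq : 2 ≤ q) : ¬ IsSquare (ordE8 q) := by
  obtain ⟨b, l, hb, hl, hl2, hl3, hb0, hodd⟩ := exists_prime_phi6 (k := 2) hq (by norm_num)
  have hdiv := dvd_of_odd hodd
  have ho := order_three_two_pow hl hl2 hl3 hb hdiv
  have es := phi6_prod (k := 2) (show 1 ≤ q by omega) hb
  have e4 : (2 : ℕ) ^ 2 = 4 := by norm_num
  have e8 : 3 * (2 : ℕ) ^ (2 + 1) = 24 := by norm_num
  have e12 : 3 * 4 = 12 := by norm_num
  have e24 : 2 * 12 = 24 := by norm_num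
  rw [e8] at ho
  rw [e4, e12, e24] at es
  refine key (c := 1) (g := 1) (a := b)
    (b := q ^ 120 * ((q ^ 30 - 1) * ((q ^ 12 - 1) * ((q ^ 4 + 1) * ((q ^ 20 - 1) * ((q ^ 18 - 1) *
      ((q ^ 14 - 1) * ((q ^ 12 - 1) * ((q ^ 8 - 1) * (q ^ 2 - 1)))))))))) hl ?_ one_ne_zero hb0
      hodd ?_ (fun h => hl.one_lt.ne' (Nat.dvd_one.1 h))
  · rw [ordE8, es]
    ring
  · intro h
    rcases (Nat.Prime.dvd_mul hl).1 h with h | h
    · exact not_dvd_q' hl hb hdiv (hl.dvd_of_dvd_pow h)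
    have h4 : ¬ l ∣ q ^ 4 + 1 := fun h => by have := (ho _).1 (add_one_imp h); omega
    simp only [Nat.Prime.dvd_mul hl, dvd_sub_one_iff (show 1 ≤ q by omega), ho, h4, false_or, or_false] at h
    omega

theorem coprime_sub_one {q i : ℕ} (hq : 1 ≤ q) (hi : i ≠ 0) : Nat.Coprime q (q ^ i - 1) := by
  have h1 : 1 ≤ q ^ i := Nat.one_le_pow _ _ hq
  have h2 : Nat.Coprime (q ^ i) (q ^ i - 1) := by
    obtain ⟨u, hu⟩ : ∃ u, q ^ i = u + 1 := ⟨q ^ i - 1, by omega⟩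
    rw [hu]; simp
  exact Nat.Coprime.coprime_dvd_left (dvd_pow_self q hi) h2

theorem coprime_add_one {q i : ℕ} (hi : i ≠ 0) : Nat.Coprime q (q ^ i + 1) := by
  have h2 : Nat.Coprime (q ^ i) (q ^ i + 1) := by simp
  exact Nat.Coprime.coprime_dvd_left (dvd_pow_self q hi) h2

theorem sub_one_ne_zero {q i : ℕ} (hq : 2 ≤ q) (hi : i ≠ 0) : q ^ i - 1 ≠ 0 := by
  have : q ^ 1 ≤ q ^ i := Nat.pow_le_pow_right (by omega) (by omega)
  rw [pow_one] at this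
  omega

/-- a square order of `PSL(n, q)` with `n (n - 1) / 2` odd: `q` is a square -/
theorem psl_q_sq {n q : ℕ} (hn : 2 ≤ n) (he : Odd (n * (n - 1) / 2)) (hq : IsPrimePow q)
    (h : IsSquare (ordPSL n q)) : ∃ s, 2 ≤ s ∧ q = s ^ 2 := by
  have hq2 : 2 ≤ q := hq.two_le
  have hg1 : Nat.gcd n (q - 1) ∣ q - 1 := Nat.gcd_dvd_right _ _
  have hdvd : Nat.gcd n (q - 1) ∣ numPSL n q := by
    apply Dvd.dvd.mul_left
    apply Dvd.dvd.trans _ (Finset.dvd_prod_of_mem (fun i => q ^ i - 1) (show 2 ∈ Finset.Icc 2 n by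
      rw [Finset.mem_Icc]; omega))
    exact hg1.trans (by simpa using Nat.sub_dvd_pow_sub_pow q 1 2)
  refine sq_of_odd_exp (g := Nat.gcd n (q - 1)) (b := ∏ i ∈ Finset.Icc 2 n, (q ^ i - 1)) hq he
    ?_ ?_ ?_ ?_ h
  · rw [ordPSL, Nat.div_mul_cancel hdvd, numPSL]
  · refine Nat.Coprime.prod_right fun i hi => coprime_sub_one (by omega) ?_
    rw [Finset.mem_Icc] at hi; omega
  · refine Nat.Coprime.coprime_dvd_right hg1 ?_
    simpa using coprime_sub_one (q := q) (i := 1) (by omega) one_ne_zero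
  · refine Finset.prod_ne_zero_iff.2 fun i hi => sub_one_ne_zero hq2 ?_
    rw [Finset.mem_Icc] at hi; omega

theorem psu_q_sq {n q : ℕ} (hn : 2 ≤ n) (he : Odd (n * (n - 1) / 2)) (hq : IsPrimePow q)
    (h : IsSquare (ordPSU n q)) : ∃ s, 2 ≤ s ∧ q = s ^ 2 := by
  have hq2 : 2 ≤ q := hq.two_le
  have hg1 : Nat.gcd n (q + 1) ∣ q + 1 := Nat.gcd_dvd_right _ _
  have hdvd : Nat.gcd n (q + 1) ∣ numPSU n q := by
    apply Dvd.dvd.mul_left
    apply Dvd.dvd.trans _ (Finset.dvd_prod_of_mem (fun i => if Even i then q ^ i - 1 else q ^ i + 1)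
      (show 2 ∈ Finset.Icc 2 n by rw [Finset.mem_Icc]; omega))
    simp only [even_two, if_true]
    refine hg1.trans ⟨q - 1, ?_⟩
    have := Nat.sq_sub_sq q 1
    simpa using this
  refine sq_of_odd_exp (g := Nat.gcd n (q + 1))
    (b := ∏ i ∈ Finset.Icc 2 n, (if Even i then q ^ i - 1 else q ^ i + 1)) hq he ?_ ?_ ?_ ?_ h
  · rw [ordPSU, Nat.div_mul_cancel hdvd, numPSU]
  · refine Nat.Coprime.prod_right fun i hi => ?_
    rw [Finset.mem_Icc] at hi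
    split_ifs
    · exact coprime_sub_one (by omega) (by omega)
    · exact coprime_add_one (by omega)
  · refine Nat.Coprime.coprime_dvd_right hg1 ?_
    simpa using coprime_add_one (q := q) (i := 1) one_ne_zero
  · refine Finset.prod_ne_zero_iff.2 fun i hi => ?_
    rw [Finset.mem_Icc] at hi
    split_ifs
    · exact sub_one_ne_zero hq2 (by omega)
    · omega

theorem bc_q_sq {n q : ℕ} (hn : 1 ≤ n) (he : Odd (n ^ 2)) (hq : IsPrimePow q)
    (h : IsSquare (ordBC n q)) : ∃ s, 2 ≤ s ∧ q = s ^ 2 := by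
  have hq2 : 2 ≤ q := hq.two_le
  have hg1 : Nat.gcd 2 (q - 1) ∣ q - 1 := Nat.gcd_dvd_right _ _
  have hdvd : Nat.gcd 2 (q - 1) ∣ numBC n q := by
    apply Dvd.dvd.mul_left
    apply Dvd.dvd.trans _ (Finset.dvd_prod_of_mem (fun i => q ^ (2 * i) - 1)
      (show 1 ∈ Finset.Icc 1 n by rw [Finset.mem_Icc]; omega))
    exact hg1.trans (by simpa using Nat.sub_dvd_pow_sub_pow q 1 2)
  refine sq_of_odd_exp (g := Nat.gcd 2 (q - 1)) (b := ∏ i ∈ Finset.Icc 1 n, (q ^ (2 * i) - 1)) hq he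
    ?_ ?_ ?_ ?_ h
  · rw [ordBC, Nat.div_mul_cancel hdvd, numBC]
  · refine Nat.Coprime.prod_right fun i hi => coprime_sub_one (by omega) ?_
    rw [Finset.mem_Icc] at hi; omega
  · refine Nat.Coprime.coprime_dvd_right hg1 ?_
    simpa using coprime_sub_one (q := q) (i := 1) (by omega) one_ne_zero
  · refine Finset.prod_ne_zero_iff.2 fun i hi => sub_one_ne_zero hq2 ?_
    rw [Finset.mem_Icc] at hi; omega

theorem psl_67 {n q : ℕ} (hn : n = 6 ∨ n = 7) (hq : IsPrimePow q) : ¬ IsSquare (ordPSL n q) := by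
  intro h
  obtain ⟨s, hs, rfl⟩ := psl_q_sq (by omega) (by rcases hn with rfl | rfl <;> decide) hq h
  obtain ⟨l, hl, hl2, hodd⟩ := exists_prime_sq hs
  exact psl_core (j := 1) (by nlinarith) (by omega) (by omega) hl hl2 hodd h

theorem psu_67 {n q : ℕ} (hn : n = 6 ∨ n = 7) (hq : IsPrimePow q) : ¬ IsSquare (ordPSU n q) := by
  intro h
  obtain ⟨s, hs, rfl⟩ := psu_q_sq (by omega) (by rcases hn with rfl | rfl <;> decide) hq h
  obtain ⟨l, hl, hl2, hodd⟩ := exists_prime_sq hs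
  exact psu_core (j := 1) (by nlinarith) le_rfl (by omega) (by omega) hl hl2 hodd h

theorem bc_3 {q : ℕ} (hq : IsPrimePow q) : ¬ IsSquare (ordBC 3 q) := by
  intro h
  obtain ⟨s, hs, rfl⟩ := bc_q_sq (by omega) (by decide) hq h
  obtain ⟨l, hl, hl2, hodd⟩ := exists_prime_sq hs
  exact bc_core (j := 1) (by nlinarith) (by omega) (by omega) hl hl2 hodd h

end Pool.Agent.H373SQ
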