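import Mathlib
import Pool.Agent.H373SQ.Mid

set_option autoImplicit false

namespace Pool.Agent.H373SQ

theorem key2 {N g c a b : ℕ} (h : N * g = c ^ 2 * (a * b)) (hc : c ≠ 0) (ha : ¬ IsSquare a)
    (hab : Nat.Coprime a b) (hag : Nat.Coprime a g) : ¬ IsSquare N := by
  have ha0 : a ≠ 0 := by rintro rfl; exact ha IsSquare.zero
  obtain ⟨l, hl, hodd⟩ := exists_odd_val ha0 ha
  have hla := dvd_of_odd hodd
  refine key hl h hc ha0 hodd ?_ ?_
  · intro h1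
    exact hl.one_lt.ne' (Nat.eq_one_of_dvd_coprimes hab hla h1)
  · intro h1
    exact hl.one_lt.ne' (Nat.eq_one_of_dvd_coprimes hag hla h1)

theorem sq_of_mul {C x t : ℕ} (hC : C ≠ 0) (h : C ^ 2 * x = t ^ 2) : IsSquare x := by
  have h1 : C ^ 2 ∣ t ^ 2 := ⟨x, h.symm⟩
  obtain ⟨r, rfl⟩ := (Nat.pow_dvd_pow_iff (by norm_num)).1 h1
  refine ⟨r, ?_⟩
  have h2 : C ^ 2 * x = C ^ 2 * (r * r) := by rw [h]; ring
  exact Nat.eq_of_mul_eq_mul_left (by positivity) h2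

theorem two_sq_of {C x t : ℕ} (hC : C ≠ 0) (h : C ^ 2 * x = 2 * t ^ 2) : ∃ b, x = 2 * b ^ 2 := by
  have h1 : C ^ 2 * (2 * x) = (2 * t) ^ 2 := by
    calc C ^ 2 * (2 * x) = 2 * (C ^ 2 * x) := by ring
      _ = (2 * t) ^ 2 := by rw [h]; ring
  obtain ⟨y, hy⟩ := sq_of_mul hC h1
  have h2 : 2 ∣ y * y := ⟨x, hy.symm⟩
  have h3 : 2 ∣ y := by
    rcases (Nat.Prime.dvd_mul Nat.prime_two).1 h2 with h | h <;> exact h
  obtain ⟨b, rfl⟩ := h3
  refine ⟨b, ?_⟩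
  have : 2 * x = 2 * (2 * b ^ 2) := by rw [hy]; ring
  omega

theorem pm2 (u : ℕ) : (u + 1) ^ 2 - 1 = u * (u + 2) := Nat.sub_eq_of_eq_add (by ring)
theorem pm3 (u : ℕ) : (u + 1) ^ 3 - 1 = u * (u ^ 2 + 3 * u + 3) := Nat.sub_eq_of_eq_add (by ring)
theorem pm4 (u : ℕ) : (u + 1) ^ 4 - 1 = u * (u + 2) * (u ^ 2 + 2 * u + 2) :=
  Nat.sub_eq_of_eq_add (by ring)
theorem pm5 (u : ℕ) : (u + 1) ^ 5 - 1 = u * (u ^ 4 + 5 * u ^ 3 + 10 * u ^ 2 + 10 * u + 5) :=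
  Nat.sub_eq_of_eq_add (by ring)
theorem pm6 (u : ℕ) : (u + 1) ^ 6 - 1 = u * (u + 2) * ((u + 1) ^ 4 + (u + 1) ^ 2 + 1) :=
  Nat.sub_eq_of_eq_add (by ring)
theorem pm8 (u : ℕ) : (u + 1) ^ 8 - 1 = u * (u + 2) * (u ^ 2 + 2 * u + 2) * ((u + 1) ^ 4 + 1) :=
  Nat.sub_eq_of_eq_add (by ring)
theorem pm12 (u : ℕ) : (u + 1) ^ 12 - 1 = u * (u + 2) * (u ^ 2 + 2 * u + 2) *
    (((u + 1) ^ 4 + (u + 1) ^ 2 + 1) * (u ^ 4 + 4 * u ^ 3 + 5 * u ^ 2 + 2 * u + 1)) :=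
  Nat.sub_eq_of_eq_add (by ring)

theorem icc22 : Finset.Icc 2 2 = {2} := by decide
theorem icc23 : Finset.Icc 2 3 = {2, 3} := by decide
theorem icc24 : Finset.Icc 2 4 = {2, 3, 4} := by decide
theorem icc25 : Finset.Icc 2 5 = {2, 3, 4, 5} := by decide
theorem icc12 : Finset.Icc 1 2 = {1, 2} := by decide
theorem icc13 : Finset.Icc 1 3 = {1, 2, 3} := by decide

theorem numPSL2 (u : ℕ) : numPSL 2 (u + 1) = (u + 1) * (u * (u + 2)) := by
  simp [numPSL, pm2]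

theorem numPSL3 (u : ℕ) : numPSL 3 (u + 1) = (u + 1) ^ 3 * (u * (u + 2) * (u * (u ^ 2 + 3 * u + 3))) := by
  simp [numPSL, icc23, pm2, pm3]

theorem numPSL4 (u : ℕ) : numPSL 4 (u + 1) = (u + 1) ^ 6 * (u * (u + 2) * (u * (u ^ 2 + 3 * u + 3) *
    (u * (u + 2) * (u ^ 2 + 2 * u + 2)))) := by
  simp [numPSL, icc24, pm2, pm3, pm4]

theorem numPSL5 (u : ℕ) : numPSL 5 (u + 1) = (u + 1) ^ 10 * (u * (u + 2) * (u * (u ^ 2 + 3 * u + 3) *
    (u * (u + 2) * (u ^ 2 + 2 * u + 2) * (u * (u ^ 4 + 5 * u ^ 3 + 10 * u ^ 2 + 10 * u + 5))))) := by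
  simp [numPSL, icc25, pm2, pm3, pm4, pm5]

theorem pp3 (u : ℕ) : (u + 1) ^ 3 + 1 = (u + 2) * (u ^ 2 + u + 1) := by ring
theorem pp5 (u : ℕ) : (u + 1) ^ 5 + 1 = (u + 2) * (u ^ 4 + 3 * u ^ 3 + 4 * u ^ 2 + 2 * u + 1) := by ring

theorem even4 : Even 4 := by decide
theorem neven3 : ¬ Even 3 := by decide
theorem neven5 : ¬ Even 5 := by decide

theorem numPSU3 (u : ℕ) : numPSU 3 (u + 1) = (u + 1) ^ 3 * (u * (u + 2) * ((u + 2) * (u ^ 2 + u + 1))) := by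
  rw [numPSU, icc23, Finset.prod_insert (by decide), Finset.prod_singleton, if_pos (by decide),
    if_neg (by decide), pm2, pp3]

theorem numPSU4 (u : ℕ) : numPSU 4 (u + 1) = (u + 1) ^ 6 * (u * (u + 2) * ((u + 2) * (u ^ 2 + u + 1) *
    (u * (u + 2) * (u ^ 2 + 2 * u + 2)))) := by
  rw [numPSU, icc24, Finset.prod_insert (by decide), Finset.prod_insert (by decide),
    Finset.prod_singleton, if_pos (by decide), if_neg (by decide), if_pos (by decide), pm2, pp3, pm4]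

theorem numPSU5 (u : ℕ) : numPSU 5 (u + 1) = (u + 1) ^ 10 * (u * (u + 2) * ((u + 2) * (u ^ 2 + u + 1) *
    (u * (u + 2) * (u ^ 2 + 2 * u + 2) * ((u + 2) * (u ^ 4 + 3 * u ^ 3 + 4 * u ^ 2 + 2 * u + 1))))) := by
  rw [numPSU, icc25, Finset.prod_insert (by decide), Finset.prod_insert (by decide),
    Finset.prod_insert (by decide), Finset.prod_singleton, if_pos (by decide), if_neg (by decide),
    if_pos (by decide), if_neg (by decide), pm2, pp3, pm4, pp5]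

theorem numBC2 (u : ℕ) : numBC 2 (u + 1) = (u + 1) ^ 4 * (u * (u + 2) *
    (u * (u + 2) * (u ^ 2 + 2 * u + 2))) := by
  simp [numBC, icc12, pm2, pm4]

theorem numD4 (u : ℕ) : numD 4 (u + 1) = (u + 1) ^ 12 * (u * (u + 2) * (u ^ 2 + 2 * u + 2) *
    (u * (u + 2) * (u * (u + 2) * (u ^ 2 + 2 * u + 2) *
      (u * (u + 2) * ((u + 1) ^ 4 + (u + 1) ^ 2 + 1))))) := by
  simp [numD, icc13, pm2, pm4, pm6]

theorem cop_prime {a b : ℕ} (h : ∀ l, l.Prime → l ∣ a → l ∣ b → False) : Nat.Coprime a b := by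
  by_contra hg
  obtain ⟨l, hl, h1, h2⟩ := Nat.Prime.not_coprime_iff_dvd.1 hg
  exact h l hl h1 h2

theorem prime_dvd_one {l : ℕ} (hl : l.Prime) (h : l ∣ 1) : False :=
  hl.one_lt.ne' (Nat.dvd_one.1 h)

theorem prime_eq_of_dvd_two {l : ℕ} (hl : l.Prime) (h : l ∣ 2) : l = 2 :=
  (Nat.prime_dvd_prime_iff_eq hl Nat.prime_two).1 h

/-- `PSL(2, q)` -/
theorem psl2 {q : ℕ} (hq : IsPrimePow q) : ¬ IsSquare (ordPSL 2 q) := by
  intro h
  have hq2 : 2 ≤ q := hq.two_le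
  obtain ⟨s, hs, hqs⟩ := psl_q_sq (by norm_num) (by decide) hq h
  obtain ⟨u, rfl⟩ : ∃ u, q = u + 1 := ⟨q - 1, by omega⟩
  obtain ⟨v, hv⟩ : ∃ v, s = v + 1 := ⟨s - 1, by omega⟩
  have hsq : ¬ IsSquare u := not_sq_pred hs (by omega)
  have hdv : Nat.gcd 2 (u + 1 - 1) ∣ numPSL 2 (u + 1) := by
    rw [numPSL2]
    exact (Nat.gcd_dvd_right _ _).trans (by simp only [Nat.add_sub_cancel]; exact Dvd.intro_left _ (by ring : ((u + 1) * (u + 2)) * u = _))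
  have hN := Nat.div_mul_cancel hdv
  rw [← ordPSL, numPSL2] at hN
  simp only [Nat.add_sub_cancel] at hN
  rcases Nat.even_or_odd u with ⟨m, hm⟩ | ⟨m, hm⟩
  · -- u = 2m even, q odd
    have hg : Nat.gcd 2 u = 2 := Nat.gcd_eq_left ⟨m, by omega⟩
    rw [hg] at hN
    have hs1 : u + 2 = 2 * (m + 1) := by omega
    refine key2 (N := ordPSL 2 (u + 1)) (g := 1) (c := s) (a := u) (b := m + 1) ?_ (by omega) hsq ?_
      (Nat.coprime_one_right _) h
    · have : ordPSL 2 (u + 1) * 2 = (s ^ 2 * (u * (m + 1))) * 2 := by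
        rw [hN, hs1, ← hqs]; ring
      omega
    · refine cop_prime fun l hl h1 h2 => ?_
      have h3 : l ∣ 2 * m := by rw [← two_mul] at hm; exact hm ▸ h1
      have h4 : l ∣ 2 := by
        have : l ∣ 2 * m + 2 := by
          have := h2.mul_left 2
          rwa [show 2 * (m + 1) = 2 * m + 2 by ring] at this
        exact (Nat.dvd_add_right h3).1 this
      have h5 := prime_eq_of_dvd_two hl h4
      -- m + 1 is odd
      have h6 := sq_mod_8 s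
      rw [h5] at h2
      omega
  · have hg : Nat.gcd 2 u = 1 := by
      have := (Nat.coprime_two_left (n := u)).2 ⟨m, hm⟩
      exact this
    rw [hg] at hN
    refine key2 (N := ordPSL 2 (u + 1)) (g := 1) (c := s) (a := u) (b := u + 2) ?_ (by omega) hsq ?_
      (Nat.coprime_one_right _) h
    · rw [hN, ← hqs]
    · refine cop_prime fun l hl h1 h2 => ?_
      have h4 : l ∣ 2 := (Nat.dvd_add_right h1).1 h2
      have h5 := prime_eq_of_dvd_two hl h4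
      rw [h5] at h1
      omega

theorem psl3 {q : ℕ} (hq : IsPrimePow q) : ¬ IsSquare (ordPSL 3 q) := by
  intro h
  have hq2 : 2 ≤ q := hq.two_le
  obtain ⟨s, hs, hqs⟩ := psl_q_sq (by norm_num) (by decide) hq h
  obtain ⟨u, rfl⟩ : ∃ u, q = u + 1 := ⟨q - 1, by omega⟩
  have hdv : Nat.gcd 3 (u + 1 - 1) ∣ numPSL 3 (u + 1) := by
    rw [numPSL3]
    exact (Nat.gcd_dvd_right _ _).trans (by
      simp only [Nat.add_sub_cancel]
      exact Dvd.intro_left ((u + 1) ^ 3 * ((u + 2) * (u * (u ^ 2 + 3 * u + 3)))) (by ring))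
  have hN := Nat.div_mul_cancel hdv
  rw [← ordPSL, numPSL3] at hN
  simp only [Nat.add_sub_cancel] at hN
  refine key2 (N := ordPSL 3 (u + 1)) (g := Nat.gcd 3 u) (c := s ^ 3 * u) (a := u + 2)
    (b := u ^ 2 + 3 * u + 3) ?_ (mul_ne_zero (by positivity) (by omega)) ?_ ?_ ?_ h
  · rw [hN, hqs]
    ring
  · have := not_sq_succ (q := s) (by omega)
    rwa [← hqs] at this
  · refine cop_prime fun l hl h1 h2 => prime_dvd_one hl ?_
    have e : u ^ 2 + 3 * u + 3 = (u + 2) * (u + 1) + 1 := by ring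
    rw [e] at h2
    exact (Nat.dvd_add_right (h1.mul_right _)).1 h2
  · refine cop_prime fun l hl h1 h2 => ?_
    have h3 : l ∣ u := h2.trans (Nat.gcd_dvd_right _ _)
    have h4 : l ∣ 3 := h2.trans (Nat.gcd_dvd_left _ _)
    have h5 : l ∣ 2 := (Nat.dvd_add_right h3).1 h1
    have h6 := prime_eq_of_dvd_two hl h5
    rw [h6] at h4
    omega

theorem psu3 {q : ℕ} (hq : IsPrimePow q) : ¬ IsSquare (ordPSU 3 q) := by
  intro h
  have hq2 : 2 ≤ q := hq.two_le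
  obtain ⟨s, hs, hqs⟩ := psu_q_sq (by norm_num) (by decide) hq h
  obtain ⟨u, rfl⟩ : ∃ u, q = u + 1 := ⟨q - 1, by omega⟩
  have hdv : Nat.gcd 3 (u + 1 + 1) ∣ numPSU 3 (u + 1) := by
    rw [numPSU3]
    exact (Nat.gcd_dvd_right _ _).trans (Dvd.intro_left ((u + 1) ^ 3 * (u * ((u + 2) * (u ^ 2 + u + 1)))) (by ring))
  have hN := Nat.div_mul_cancel hdv
  rw [← ordPSU, numPSU3] at hN
  refine key2 (N := ordPSU 3 (u + 1)) (g := Nat.gcd 3 (u + 1 + 1)) (c := s ^ 3 * (u + 2)) (a := u)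
    (b := u ^ 2 + u + 1) ?_ (mul_ne_zero (by positivity) (by omega)) ?_ ?_ ?_ h
  · rw [hN, hqs]
    ring
  · exact not_sq_pred hs hqs
  · refine cop_prime fun l hl h1 h2 => prime_dvd_one hl ?_
    have e : u ^ 2 + u + 1 = u * (u + 1) + 1 := by ring
    rw [e] at h2
    exact (Nat.dvd_add_right (h1.mul_right _)).1 h2
  · refine cop_prime fun l hl h1 h2 => ?_
    have h3 : l ∣ u + 2 := h2.trans (Nat.gcd_dvd_right _ _)
    have h4 : l ∣ 3 := h2.trans (Nat.gcd_dvd_left _ _)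
    have h5 : l ∣ 2 := (Nat.dvd_add_right h1).1 h3
    have h6 := prime_eq_of_dvd_two hl h5
    rw [h6] at h4
    omega

theorem psl5 {q : ℕ} (hq2 : 2 ≤ q) : ¬ IsSquare (ordPSL 5 q) := by
  obtain ⟨u, rfl⟩ : ∃ u, q = u + 1 := ⟨q - 1, by omega⟩
  have hdv : Nat.gcd 5 (u + 1 - 1) ∣ numPSL 5 (u + 1) := by
    rw [numPSL5]
    exact (Nat.gcd_dvd_right _ _).trans (by
      simp only [Nat.add_sub_cancel]
      exact (Dvd.intro _ rfl : u ∣ u * (u + 2)).trans ((Dvd.intro _ rfl).trans (Dvd.intro_left _ rfl)))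
  have hN := Nat.div_mul_cancel hdv
  rw [← ordPSL, numPSL5] at hN
  simp only [Nat.add_sub_cancel] at hN
  refine key2 (N := ordPSL 5 (u + 1)) (g := Nat.gcd 5 u) (c := (u + 1) ^ 5 * (u ^ 2 * (u + 2)))
    (a := u ^ 2 + 3 * u + 3)
    (b := (u ^ 2 + 2 * u + 2) * (u ^ 4 + 5 * u ^ 3 + 10 * u ^ 2 + 10 * u + 5)) ?_
    (mul_ne_zero (by positivity) (mul_ne_zero (pow_ne_zero _ (by omega)) (by omega))) ?_ ?_ ?_
  · rw [hN]; ring
  · have := not_sq_phi3 (q := u + 1) (by omega)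
    rwa [show (u + 1) ^ 2 + (u + 1) + 1 = u ^ 2 + 3 * u + 3 by ring] at this
  · refine Nat.Coprime.mul_right ?_ ?_
    · refine cop_prime fun l hl h1 h2 => prime_dvd_one hl ?_
      have h3 : l ∣ u + 1 := by
        rw [show u ^ 2 + 3 * u + 3 = (u ^ 2 + 2 * u + 2) + (u + 1) by ring] at h1
        exact (Nat.dvd_add_right h2).1 h1
      rw [show u ^ 2 + 2 * u + 2 = (u + 1) * (u + 1) + 1 by ring] at h2
      exact (Nat.dvd_add_right (h3.mul_right _)).1 h2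
    · refine cop_prime fun l hl h1 h2 => prime_dvd_one hl ?_
      have h3 : l ∣ u + 2 := by
        rw [show u ^ 4 + 5 * u ^ 3 + 10 * u ^ 2 + 10 * u + 5 =
          (u ^ 2 + 3 * u + 3) * (u + 1) ^ 2 + (u + 2) by ring] at h2
        exact (Nat.dvd_add_right (h1.mul_right _)).1 h2
      rw [show u ^ 2 + 3 * u + 3 = (u + 2) * (u + 1) + 1 by ring] at h1
      exact (Nat.dvd_add_right (h3.mul_right _)).1 h1
  · refine cop_prime fun l hl h1 h2 => ?_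
    have h3 : l ∣ u := h2.trans (Nat.gcd_dvd_right _ _)
    have h4 : l ∣ 5 := h2.trans (Nat.gcd_dvd_left _ _)
    rw [show u ^ 2 + 3 * u + 3 = u * (u + 3) + 3 by ring] at h1
    have h5 : l ∣ 3 := (Nat.dvd_add_right (h3.mul_right _)).1 h1
    have h6 := (Nat.prime_dvd_prime_iff_eq hl Nat.prime_three).1 h5
    rw [h6] at h4
    omega

theorem psu5 {q : ℕ} (hq2 : 2 ≤ q) : ¬ IsSquare (ordPSU 5 q) := by
  obtain ⟨u, rfl⟩ : ∃ u, q = u + 1 := ⟨q - 1, by omega⟩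
  have hdv : Nat.gcd 5 (u + 1 + 1) ∣ numPSU 5 (u + 1) := by
    rw [numPSU5]
    exact (Nat.gcd_dvd_right _ _).trans
      ((Dvd.intro_left _ rfl : u + 2 ∣ u * (u + 2)).trans ((Dvd.intro _ rfl).trans (Dvd.intro_left _ rfl)))
  have hN := Nat.div_mul_cancel hdv
  rw [← ordPSU, numPSU5] at hN
  refine key2 (N := ordPSU 5 (u + 1)) (g := Nat.gcd 5 (u + 1 + 1)) (c := (u + 1) ^ 5 * (u * (u + 2) ^ 2))
    (a := u ^ 2 + u + 1)
    (b := (u ^ 2 + 2 * u + 2) * (u ^ 4 + 3 * u ^ 3 + 4 * u ^ 2 + 2 * u + 1)) ?_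
    (mul_ne_zero (by positivity) (mul_ne_zero (by omega) (by positivity))) ?_ ?_ ?_
  · rw [hN]; ring
  · exact not_sq_phi3 (by omega)
  · refine Nat.Coprime.mul_right ?_ ?_
    · refine cop_prime fun l hl h1 h2 => prime_dvd_one hl ?_
      have h3 : l ∣ u + 1 := by
        rw [show u ^ 2 + 2 * u + 2 = (u ^ 2 + u + 1) + (u + 1) by ring] at h2
        exact (Nat.dvd_add_right h1).1 h2
      rw [show u ^ 2 + u + 1 = (u + 1) * u + 1 by ring] at h1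
      exact (Nat.dvd_add_right (h3.mul_right _)).1 h1
    · refine cop_prime fun l hl h1 h2 => prime_dvd_one hl ?_
      have h3 : l ∣ u := by
        have h4 : l ∣ (u ^ 4 + 3 * u ^ 3 + 4 * u ^ 2 + 2 * u + 1) + u := by
          rw [show (u ^ 4 + 3 * u ^ 3 + 4 * u ^ 2 + 2 * u + 1) + u = (u ^ 2 + u + 1) * (u + 1) ^ 2 by ring]
          exact h1.mul_right _
        exact (Nat.dvd_add_right h2).1 h4
      rw [show u ^ 2 + u + 1 = u * (u + 1) + 1 by ring] at h1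
      exact (Nat.dvd_add_right (h3.mul_right _)).1 h1
  · refine cop_prime fun l hl h1 h2 => ?_
    have h3 : l ∣ u + 2 := h2.trans (Nat.gcd_dvd_right _ _)
    have h4 : l ∣ 5 := h2.trans (Nat.gcd_dvd_left _ _)
    have h5 : l ∣ 3 := by
      have h7 : l ∣ (u ^ 2 + u + 1) + (u + 2) := dvd_add h1 h3
      rw [show (u ^ 2 + u + 1) + (u + 2) = (u + 2) * u + 3 by ring] at h7
      exact (Nat.dvd_add_right (h3.mul_right _)).1 h7
    have h6 := (Nat.prime_dvd_prime_iff_eq hl Nat.prime_three).1 h5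
    rw [h6] at h4
    omega

/-- `PSp(4, q)` -/
theorem bc2 {q : ℕ} (hq2 : 2 ≤ q) : IsSquare (ordBC 2 q) ↔ ∃ z, q ^ 2 + 1 = 2 * z ^ 2 := by
  obtain ⟨u, rfl⟩ : ∃ u, q = u + 1 := ⟨q - 1, by omega⟩
  have hdv : Nat.gcd 2 (u + 1 - 1) ∣ numBC 2 (u + 1) := by
    rw [numBC2]
    exact (Nat.gcd_dvd_right _ _).trans (by
      simp only [Nat.add_sub_cancel]
      exact (Dvd.intro _ rfl : u ∣ u * (u + 2)).trans ((Dvd.intro _ rfl).trans (Dvd.intro_left _ rfl)))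
  have hN := Nat.div_mul_cancel hdv
  rw [← ordBC, numBC2] at hN
  simp only [Nat.add_sub_cancel] at hN
  have hu0 : u ≠ 0 := by omega
  set C := (u + 1) ^ 2 * (u * (u + 2)) with hC
  have hC0 : C ≠ 0 := by positivity
  have hN2 : ordBC 2 (u + 1) * Nat.gcd 2 u = C ^ 2 * ((u + 1) ^ 2 + 1) := by
    rw [hN, hC]; ring
  rcases Nat.even_or_odd u with ⟨m, hm⟩ | ⟨m, hm⟩
  · have hg : Nat.gcd 2 u = 2 := Nat.gcd_eq_left ⟨m, by omega⟩
    rw [hg] at hN2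
    constructor
    · rintro ⟨t, ht⟩
      exact two_sq_of hC0 (t := t) (by rw [← hN2, ht]; ring)
    · rintro ⟨z, hz⟩
      refine ⟨C * z, ?_⟩
      have : ordBC 2 (u + 1) * 2 = (C * z * (C * z)) * 2 := by rw [hN2, hz]; ring
      omega
  · have hg : Nat.gcd 2 u = 1 := (Nat.coprime_two_left (n := u)).2 ⟨m, hm⟩
    rw [hg, mul_one] at hN2
    constructor
    · rintro ⟨t, ht⟩
      exact absurd (sq_of_mul hC0 (t := t) (by rw [← hN2, ht]; ring)) (not_sq_succ (by omega))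
    · rintro ⟨z, hz⟩
      exfalso
      have e : (u + 1) ^ 2 + 1 = 2 * (2 * (m + 1) ^ 2) + 1 := by rw [hm]; ring
      omega

end Pool.Agent.H373SQ
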