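import Mathlib
import Pool.Agent.H373SQ.CardPSL
import Pool.Agent.H373SQ.Small

set_option autoImplicit false

namespace Pool.Agent.H373SQ

theorem chain_step {f l d : ℕ} (hl : l.Prime) (hl2 : l ≠ 2) (hf : f ≠ 0) (hd : d ∣ f)
    (h1 : l ∣ 4 ^ d - 1) (h2 : ¬ l ^ 2 ∣ 4 ^ d - 1) (h : l ^ 2 ∣ 4 ^ f - 1) : l ∣ f := by
  have : Fact l.Prime := ⟨hl⟩
  obtain ⟨m, rfl⟩ := hd
  have hd0 : d ≠ 0 := by rintro rfl; simp at hf
  have hm0 : m ≠ 0 := by rintro rfl; simp at hf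
  have h4 : 1 < 4 ^ d := Nat.one_lt_pow hd0 (by norm_num)
  have hnl : ¬ l ∣ 4 ^ d := by
    intro h5
    have h6 : l ∣ 2 ^ 2 := hl.dvd_of_dvd_pow h5
    exact hl2 (prime_eq_of_dvd_two hl (hl.dvd_of_dvd_pow h6))
  have hv := padicValNat.pow_sub_pow (p := l) (hl.odd_of_ne_two hl2) h4 h1 hnl hm0
  rw [one_pow, ← pow_mul] at hv
  have h41 : 4 ^ d - 1 ≠ 0 := by omega
  have hne : 4 ^ (d * m) - 1 ≠ 0 := sub_one_ne_zero (by norm_num) (by positivity)
  have h7 : 2 ≤ padicValNat l (4 ^ (d * m) - 1) := (padicValNat_dvd_iff_le hne).1 h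
  have h8 : padicValNat l (4 ^ d - 1) < 2 := by
    by_contra hge
    exact h2 ((padicValNat_dvd_iff_le h41).2 (by omega))
  have h9 : 1 ≤ padicValNat l m := by omega
  exact (dvd_of_one_le_padicValNat h9).mul_left d

theorem full_step {f l d : ℕ} (hl : l.Prime) (hl2 : l ≠ 2) (hf : f ≠ 0)
    (hN : ∀ p : ℕ, p.Prime → p ∣ 2 ^ f * (4 ^ f - 1) → p ^ 2 ∣ 2 ^ f * (4 ^ f - 1)) (hd : d ∣ f)
    (h1 : l ∣ 4 ^ d - 1) (h2 : ¬ l ^ 2 ∣ 4 ^ d - 1) : l ∣ f := by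
  refine chain_step hl hl2 hf hd h1 h2 ?_
  have h3 : l ∣ 4 ^ f - 1 := by
    obtain ⟨m, rfl⟩ := hd
    refine h1.trans ?_
    rw [pow_mul]
    have := Nat.sub_dvd_pow_sub_pow (4 ^ d) 1 m
    rwa [one_pow] at this
  have h4 := hN l hl (h3.mul_left _)
  have h5 : Nat.Coprime (l ^ 2) (2 ^ f) := by
    apply Nat.Coprime.pow
    exact (Nat.coprime_primes hl Nat.prime_two).2 hl2
  exact h5.dvd_of_dvd_mul_left h4

theorem prime_M127 : Nat.Prime (2 ^ 127 - 1) :=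
  lucas_lehmer_sufficiency _ (by simp) (by norm_num)

theorem chain_all {f : ℕ} (hf : f ≠ 0)
    (hN : ∀ p : ℕ, p.Prime → p ∣ 2 ^ f * (4 ^ f - 1) → p ^ 2 ∣ 2 ^ f * (4 ^ f - 1)) :
    3 * 7 * 43 * 127 * 337 * 431 * 5419 * 9719 * 2099863 * (2 ^ 127 - 1) ∣ f := by
  have a3 : 3 ∣ f := full_step (d := 1) (by norm_num) (by norm_num) hf hN (one_dvd _)
    (by norm_num) (by norm_num)
  have a7 : 7 ∣ f := full_step (d := 3) (by norm_num) (by norm_num) hf hN a3 (by norm_num) (by norm_num)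
  have a43 : 43 ∣ f := full_step (d := 7) (by norm_num) (by norm_num) hf hN a7 (by norm_num) (by norm_num)
  have a127 : 127 ∣ f := full_step (d := 7) (by norm_num) (by norm_num) hf hN a7 (by norm_num) (by norm_num)
  have a21 : 21 ∣ f := Nat.Coprime.mul_dvd_of_dvd_of_dvd (by norm_num : Nat.Coprime 3 7) a3 a7
  have a337 : 337 ∣ f := full_step (d := 21) (by norm_num) (by norm_num) hf hN a21 (by norm_num) (by norm_num)
  have a5419 : 5419 ∣ f := full_step (d := 21) (by norm_num) (by norm_num) hf hN a21 (by norm_num) (by norm_num)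
  have a431 : 431 ∣ f := full_step (d := 43) (by norm_num) (by norm_num) hf hN a43 (by norm_num) (by norm_num)
  have a9719 : 9719 ∣ f := full_step (d := 43) (by norm_num) (by norm_num) hf hN a43 (by norm_num) (by norm_num)
  have a20 : 2099863 ∣ f := full_step (d := 43) (by norm_num) (by norm_num) hf hN a43 (by norm_num) (by norm_num)
  have aM : 2 ^ 127 - 1 ∣ f := full_step (d := 127) prime_M127 (by norm_num) hf hN a127 (by norm_num) (by norm_num)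
  refine Nat.Coprime.mul_dvd_of_dvd_of_dvd (by norm_num) ?_ aM
  refine Nat.Coprime.mul_dvd_of_dvd_of_dvd (by norm_num) ?_ a20
  refine Nat.Coprime.mul_dvd_of_dvd_of_dvd (by norm_num) ?_ a9719
  refine Nat.Coprime.mul_dvd_of_dvd_of_dvd (by norm_num) ?_ a5419
  refine Nat.Coprime.mul_dvd_of_dvd_of_dvd (by norm_num) ?_ a431
  refine Nat.Coprime.mul_dvd_of_dvd_of_dvd (by norm_num) ?_ a337
  refine Nat.Coprime.mul_dvd_of_dvd_of_dvd (by norm_num) ?_ a127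
  refine Nat.Coprime.mul_dvd_of_dvd_of_dvd (by norm_num) ?_ a43
  exact Nat.Coprime.mul_dvd_of_dvd_of_dvd (by norm_num) a3 a7

theorem ordPSL2_two_pow {f : ℕ} (hf : f ≠ 0) : ordPSL 2 (2 ^ f) = 2 ^ f * (4 ^ f - 1) := by
  have h1 : Nat.gcd 2 (2 ^ f - 1) = 1 := by
    refine (Nat.coprime_two_left (n := 2 ^ f - 1)).2 ?_
    have h2 : 2 ∣ 2 ^ f := dvd_pow_self 2 hf
    have h3 : 1 ≤ 2 ^ f := Nat.one_le_two_pow
    rw [Nat.odd_iff]
    omega
  have e : (2 ^ f) ^ 2 = 4 ^ f := by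
    rw [← pow_mul, mul_comm, pow_mul]; norm_num
  rw [ordPSL, h1, Nat.div_one, numPSL, icc22, Finset.prod_singleton, e]
  norm_num

end Pool.Agent.H373SQ
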