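import Mathlib
import Pool.Agent.H373SQ.Small

set_option autoImplicit false

namespace Pool.Agent.H373SQ

theorem alpha_sq (x : ℤ) : (⟨x, 1⟩ : Zsqrtd (x ^ 2 + 1)) ^ 2 = ⟨2 * x ^ 2 + 1, 2 * x⟩ := by
  have e : (⟨x, 1⟩ : Zsqrtd (x ^ 2 + 1)) ^ 2 = ⟨x, 1⟩ * ⟨x, 1⟩ := sq _
  rw [e]
  ext
  · simp only [Zsqrtd.re_mul]; ring
  · simp only [Zsqrtd.im_mul]; ring

theorem alpha_step (x : ℤ) (j : ℕ) : (⟨x, 1⟩ : Zsqrtd (x ^ 2 + 1)) ^ (2 * (j + 1) + 1) =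
    (⟨x, 1⟩ : Zsqrtd (x ^ 2 + 1)) ^ (2 * j + 1) * ⟨2 * x ^ 2 + 1, 2 * x⟩ := by
  rw [← alpha_sq, ← pow_add]
  congr 1

theorem pell_complete (x : ℤ) (hx : 1 ≤ x) : ∀ (n : ℕ) (X b : ℤ), b.toNat = n → 1 ≤ X → 1 ≤ b →
    X ^ 2 + 1 = (x ^ 2 + 1) * b ^ 2 →
    ∃ j : ℕ, (⟨x, 1⟩ : Zsqrtd (x ^ 2 + 1)) ^ (2 * j + 1) = ⟨X, b⟩ := by
  intro n
  induction n using Nat.strong_induction_on with
  | _ n ih =>
  intro X b hbn hX hb h
  rcases eq_or_lt_of_le hb with h1 | h1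
  · refine ⟨0, ?_⟩
    have h2 : X ^ 2 = x ^ 2 := by rw [← h1] at h; linarith
    have h3 : X = x := by
      rcases sq_eq_sq_iff_eq_or_eq_neg.1 h2 with h4 | h4
      · exact h4
      · linarith
    rw [h3, ← h1]
    simp
  · set X' := (2 * x ^ 2 + 1) * X - 2 * x * (x ^ 2 + 1) * b with hX'
    set b' := (2 * x ^ 2 + 1) * b - 2 * x * X with hb'
    have hnorm : X' ^ 2 + 1 = (x ^ 2 + 1) * b' ^ 2 := by
      have e : X' ^ 2 - (x ^ 2 + 1) * b' ^ 2 = X ^ 2 - (x ^ 2 + 1) * b ^ 2 := by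
        rw [hX', hb']; ring
      linarith
    have hlt : b' < b := by
      have h2 : x * b < X := by
        have h3 : (x * b) ^ 2 < X ^ 2 := by nlinarith
        exact lt_of_pow_lt_pow_left₀ 2 (by linarith) h3
      rw [hb']; nlinarith
    have hpos : 0 < b' := by
      have h3 : (2 * x * X) ^ 2 < ((2 * x ^ 2 + 1) * b) ^ 2 := by
        have e : (2 * x * X) ^ 2 = 4 * x ^ 2 * ((x ^ 2 + 1) * b ^ 2) - 4 * x ^ 2 := by rw [← h]; ring
        have e2 : ((2 * x ^ 2 + 1) * b) ^ 2 = 4 * x ^ 2 * ((x ^ 2 + 1) * b ^ 2) + b ^ 2 := by ring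
        rw [e, e2]
        nlinarith
      have h4 := lt_of_pow_lt_pow_left₀ 2 (by positivity) h3
      rw [hb']; linarith
    have hXpos : 1 ≤ X' := by
      by_contra hneg
      have h5 : X' ≤ 0 := by linarith
      have h6 : b = (2 * x ^ 2 + 1) * b' + 2 * x * X' := by rw [hX', hb']; ring
      have h7 : x * b' ≤ - X' := by
        have h8 : (x * b') ^ 2 ≤ (- X') ^ 2 := by nlinarith
        exact le_of_pow_le_pow_left₀ two_ne_zero (by linarith) h8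
      nlinarith
    obtain ⟨j, hj⟩ := ih b'.toNat (by omega) X' b' rfl hXpos hpos hnorm
    refine ⟨j + 1, ?_⟩
    rw [alpha_step, hj]
    ext
    · simp only [Zsqrtd.re_mul]; rw [hX', hb']; ring
    · simp only [Zsqrtd.im_mul]; rw [hX', hb']; ring

theorem pell_shape (x : ℤ) (hx : 1 ≤ x) (j : ℕ) : ∃ U b : ℤ,
    (⟨x, 1⟩ : Zsqrtd (x ^ 2 + 1)) ^ (2 * j + 1) = ⟨x * U, b⟩ ∧ x ^ 2 ∣ U - (2 * j + 1) ∧
      x ^ 2 ∣ b - 1 ∧ 1 ≤ b ∧ 2 * (j : ℤ) + 1 ≤ U ∧ (1 ≤ j → 2 * (j : ℤ) + 1 < U) := by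
  induction j with
  | zero => exact ⟨1, 1, by simp, by simp, by simp, by simp, by simp, by simp⟩
  | succ j ih =>
    obtain ⟨U, b, h1, ⟨s, hs⟩, ⟨t, ht⟩, h4, h5, -⟩ := ih
    refine ⟨(2 * x ^ 2 + 1) * U + 2 * (x ^ 2 + 1) * b, (2 * x ^ 2 + 1) * b + 2 * x ^ 2 * U, ?_,
      ⟨2 * U + s + 2 * b + 2 * t, ?_⟩, ⟨2 * b + t + 2 * U, ?_⟩, ?_, ?_, ?_⟩
    · rw [alpha_step, h1]
      ext
      · simp only [Zsqrtd.re_mul]; ring
      · simp only [Zsqrtd.im_mul]; ring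
    · push_cast
      linear_combination hs + 2 * ht
    · linear_combination ht
    · nlinarith [mul_pos (show (0 : ℤ) < x ^ 2 by positivity) (show (0 : ℤ) < b by linarith),
        mul_pos (show (0 : ℤ) < x ^ 2 by positivity) (show (0 : ℤ) < U by linarith)]
    · push_cast
      nlinarith [mul_pos (show (0 : ℤ) < x ^ 2 by positivity) (show (0 : ℤ) < b by linarith),
        mul_pos (show (0 : ℤ) < x ^ 2 by positivity) (show (0 : ℤ) < U by linarith)]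
    · intro _
      push_cast
      nlinarith [mul_pos (show (0 : ℤ) < x ^ 2 by positivity) (show (0 : ℤ) < b by linarith),
        mul_pos (show (0 : ℤ) < x ^ 2 by positivity) (show (0 : ℤ) < U by linarith)]

theorem re_dvd {D : ℤ} (a b : ℤ) (i : ℕ) : a ∣ ((⟨a, b⟩ : Zsqrtd D) ^ (2 * i)).im ∧
    a ∣ ((⟨a, b⟩ : Zsqrtd D) ^ (2 * i + 1)).re := by
  induction i with
  | zero => simp
  | succ i ih =>
    obtain ⟨_, h2⟩ := ih
    have h3 : a ∣ ((⟨a, b⟩ : Zsqrtd D) ^ (2 * (i + 1))).im := by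
      rw [show 2 * (i + 1) = 2 * i + 1 + 1 by ring, pow_succ]
      simp only [Zsqrtd.im_mul]
      exact dvd_add (h2.mul_right _) (Dvd.intro_left _ rfl)
    refine ⟨h3, ?_⟩
    rw [pow_succ]
    simp only [Zsqrtd.re_mul]
    exact dvd_add (Dvd.intro_left _ rfl) ((h3.mul_left D).mul_right _)

theorem pell_pow_int {x b : ℤ} {r : ℕ} (hx : 2 ≤ x) (hr : 3 ≤ r) (hb : 1 ≤ b)
    (h : (x ^ r) ^ 2 + 1 = (x ^ 2 + 1) * b ^ 2) : False := by
  have hxr : 1 ≤ x ^ r := one_le_pow₀ (by linarith)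
  obtain ⟨j, hj⟩ := pell_complete x (by linarith) _ (x ^ r) b rfl hxr hb h
  obtain ⟨U, c, h1, h2, -, -, -, -⟩ := pell_shape x (by linarith) j
  rw [hj] at h1
  have hre : x ^ r = x * U := congrArg Zsqrtd.re h1
  have hU : U = x ^ (r - 1) := by
    have e : x ^ r = x * x ^ (r - 1) := by
      rw [← pow_succ']; congr 1; omega
    rw [e] at hre
    exact (mul_left_cancel₀ (by linarith) hre).symm
  have hxU : x ^ 2 ∣ U := hU ▸ pow_dvd_pow x (by omega)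
  have hxn : x ^ 2 ∣ 2 * (j : ℤ) + 1 := by
    have := dvd_sub hxU h2
    rwa [sub_sub_cancel] at this
  -- a prime dividing x
  obtain ⟨p, hp, hpx⟩ := Nat.exists_prime_and_dvd (n := x.natAbs) (by omega)
  have hpx' : (p : ℤ) ∣ x := Int.natCast_dvd.2 hpx
  have hpn : p ∣ 2 * j + 1 := by
    have h3 : (p : ℤ) ∣ 2 * (j : ℤ) + 1 := (hpx'.trans (Dvd.intro_left _ (by ring : x * x = x ^ 2))).trans hxn
    exact_mod_cast h3
  obtain ⟨m, hm⟩ := hpn
  have hodd : Odd (p * m) := hm ▸ ⟨j, rfl⟩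
  obtain ⟨⟨j', hj'⟩, ⟨i, hi⟩⟩ := Nat.odd_mul.1 hodd
  obtain ⟨U', c', g1, g2, -, -, -, g3⟩ := pell_shape x (by linarith) j'
  have hj'1 : 1 ≤ j' := by
    have := hp.two_le
    omega
  have g4 := g3 hj'1
  have hdvd : x * U' ∣ x ^ r := by
    have e : (⟨x, 1⟩ : Zsqrtd (x ^ 2 + 1)) ^ (2 * j + 1) = (⟨x * U', c'⟩ : Zsqrtd (x ^ 2 + 1)) ^ (2 * i + 1) := by
      rw [← g1, ← pow_mul]
      congr 1
      rw [hm, hj', hi]
    have h5 := (re_dvd (D := x ^ 2 + 1) (x * U') c' i).2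
    rw [← e, hj] at h5
    exact h5
  have hU'dvd : U' ∣ x ^ (r - 1) := by
    have e : x ^ r = x * x ^ (r - 1) := by
      rw [← pow_succ']; congr 1; omega
    rw [e] at hdvd
    exact Int.dvd_of_mul_dvd_mul_left (by linarith) hdvd
  have hpj : (p : ℤ) = 2 * (j' : ℤ) + 1 := by exact_mod_cast hj'
  rw [← hpj] at g2 g4
  have hp2 : ((p : ℤ)) ^ 2 ∣ x ^ 2 := pow_dvd_pow_of_dvd hpx' 2
  have huniq : ∀ {d : ℕ}, d.Prime → d ∣ U'.natAbs → d = p := by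
    intro l hl hlU
    have hlU' : (l : ℤ) ∣ U' := Int.natCast_dvd.2 hlU
    have hlp : Prime (l : ℤ) := Nat.prime_iff_prime_int.1 hl
    have hlx : (l : ℤ) ∣ x := hlp.dvd_of_dvd_pow (hlU'.trans hU'dvd)
    have h6 : (l : ℤ) ∣ U' - p := (hlx.trans (Dvd.intro_left _ (by ring : x * x = x ^ 2))).trans g2
    have h7 : (l : ℤ) ∣ p := by
      have := dvd_sub hlU' h6
      rwa [sub_sub_cancel] at this
    exact (Nat.prime_dvd_prime_iff_eq hl hp).1 (by exact_mod_cast h7)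
  have hp0 : (0 : ℤ) < p := by exact_mod_cast hp.pos
  have hU'0 : U'.natAbs ≠ 0 := by omega
  have hpw := Nat.eq_prime_pow_of_unique_prime_dvd hU'0 huniq
  set e := U'.natAbs.primeFactorsList.length with he
  have hUe : U' = (p : ℤ) ^ e := by
    have h8 : (U'.natAbs : ℤ) = U' := Int.natAbs_of_nonneg (by linarith)
    rw [← h8, hpw]
    push_cast
    rfl
  rcases Nat.lt_or_ge e 2 with h9 | h9
  · have h10 : U' ≤ p := by
      rw [hUe]
      interval_cases e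
      · simp; linarith
      · simp
    linarith
  · have h11 : (p : ℤ) ^ 2 ∣ U' := hUe ▸ pow_dvd_pow _ h9
    have h12 : (p : ℤ) ^ 2 ∣ p := by
      have := dvd_sub h11 (hp2.trans g2)
      rwa [sub_sub_cancel] at this
    have h13 := Int.le_of_dvd hp0 h12
    have h14 : (2 : ℤ) ≤ p := by exact_mod_cast hp.two_le
    nlinarith

theorem pell_pow {x b r : ℕ} (hx : 2 ≤ x) (hr : 3 ≤ r) (h : (x ^ r) ^ 2 + 1 = (x ^ 2 + 1) * b ^ 2) :
    False := by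
  have hb : 1 ≤ b := by
    rcases Nat.eq_zero_or_pos b with rfl | hb
    · simp at h
    · exact hb
  exact pell_pow_int (x := x) (b := b) (r := r) (by exact_mod_cast hx) hr (by exact_mod_cast hb)
    (by exact_mod_cast h)

end Pool.Agent.H373SQ
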