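import Mathlib
import Pool.Agent.H373SQ.Pell

set_option autoImplicit false

namespace Pool.Agent.H373SQ

theorem val_sqfree {l s : ℕ} (hl : l.Prime) (hs : Squarefree s) (hls : l ∣ s) : padicValNat l s = 1 := by
  have : Fact l.Prime := ⟨hl⟩
  apply le_antisymm
  · by_contra hlt
    push Not at hlt
    have h2 : l ^ 2 ∣ s := (padicValNat_dvd_iff_le hs.ne_zero).2 hlt
    have := hs l (by rw [← sq]; exact h2)
    exact hl.one_lt.ne' (Nat.isUnit_iff.1 this)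
  · exact one_le_padicValNat_of_dvd hs.ne_zero hls

/-- a common prime of `x ^ 2 + 1` and of the cofactor divides `r` -/
theorem common_dvd {x r Q l : ℕ} (hr : Odd r) (hl : l.Prime) (hQ : (x ^ 2) ^ r + 1 = (x ^ 2 + 1) * Q)
    (h1 : l ∣ x ^ 2 + 1) (h2 : l ∣ Q) : l ∣ r := by
  have hne : (-(x : ℤ) ^ 2 - 1) ≠ 0 := by
    have : 0 ≤ (x : ℤ) ^ 2 := by positivity
    intro h
    linarith
  have hsum : (∑ i ∈ Finset.range r, (-(x : ℤ) ^ 2) ^ i) = Q := by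
    have h3 := geom_sum_mul (-(x : ℤ) ^ 2) r
    have h4 : (-(x : ℤ) ^ 2) ^ r - 1 = (Q : ℤ) * (-(x : ℤ) ^ 2 - 1) := by
      rw [hr.neg_pow]
      have h5 : ((x : ℤ) ^ 2) ^ r + 1 = ((x : ℤ) ^ 2 + 1) * Q := by exact_mod_cast hQ
      linear_combination - h5
    rw [h4] at h3
    exact mul_right_cancel₀ hne h3
  have hx1 : ((x : ZMod l)) ^ 2 = -1 := dvd_add_one_iff.1 h1
  have h6 : ((Q : ℤ) : ZMod l) = (r : ZMod l) := by
    rw [← hsum]
    push_cast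
    rw [hx1]
    simp
  have h7 : ((Q : ℕ) : ZMod l) = 0 := (CharP.cast_eq_zero_iff (ZMod l) l Q).2 h2
  have h8 : (r : ZMod l) = 0 := by
    rw [← h6]
    exact_mod_cast h7
  exact (CharP.cast_eq_zero_iff (ZMod l) l r).1 h8

theorem pow_mod_16 {x r : ℕ} (hr : Odd r) (hx : x % 2 = 1) :
    x ^ 2 % 16 = 1 ∧ (x ^ 2) ^ r % 16 = 1 ∨ x ^ 2 % 16 = 9 ∧ (x ^ 2) ^ r % 16 = 9 := by
  have h1 : x ^ 2 % 16 = 1 ∨ x ^ 2 % 16 = 9 := by
    have h : x % 16 < 16 := Nat.mod_lt _ (by norm_num)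
    have h2 : x ^ 2 % 16 = (x % 16) ^ 2 % 16 := by rw [Nat.pow_mod]
    have h3 : x % 2 = (x % 16) % 2 := by omega
    rw [h2]
    rw [h3] at hx
    generalize x % 16 = y at *
    interval_cases y <;> simp_all
  obtain ⟨j, hj⟩ := hr
  rcases h1 with h1 | h1
  · left
    refine ⟨h1, ?_⟩
    rw [Nat.pow_mod, h1]; simp
  · right
    refine ⟨h1, ?_⟩
    rw [Nat.pow_mod, h1, hj, pow_succ, pow_mul, Nat.mul_mod, Nat.pow_mod]
    norm_num

theorem power_part {x r z : ℕ} (hx : 2 ≤ x) (hr : r.Prime) (h : x ^ (2 * r) + 1 = 2 * z ^ 2) :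
    r % 8 = 1 ∧ ∃ a, x ^ 2 + 1 = 2 * r * a ^ 2 := by
  rcases hr.eq_two_or_odd' with rfl | hro
  · have := quart_two (x := x) (z := z) h
    omega
  have hr3 : 3 ≤ r := by
    have := hr.two_le
    rcases hro with ⟨j, hj⟩
    omega
  have hxodd : x % 2 = 1 := by
    by_contra he
    have h2 : 2 ∣ x ^ (2 * r) := dvd_pow (by omega) (by omega)
    omega
  have hd : x ^ 2 + 1 ∣ (x ^ 2) ^ r + 1 ^ r := hro.nat_add_dvd_pow_add_pow _ _
  rw [one_pow] at hd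
  obtain ⟨Q, hQ⟩ := hd
  have hprod : (x ^ 2 + 1) * Q = 2 * z ^ 2 := by rw [← hQ, ← h, ← pow_mul]
  have hQ8 : Q % 8 = 1 := by
    have e : (x ^ 2 + 1) * Q % 16 = ((x ^ 2 % 16 + 1) * (Q % 16)) % 16 := by
      rw [Nat.mul_mod, Nat.add_mod]; simp [Nat.mul_mod, Nat.add_mod]
    rcases pow_mod_16 hro hxodd with ⟨h1, h2⟩ | ⟨h1, h2⟩
    · rw [h1, ← hQ] at e
      omega
    · rw [h1, ← hQ] at e
      omega
  have hQ0 : Q ≠ 0 := by rintro rfl; omega
  have hx0 : x ^ 2 + 1 ≠ 0 := by positivity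
  obtain ⟨s, b, hsb, hs⟩ := Nat.sq_mul_squarefree Q
  have hb0 : b ≠ 0 := by rintro rfl; simp at hsb; exact hQ0 hsb.symm
  have hs1 : s ≠ 1 := by
    rintro rfl
    refine pell_pow (x := x) (b := b) (r := r) hx hr3 ?_
    have e1 : (x ^ r) ^ 2 = (x ^ 2) ^ r := by rw [← pow_mul, ← pow_mul, mul_comm]
    rw [e1, hQ, ← hsb]; ring
  have huniq : ∀ l, l.Prime → l ∣ s → l = r := by
    intro l hl hls
    have hlQ : l ∣ Q := hsb ▸ (hls.mul_left _)
    have hl2 : l ≠ 2 := by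
      rintro rfl
      omega
    by_cases hlx : l ∣ x ^ 2 + 1
    · exact (Nat.prime_dvd_prime_iff_eq hl hr).1 (common_dvd hro hl hQ hlx hlQ)
    · exfalso
      refine key (N := z ^ 2) (g := 2) (c := b) (a := s) (b := x ^ 2 + 1) (l := l) hl ?_ hb0 hs.ne_zero
        (by rw [val_sqfree hl hs hls]; exact odd_one) hlx ?_ (IsSquare.sq z)
      · rw [mul_comm, ← hprod, ← hsb]; ring
      · intro h3
        exact hl2 (prime_eq_of_dvd_two hl h3)
  obtain ⟨l, hl, hls⟩ := Nat.exists_prime_and_dvd hs1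
  have hlr := huniq l hl hls
  rw [hlr] at hls
  obtain ⟨c, hc⟩ := hls
  have hc1 : c = 1 := by
    by_contra hc1
    obtain ⟨l', hl', hlc⟩ := Nat.exists_prime_and_dvd hc1
    have h3 := huniq l' hl' (hc ▸ hlc.mul_left _)
    rw [h3] at hlc
    have h4 := hs r (hc ▸ mul_dvd_mul_left r hlc)
    exact hr.one_lt.ne' (Nat.isUnit_iff.1 h4)
  rw [hc1, mul_one] at hc
  rw [hc] at hsb
  refine ⟨?_, ?_⟩
  · have h3 := sq_mod_8 b
    have h4 : b ^ 2 * r % 8 = (b ^ 2 % 8) * (r % 8) % 8 := by rw [Nat.mul_mod]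
    rw [hsb, hQ8] at h4
    rcases h3 with ⟨h5, _⟩ | ⟨h5, _⟩ | ⟨h5, _⟩ <;> rw [h5] at h4 <;> omega
  · obtain ⟨d, hd⟩ := two_sq_of (C := b) (x := (x ^ 2 + 1) * r) (t := z) hb0 (by
      rw [← hprod, ← hsb]; ring)
    have hrd : r ∣ d := by
      have h3 : r ∣ 2 * d ^ 2 := hd ▸ Dvd.intro_left _ rfl
      rcases (Nat.Prime.dvd_mul hr).1 h3 with h4 | h4
      · have := prime_eq_of_dvd_two hr h4
        omega
      · exact hr.dvd_of_dvd_pow h4
    obtain ⟨a, rfl⟩ := hrd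
    refine ⟨a, ?_⟩
    have h5 : (x ^ 2 + 1) * r = (2 * r * a ^ 2) * r := by rw [hd]; ring
    exact Nat.eq_of_mul_eq_mul_right hr.pos h5

/-- `y ^ 2 + 1 = 34 a ^ 2` has no solutions (descent with the unit `35 + 6 √34`) -/
theorem no34 : ∀ n : ℕ, ∀ a y : ℤ, a.toNat = n → 1 ≤ a → 0 ≤ y → y ^ 2 + 1 = 34 * a ^ 2 → False := by
  intro n
  induction n using Nat.strong_induction_on with
  | _ n ih =>
  intro a y han ha hy h
  have h1 : 6 * y < 35 * a := by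
    have h3 : (6 * y) ^ 2 < (35 * a) ^ 2 := by nlinarith
    exact lt_of_pow_lt_pow_left₀ 2 (by linarith) h3
  have h2 : 34 * a < 6 * y := by
    have h3 : (34 * a) ^ 2 < (6 * y) ^ 2 := by nlinarith
    exact lt_of_pow_lt_pow_left₀ 2 (by linarith) h3
  refine ih (35 * a - 6 * y).toNat (by omega) (35 * a - 6 * y) |35 * y - 204 * a| rfl (by linarith)
    (abs_nonneg _) ?_
  rw [sq_abs]
  linear_combination h

theorem power_part' {x r z : ℕ} (hx : 2 ≤ x) (hr : r.Prime) (h : x ^ (2 * r) + 1 = 2 * z ^ 2) :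
    r % 8 = 1 ∧ r ≠ 17 ∧ ∃ a, x ^ 2 + 1 = 2 * r * a ^ 2 := by
  obtain ⟨h1, a, ha⟩ := power_part hx hr h
  refine ⟨h1, ?_, a, ha⟩
  rintro rfl
  have ha1 : 1 ≤ a := by
    rcases Nat.eq_zero_or_pos a with rfl | h2
    · simp at ha
    · exact h2
  exact no34 _ (a : ℤ) (x : ℤ) rfl (by exact_mod_cast ha1) (by positivity) (by
    have : x ^ 2 + 1 = 34 * a ^ 2 := by rw [ha]
    exact_mod_cast this)

end Pool.Agent.H373SQ
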