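import Mathlib
import Pool.Agent.H373SQ.Power

set_option autoImplicit false

namespace Pool.Agent.H373SQ

open NumberTheorySymbols

/-- `(t ^ j + 1) / (t + 1)` -/
def Uq (t j : ℕ) : ℕ := (t ^ j + 1) / (t + 1)

theorem Uq_mul {t j : ℕ} (hj : Odd j) : (t + 1) * Uq t j = t ^ j + 1 := by
  have h := hj.nat_add_dvd_pow_add_pow t 1
  rw [one_pow] at h
  exact Nat.mul_div_cancel' h

theorem Uq_one (t : ℕ) : Uq t 1 = 1 := by
  rw [Uq, pow_one]
  exact Nat.div_self (by omega)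

theorem Uq_mod8 {x j : ℕ} (hx : x % 2 = 1) (hj : Odd j) : Uq (x ^ 2) j % 8 = 1 := by
  have hQ := Uq_mul (t := x ^ 2) hj
  generalize Uq (x ^ 2) j = Q at *
  have e : (x ^ 2 + 1) * Q % 16 = ((x ^ 2 % 16 + 1) * (Q % 16)) % 16 := by
    rw [Nat.mul_mod, Nat.add_mod]; simp [Nat.mul_mod, Nat.add_mod]
  rcases pow_mod_16 hj hx with ⟨h1, h2⟩ | ⟨h1, h2⟩
  · rw [h1, hQ] at e
    omega
  · rw [h1, hQ] at e
    omega

theorem Uq_step1 {t m n : ℕ} (hm : Odd m) (hn : Odd n) (h : 2 * n < m) :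
    ((Uq t m : ℕ) : ℤ) = t ^ (m - 2 * n) * (t ^ n - 1) * Uq t n + Uq t (m - 2 * n) := by
  have hs : Odd (m - 2 * n) := by
    obtain ⟨a, ha⟩ := hm
    exact ⟨a - n, by omega⟩
  have h1 : ((t : ℤ) + 1) * Uq t m = t ^ m + 1 := by exact_mod_cast Uq_mul hm
  have h2 : ((t : ℤ) + 1) * Uq t n = t ^ n + 1 := by exact_mod_cast Uq_mul hn
  have h3 : ((t : ℤ) + 1) * Uq t (m - 2 * n) = t ^ (m - 2 * n) + 1 := by exact_mod_cast Uq_mul hs
  have h0 : ((t : ℤ) + 1) ≠ 0 := by positivity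
  apply mul_left_cancel₀ h0
  have e : (t : ℤ) ^ m = t ^ (m - 2 * n) * (t ^ n) ^ 2 := by
    rw [← pow_mul, ← pow_add]; congr 1; omega
  rw [h1, e]
  linear_combination - (t : ℤ) ^ (m - 2 * n) * (t ^ n - 1) * h2 - h3

theorem Uq_step2 {t m n : ℕ} (hm : Odd m) (hn : Odd n) (h : m < 2 * n) :
    (t : ℤ) ^ (2 * n - m) * Uq t m = (t ^ n - 1) * Uq t n + Uq t (2 * n - m) := by
  have hs : Odd (2 * n - m) := by
    obtain ⟨a, ha⟩ := hm
    exact ⟨n - a - 1, by omega⟩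
  have h1 : ((t : ℤ) + 1) * Uq t m = t ^ m + 1 := by exact_mod_cast Uq_mul hm
  have h2 : ((t : ℤ) + 1) * Uq t n = t ^ n + 1 := by exact_mod_cast Uq_mul hn
  have h3 : ((t : ℤ) + 1) * Uq t (2 * n - m) = t ^ (2 * n - m) + 1 := by exact_mod_cast Uq_mul hs
  have h0 : ((t : ℤ) + 1) ≠ 0 := by positivity
  apply mul_left_cancel₀ h0
  have e : (t : ℤ) ^ (2 * n - m) * t ^ m = (t ^ n) ^ 2 := by
    rw [← pow_mul, ← pow_add]; congr 1; omega
  linear_combination (t : ℤ) ^ (2 * n - m) * h1 + e - (t ^ n - 1) * h2 - h3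

theorem coprime_Uq {x s n : ℕ} (hn : Odd n) : Nat.Coprime (x ^ s) (Uq (x ^ 2) n) := by
  apply Nat.Coprime.pow_left
  have h1 : Nat.Coprime x ((x ^ 2) ^ n + 1) := by
    rw [← pow_mul]
    exact coprime_add_one (by obtain ⟨a, ha⟩ := hn; omega)
  exact Nat.Coprime.coprime_dvd_right ⟨x ^ 2 + 1, by rw [← Uq_mul hn]; ring⟩ h1

/-- the Euclidean step -/
theorem jac_red {x m n : ℕ} (hm : Odd m) (hn : Odd n) (hmn : n < m) (hc : Nat.Coprime m n) :
    ∃ s, Odd s ∧ s < m ∧ Nat.Coprime s n ∧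
      J(((Uq (x ^ 2) m : ℕ) : ℤ) | Uq (x ^ 2) n) = J(((Uq (x ^ 2) s : ℕ) : ℤ) | Uq (x ^ 2) n) := by
  rcases Nat.lt_or_ge (2 * n) m with h | h
  · refine ⟨m - 2 * n, ?_, ?_, ?_, ?_⟩
    · obtain ⟨a, ha⟩ := hm
      exact ⟨a - n, by omega⟩
    · obtain ⟨a, ha⟩ := hn
      omega
    · have e : m = (m - 2 * n) + n * 2 := by omega
      rw [e] at hc
      exact (Nat.coprime_add_mul_left_left _ _ _).1 hc
    · apply jacobiSym.mod_left'
      rw [Uq_step1 hm hn h, add_comm, Int.add_mul_emod_self_right]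
  · have h' : m < 2 * n := by
      rcases eq_or_lt_of_le h with h1 | h1
      · exfalso
        obtain ⟨a, ha⟩ := hm
        omega
      · exact h1
    refine ⟨2 * n - m, ?_, ?_, ?_, ?_⟩
    · obtain ⟨a, ha⟩ := hm
      exact ⟨n - a - 1, by omega⟩
    · omega
    · refine cop_prime fun l hl h1 h2 => ?_
      have h3 : l ∣ m := by
        have h4 : l ∣ (2 * n - m) + m := by
          rw [Nat.sub_add_cancel h]
          exact h2.mul_left 2
        exact (Nat.dvd_add_right h1).1 h4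
      exact hl.one_lt.ne' (Nat.eq_one_of_dvd_coprimes hc h3 h2)
    · have h1 : J((((x ^ 2 : ℕ) : ℤ)) ^ (2 * n - m) * ((Uq (x ^ 2) m : ℕ) : ℤ) | Uq (x ^ 2) n) =
          J(((Uq (x ^ 2) (2 * n - m) : ℕ) : ℤ) | Uq (x ^ 2) n) := by
        apply jacobiSym.mod_left'
        rw [Uq_step2 hm hn h', add_comm, Int.add_mul_emod_self_right]
      rw [← h1, jacobiSym.mul_left]
      have h2 : J((((x ^ 2 : ℕ) : ℤ)) ^ (2 * n - m) | Uq (x ^ 2) n) = 1 := by
        have e : (((x ^ 2 : ℕ) : ℤ)) ^ (2 * n - m) = (((x ^ (2 * n - m) : ℕ) : ℤ)) ^ 2 := by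
          push_cast
          rw [← pow_mul, ← pow_mul, mul_comm]
        rw [e]
        apply jacobiSym.sq_one'
        rw [Int.gcd_natCast_natCast]
        exact coprime_Uq hn
      rw [h2, one_mul]

theorem jac_one {x : ℕ} (hx : x % 2 = 1) : ∀ k m n : ℕ, m + n = k → Odd m → Odd n →
    Nat.Coprime m n → J(((Uq (x ^ 2) m : ℕ) : ℤ) | Uq (x ^ 2) n) = 1 := by
  intro k
  induction k using Nat.strong_induction_on with
  | _ k ih =>
  intro m n hk hm hn hc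
  rcases lt_trichotomy m n with h | h | h
  · obtain ⟨s, hs, hsm, hsc, hj⟩ := jac_red (x := x) hn hm h hc.symm
    rw [jacobiSym.quadratic_reciprocity_one_mod_four (by have := Uq_mod8 hx hm; omega)
      (by have := Uq_mod8 hx hn; rw [Nat.odd_iff]; omega), hj]
    exact ih (s + m) (by omega) s m rfl hs hm hsc
  · have h1 : n = 1 := by rw [h] at hc; exact (Nat.coprime_self n).1 hc
    rw [h1, Uq_one, jacobiSym.one_right]
  · obtain ⟨s, hs, hsm, hsc, hj⟩ := jac_red (x := x) hm hn h hc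
    rw [hj]
    exact ih (s + n) (by omega) s n rfl hs hn hsc

theorem Uq_cast {x j l : ℕ} (hj : Odd j) (h1 : l ∣ x ^ 2 + 1) :
    ((Uq (x ^ 2) j : ℕ) : ZMod l) = (j : ZMod l) := by
  have hQ := Uq_mul (t := x ^ 2) hj
  generalize Uq (x ^ 2) j = Q at *
  have hne : (-(x : ℤ) ^ 2 - 1) ≠ 0 := by
    have : 0 ≤ (x : ℤ) ^ 2 := by positivity
    intro h
    linarith
  have hsum : (∑ i ∈ Finset.range j, (-(x : ℤ) ^ 2) ^ i) = Q := by
    have h3 := geom_sum_mul (-(x : ℤ) ^ 2) j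
    have h4 : (-(x : ℤ) ^ 2) ^ j - 1 = (Q : ℤ) * (-(x : ℤ) ^ 2 - 1) := by
      rw [hj.neg_pow]
      have h5 : ((x : ℤ) ^ 2 + 1) * Q = ((x : ℤ) ^ 2) ^ j + 1 := by exact_mod_cast hQ
      linear_combination h5
    rw [h4] at h3
    exact mul_right_cancel₀ hne h3
  have hx1 : ((x : ZMod l)) ^ 2 = -1 := dvd_add_one_iff.1 h1
  have h6 : ((Q : ℤ) : ZMod l) = (j : ZMod l) := by
    rw [← hsum]
    push_cast
    rw [hx1]
    simp
  exact_mod_cast h6

/-- `(x ^ (2 r) + 1) / (x ^ 2 + 1)` is not `r` times a square when `r` divides `x ^ 2 + 1` -/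
theorem not_r_sq {x r b : ℕ} (hx : x % 2 = 1) (hr : r.Prime) (hr2 : Odd r) (hd : r ∣ x ^ 2 + 1)
    (h : Uq (x ^ 2) r = r * b ^ 2) : False := by
  have : Fact r.Prime := ⟨hr⟩
  have hchar : ringChar (ZMod r) ≠ 2 := by
    rw [ZMod.ringChar_zmod_n]
    rintro rfl
    exact absurd hr2 (by decide)
  obtain ⟨a, ha⟩ := FiniteField.exists_nonsquare hchar
  obtain ⟨j, hj, hja⟩ : ∃ j : ℕ, Odd j ∧ (j : ZMod r) = a := by
    rcases Nat.even_or_odd a.val with he | ho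
    · exact ⟨a.val + r, he.add_odd hr2, by simp⟩
    · exact ⟨a.val, ho, by simp⟩
  have ha0 : a ≠ 0 := by rintro rfl; exact ha IsSquare.zero
  have hc : Nat.Coprime r j := by
    rw [Nat.Prime.coprime_iff_not_dvd hr]
    intro h1
    apply ha0
    rw [← hja]
    exact (CharP.cast_eq_zero_iff (ZMod r) r j).2 h1
  have h1 : J((j : ℤ) | r) = -1 := by
    rw [← jacobiSym.legendreSym.to_jacobiSym, legendreSym.eq_neg_one_iff]
    push_cast
    rwa [hja]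
  have h2 : J(((Uq (x ^ 2) j : ℕ) : ℤ) | r) = J((j : ℤ) | r) := by
    apply jacobiSym.mod_left'
    have h3 := Uq_cast hj hd
    have h4 : (((Uq (x ^ 2) j : ℕ) : ℤ) : ZMod r) = ((j : ℤ) : ZMod r) := by
      push_cast
      exact h3
    exact (ZMod.intCast_eq_intCast_iff' _ _ _).1 h4
  have h3 := jac_one hx (r + j) r j rfl hr2 hj hc
  have hU8 := Uq_mod8 hx hj
  have h4 : J(((Uq (x ^ 2) j : ℕ) : ℤ) | r) = J((r : ℤ) | Uq (x ^ 2) j) :=
    jacobiSym.quadratic_reciprocity_one_mod_four (by omega) hr2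
  rw [h] at h3
  push_cast at h3
  rw [jacobiSym.mul_left, ← h4, h2, h1, jacobiSym.pow_left] at h3
  have h5 : 0 ≤ J((b : ℤ) | Uq (x ^ 2) j) ^ 2 := sq_nonneg _
  linarith

/-- `x ^ (2 r) + 1 = 2 z ^ 2` with `r` prime forces `x ≤ 1` -/
theorem no_power {x r z : ℕ} (hx : 2 ≤ x) (hr : r.Prime) (h : x ^ (2 * r) + 1 = 2 * z ^ 2) : False := by
  rcases hr.eq_two_or_odd' with rfl | hro
  · have := quart_two (x := x) (z := z) h
    omega
  have hr3 : 3 ≤ r := by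
    have := hr.two_le
    rcases hro with ⟨j, hj⟩
    omega
  have hxodd : x % 2 = 1 := by
    by_contra he
    have h2 : 2 ∣ x ^ (2 * r) := dvd_pow (by omega) (by omega)
    omega
  have hQ : (x ^ 2) ^ r + 1 = (x ^ 2 + 1) * Uq (x ^ 2) r := (Uq_mul hro).symm
  have hQ8 := Uq_mod8 hxodd hro
  have hnr := fun b hd => not_r_sq (b := b) hxodd hr hro hd
  generalize Uq (x ^ 2) r = Q at *
  have hprod : (x ^ 2 + 1) * Q = 2 * z ^ 2 := by rw [← hQ, ← h, ← pow_mul]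
  have hQ0 : Q ≠ 0 := by rintro rfl; omega
  obtain ⟨s, b, hsb, hs⟩ := Nat.sq_mul_squarefree Q
  have hb0 : b ≠ 0 := by rintro rfl; simp at hsb; exact hQ0 hsb.symm
  have hs1 : s ≠ 1 := by
    rintro rfl
    refine pell_pow (x := x) (b := b) (r := r) hx hr3 ?_
    have e1 : (x ^ r) ^ 2 = (x ^ 2) ^ r := by rw [← pow_mul, ← pow_mul, mul_comm]
    rw [e1, hQ, ← hsb]; ring
  have huniq : ∀ l, l.Prime → l ∣ s → l = r ∧ l ∣ x ^ 2 + 1 := by
    intro l hl hls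
    have hlQ : l ∣ Q := hsb ▸ (hls.mul_left _)
    have hl2 : l ≠ 2 := by
      rintro rfl
      omega
    by_cases hlx : l ∣ x ^ 2 + 1
    · exact ⟨(Nat.prime_dvd_prime_iff_eq hl hr).1 (common_dvd hro hl hQ hlx hlQ), hlx⟩
    · exfalso
      refine key (N := z ^ 2) (g := 2) (c := b) (a := s) (b := x ^ 2 + 1) (l := l) hl ?_ hb0 hs.ne_zero
        (by rw [val_sqfree hl hs hls]; exact odd_one) hlx ?_ (IsSquare.sq z)
      · rw [mul_comm, ← hprod, ← hsb]; ring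
      · intro h3
        exact hl2 (prime_eq_of_dvd_two hl h3)
  obtain ⟨l, hl, hls⟩ := Nat.exists_prime_and_dvd hs1
  obtain ⟨hlr, hld⟩ := huniq l hl hls
  rw [hlr] at hls hld
  obtain ⟨c, hc⟩ := hls
  have hc1 : c = 1 := by
    by_contra hc1
    obtain ⟨l', hl', hlc⟩ := Nat.exists_prime_and_dvd hc1
    have h3 := (huniq l' hl' (hc ▸ hlc.mul_left _)).1
    rw [h3] at hlc
    have h4 := hs r (hc ▸ mul_dvd_mul_left r hlc)
    exact hr.one_lt.ne' (Nat.isUnit_iff.1 h4)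
  rw [hc1, mul_one] at hc
  exact hnr b hld (by rw [← hsb, hc]; ring)

/-- `x ^ (2 n) + 1 = 2 z ^ 2` with `n ≥ 2` forces `x ≤ 1` -/
theorem no_power' {x n z : ℕ} (hx : 2 ≤ x) (hn : n ≠ 1) (hn0 : n ≠ 0) (h : x ^ (2 * n) + 1 = 2 * z ^ 2) :
    False := by
  obtain ⟨r, hr, m, rfl⟩ := Nat.exists_prime_and_dvd hn
  have hm : m ≠ 0 := by rintro rfl; exact hn0 rfl
  refine no_power (x := x ^ m) (z := z) (hx.trans (Nat.le_self_pow hm x)) hr ?_
  rw [← h, ← pow_mul]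
  congr 2
  ring

end Pool.Agent.H373SQ
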