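import Mathlib
import Pool.Agent.H373SQ.Small

set_option autoImplicit false

namespace Pool.Agent.H373SQ

theorem copEB (u : ℕ) : Nat.Coprime (u ^ 2 + 3 * u + 3) (u ^ 2 + 2 * u + 2) := by
  refine cop_prime fun l hl h1 h2 => prime_dvd_one hl ?_
  have h3 : l ∣ u + 1 := by
    rw [show u ^ 2 + 3 * u + 3 = (u ^ 2 + 2 * u + 2) + (u + 1) by ring] at h1
    exact (Nat.dvd_add_right h2).1 h1
  rw [show u ^ 2 + 2 * u + 2 = (u + 1) * (u + 1) + 1 by ring] at h2
  exact (Nat.dvd_add_right (h3.mul_right _)).1 h2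

theorem copTE (u : ℕ) : Nat.Coprime (u ^ 2 + u + 1) (u ^ 2 + 2 * u + 2) := by
  refine cop_prime fun l hl h1 h2 => prime_dvd_one hl ?_
  have h3 : l ∣ u + 1 := by
    rw [show u ^ 2 + 2 * u + 2 = (u ^ 2 + u + 1) + (u + 1) by ring] at h2
    exact (Nat.dvd_add_right h1).1 h2
  rw [show u ^ 2 + u + 1 = (u + 1) * u + 1 by ring] at h1
  exact (Nat.dvd_add_right (h3.mul_right _)).1 h1

theorem prime_dvd_four {l : ℕ} (hl : l.Prime) (h : l ∣ 4) : l = 2 := by
  have h1 : l ∣ 2 ^ 2 := h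
  exact prime_eq_of_dvd_two hl (hl.dvd_of_dvd_pow h1)

theorem E_mod_two (u : ℕ) : (u ^ 2 + 2 * u + 2) % 2 = u % 2 := by
  rcases Nat.even_or_odd u with ⟨m, hm⟩ | ⟨m, hm⟩
  · have : u ^ 2 + 2 * u + 2 = 2 * (2 * m ^ 2 + 2 * m + 1) := by rw [hm]; ring
    omega
  · have : u ^ 2 + 2 * u + 2 = 2 * (2 * m ^ 2 + 4 * m + 2) + 1 := by rw [hm]; ring
    omega

/-- the common last step for `PSL(4, q)` and `PSU(4, q)`: `N g = D ^ 2 (2 k)` -/
theorem last_step {N g D k m : ℕ} (hD : D ≠ 0) (hN : IsSquare N) (h : N * g = D ^ 2 * (2 * k))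
    (hm : m % 2 = 0) (hkm : m = 3 * k) (hg : g = Nat.gcd 4 m) : ∃ b, k = 2 * b ^ 2 := by
  obtain ⟨t, ht⟩ := hN
  have hcase : g = 4 ∨ (g = 2 ∧ m % 4 = 2) := by
    by_cases h4 : m % 4 = 0
    · left
      rw [hg]
      exact Nat.gcd_eq_left (Nat.dvd_of_mod_eq_zero h4)
    · right
      have h2 : m % 4 = 2 := by omega
      refine ⟨?_, h2⟩
      rw [hg, Nat.gcd_rec, h2]
      rfl
  rcases hcase with h4 | ⟨h4, h5⟩
  · refine two_sq_of hD (t := t) ?_
    have h6 : D ^ 2 * (2 * k) = 2 * (2 * t ^ 2) := by rw [← h, h4, ht]; ring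
    have h7 : D ^ 2 * (2 * k) = 2 * (D ^ 2 * k) := by ring
    omega
  · exfalso
    have h6 : D ^ 2 * k = t ^ 2 := by
      have h7 : D ^ 2 * (2 * k) = 2 * (D ^ 2 * k) := by ring
      have h8 : D ^ 2 * (2 * k) = 2 * t ^ 2 := by rw [← h, h4, ht]; ring
      omega
    obtain ⟨y, hy⟩ := sq_of_mul hD h6
    have h9 := sq_mod_8 y
    have h10 : y * y = y ^ 2 := by ring
    rw [h10] at hy
    omega

theorem psl4 {q : ℕ} (hq2 : 2 ≤ q) : ¬ IsSquare (ordPSL 4 q) := by
  intro h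
  obtain ⟨u, rfl⟩ : ∃ u, q = u + 1 := ⟨q - 1, by omega⟩
  have hdv : Nat.gcd 4 (u + 1 - 1) ∣ numPSL 4 (u + 1) := by
    rw [numPSL4]
    exact (Nat.gcd_dvd_right _ _).trans (by
      simp only [Nat.add_sub_cancel]
      exact (Dvd.intro _ rfl : u ∣ u * (u + 2)).trans ((Dvd.intro _ rfl).trans (Dvd.intro_left _ rfl)))
  have hN := Nat.div_mul_cancel hdv
  rw [← ordPSL, numPSL4] at hN
  simp only [Nat.add_sub_cancel] at hN
  set N := ordPSL 4 (u + 1) with hNdef
  set C := (u + 1) ^ 3 * (u * (u + 2)) with hC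
  have hC0 : C ≠ 0 := mul_ne_zero (by positivity) (mul_ne_zero (by omega) (by omega))
  have hE := E_mod_two u
  have hN2 : N * Nat.gcd 4 u = C ^ 2 * (u * ((u ^ 2 + 3 * u + 3) * (u ^ 2 + 2 * u + 2))) := by
    rw [hN, hC]; ring
  rcases Nat.mod_two_eq_zero_or_one u with hu2 | hu2
  · by_cases h3 : 3 ∣ u
    · obtain ⟨k, hk⟩ := h3
      have hB : u ^ 2 + 3 * u + 3 = 3 * (3 * k ^ 2 + 3 * k + 1) := by rw [hk]; ring
      set B := 3 * k ^ 2 + 3 * k + 1 with hBdef
      have hB3 : B % 3 = 1 := by rw [hBdef]; omega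
      have hBE : Nat.Coprime B (u ^ 2 + 2 * u + 2) :=
        Nat.Coprime.coprime_dvd_left (by rw [hB]; exact Dvd.intro_left _ rfl) (copEB u)
      have hBk : Nat.Coprime B k := by
        refine cop_prime fun l hl h1 h2 => prime_dvd_one hl ?_
        rw [hBdef, show 3 * k ^ 2 + 3 * k + 1 = k * (3 * k + 3) + 1 by ring] at h1
        exact (Nat.dvd_add_right (h2.mul_right _)).1 h1
      by_cases hsq : IsSquare B
      · obtain ⟨w, hw⟩ := hsq
        obtain ⟨e, he⟩ : ∃ e, u ^ 2 + 2 * u + 2 = 2 * e := ⟨(u ^ 2 + 2 * u + 2) / 2, by omega⟩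
        have heodd : e % 2 = 1 := by
          obtain ⟨v, hv⟩ : ∃ v, u = 2 * v := ⟨u / 2, by omega⟩
          have : u ^ 2 + 2 * u + 2 = 2 * (2 * (v ^ 2 + v) + 1) := by rw [hv]; ring
          omega
        have hek : ∀ l, l.Prime → l ∣ e → l ∣ u → False := by
          intro l hl h1 h2
          have h4 : l ∣ 2 := by
            have h5 : l ∣ u ^ 2 + 2 * u + 2 := he ▸ (h1.mul_left 2)
            rw [show u ^ 2 + 2 * u + 2 = u * (u + 2) + 2 by ring] at h5
            exact (Nat.dvd_add_right (h2.mul_right _)).1 h5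
          have h5 := prime_eq_of_dvd_two hl h4
          rw [h5] at h1
          omega
        have hw0 : w ≠ 0 := by rintro rfl; omega
        by_cases hesq : IsSquare e
        · obtain ⟨z, hz⟩ := hesq
          have hz0 : z ≠ 0 := by rintro rfl; omega
          obtain ⟨b, hb⟩ := last_step (N := N) (g := Nat.gcd 4 u) (D := 3 * C * w * z) (k := k) (m := u)
            (by positivity) h (by rw [hN2, hB, he, hw, hz, hk]; ring) hu2 hk rfl
          refine cube_sub (q := u + 1) (y := 3 * b * w) hq2 ?_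
          have e1 : (u + 1) ^ 3 = u * (u ^ 2 + 3 * u + 3) + 1 := by ring
          rw [e1, hB, hw]
          nth_rw 1 [hk]
          rw [hb]
          ring
        · refine key2 (N := N) (g := Nat.gcd 4 u) (c := 3 * C * w) (a := e) (b := 2 * k) ?_
            (by positivity) hesq ?_ ?_ h
          · rw [hN2, hB, he, hw, hk]; ring
          · refine cop_prime fun l hl h1 h2 => ?_
            rcases (Nat.Prime.dvd_mul hl).1 h2 with h4 | h4
            · have h5 := prime_eq_of_dvd_two hl h4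
              rw [h5] at h1
              omega
            · exact hek l hl h1 (hk ▸ h4.mul_left 3)
          · exact cop_prime fun l hl h1 h2 => hek l hl h1 (h2.trans (Nat.gcd_dvd_right _ _))
      · refine key2 (N := N) (g := Nat.gcd 4 u) (c := 3 * C) (a := B) (b := k * (u ^ 2 + 2 * u + 2)) ?_
          (by positivity) hsq (Nat.Coprime.mul_right hBk hBE) ?_ h
        · rw [hN2, hB]; nth_rw 1 [hk]; ring
        · refine cop_prime fun l hl h1 h2 => ?_
          have h4 : l ∣ 3 * k := hk ▸ (h2.trans (Nat.gcd_dvd_right _ _))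
          rcases (Nat.Prime.dvd_mul hl).1 h4 with h5 | h5
          · have h6 := (Nat.prime_dvd_prime_iff_eq hl Nat.prime_three).1 h5
            rw [h6] at h1
            omega
          · exact hl.one_lt.ne' (Nat.eq_one_of_dvd_coprimes hBk h1 h5)
    · have hBu : ∀ l, l.Prime → l ∣ u ^ 2 + 3 * u + 3 → l ∣ u → False := by
        intro l hl h1 h2
        rw [show u ^ 2 + 3 * u + 3 = u * (u + 3) + 3 by ring] at h1
        have h5 : l ∣ 3 := (Nat.dvd_add_right (h2.mul_right _)).1 h1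
        have h6 := (Nat.prime_dvd_prime_iff_eq hl Nat.prime_three).1 h5
        rw [h6] at h2
        exact h3 h2
      refine key2 (N := N) (g := Nat.gcd 4 u) (c := C) (a := u ^ 2 + 3 * u + 3)
        (b := u * (u ^ 2 + 2 * u + 2)) ?_ hC0 ?_ ?_ ?_ h
      · rw [hN, hC]; ring
      · have := not_sq_phi3 (q := u + 1) (by omega)
        rwa [show (u + 1) ^ 2 + (u + 1) + 1 = u ^ 2 + 3 * u + 3 by ring] at this
      · exact Nat.Coprime.mul_right (cop_prime fun l hl h1 h2 => hBu l hl h1 h2) (copEB u)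
      · exact cop_prime fun l hl h1 h2 => hBu l hl h1 (h2.trans (Nat.gcd_dvd_right _ _))
  · have hEu : ∀ l, l.Prime → l ∣ u ^ 2 + 2 * u + 2 → l ∣ u → False := by
      intro l hl h1 h2
      have h4 : l ∣ 2 := by
        have h5 := h1
        rw [show u ^ 2 + 2 * u + 2 = u * (u + 2) + 2 by ring] at h5
        exact (Nat.dvd_add_right (h2.mul_right _)).1 h5
      have h5 := prime_eq_of_dvd_two hl h4
      rw [h5] at h2
      omega
    refine key2 (N := N) (g := Nat.gcd 4 u) (c := C) (a := u ^ 2 + 2 * u + 2)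
      (b := u * (u ^ 2 + 3 * u + 3)) ?_ hC0 ?_ ?_ ?_ h
    · rw [hN, hC]; ring
    · have := not_sq_succ (q := u + 1) (by omega)
      rwa [show (u + 1) ^ 2 + 1 = u ^ 2 + 2 * u + 2 by ring] at this
    · exact Nat.Coprime.mul_right (cop_prime fun l hl h1 h2 => hEu l hl h1 h2) (copEB u).symm
    · exact cop_prime fun l hl h1 h2 => hEu l hl h1 (h2.trans (Nat.gcd_dvd_right _ _))

theorem psu4 {q : ℕ} (hq2 : 2 ≤ q) : ¬ IsSquare (ordPSU 4 q) := by
  intro h
  obtain ⟨u, rfl⟩ : ∃ u, q = u + 1 := ⟨q - 1, by omega⟩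
  have hdv : Nat.gcd 4 (u + 1 + 1) ∣ numPSU 4 (u + 1) := by
    rw [numPSU4]
    exact (Nat.gcd_dvd_right _ _).trans
      ((Dvd.intro_left _ rfl : u + 2 ∣ u * (u + 2)).trans ((Dvd.intro _ rfl).trans (Dvd.intro_left _ rfl)))
  have hN := Nat.div_mul_cancel hdv
  rw [← ordPSU, numPSU4] at hN
  have e2 : u + 1 + 1 = u + 2 := rfl
  rw [e2] at hN
  set N := ordPSU 4 (u + 1) with hNdef
  set C := (u + 1) ^ 3 * (u * (u + 2)) with hC
  have hC0 : C ≠ 0 := mul_ne_zero (by positivity) (mul_ne_zero (by omega) (by omega))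
  have hE := E_mod_two u
  have hN2 : N * Nat.gcd 4 (u + 2) = C ^ 2 * ((u + 2) * ((u ^ 2 + u + 1) * (u ^ 2 + 2 * u + 2))) := by
    rw [hN, hC]; ring
  rcases Nat.mod_two_eq_zero_or_one u with hu2 | hu2
  · by_cases h3 : 3 ∣ u + 2
    · obtain ⟨k, hk⟩ : ∃ k, u = 3 * k + 1 := by
        obtain ⟨d, hd⟩ := h3
        exact ⟨d - 1, by omega⟩
      have hk2 : u + 2 = 3 * (k + 1) := by omega
      have hB : u ^ 2 + u + 1 = 3 * (3 * k ^ 2 + 3 * k + 1) := by rw [hk]; ring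
      set B := 3 * k ^ 2 + 3 * k + 1 with hBdef
      have hB3 : B % 3 = 1 := by rw [hBdef]; omega
      have hBE : Nat.Coprime B (u ^ 2 + 2 * u + 2) :=
        Nat.Coprime.coprime_dvd_left (by rw [hB]; exact Dvd.intro_left _ rfl) (copTE u)
      have hBk : Nat.Coprime B (k + 1) := by
        refine cop_prime fun l hl h1 h2 => prime_dvd_one hl ?_
        rw [hBdef, show 3 * k ^ 2 + 3 * k + 1 = (k + 1) * (3 * k) + 1 by ring] at h1
        exact (Nat.dvd_add_right (h2.mul_right _)).1 h1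
      by_cases hsq : IsSquare B
      · obtain ⟨w, hw⟩ := hsq
        obtain ⟨e, he⟩ : ∃ e, u ^ 2 + 2 * u + 2 = 2 * e := ⟨(u ^ 2 + 2 * u + 2) / 2, by omega⟩
        have heodd : e % 2 = 1 := by
          obtain ⟨v, hv⟩ : ∃ v, u = 2 * v := ⟨u / 2, by omega⟩
          have : u ^ 2 + 2 * u + 2 = 2 * (2 * (v ^ 2 + v) + 1) := by rw [hv]; ring
          omega
        have hek : ∀ l, l.Prime → l ∣ e → l ∣ u + 2 → False := by
          intro l hl h1 h2
          have h4 : l ∣ 2 := by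
            have h5 : l ∣ u ^ 2 + 2 * u + 2 := he ▸ (h1.mul_left 2)
            rw [show u ^ 2 + 2 * u + 2 = (u + 2) * u + 2 by ring] at h5
            exact (Nat.dvd_add_right (h2.mul_right _)).1 h5
          have h5 := prime_eq_of_dvd_two hl h4
          rw [h5] at h1
          omega
        have hw0 : w ≠ 0 := by rintro rfl; omega
        by_cases hesq : IsSquare e
        · obtain ⟨z, hz⟩ := hesq
          have hz0 : z ≠ 0 := by rintro rfl; omega
          obtain ⟨b, hb⟩ := last_step (N := N) (g := Nat.gcd 4 (u + 2)) (D := 3 * C * w * z) (k := k + 1)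
            (m := u + 2) (by positivity) h (by rw [hN2, hB, he, hw, hz, hk2]; ring) (by omega) hk2 rfl
          have h23 := cube_add (q := u + 1) (y := 3 * b * w) hq2 (by
            have e1 : (u + 1) ^ 3 + 1 = (u + 2) * (u ^ 2 + u + 1) := by ring
            rw [e1, hB, hw, hk2, hb]
            ring)
          have hu22 : u = 22 := by omega
          rw [hu22] at he
          have h265 : z * z = 265 := by omega
          have hz16 : z < 17 := by nlinarith
          interval_cases z <;> omega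
        · refine key2 (N := N) (g := Nat.gcd 4 (u + 2)) (c := 3 * C * w) (a := e) (b := 2 * (k + 1)) ?_
            (by positivity) hesq ?_ ?_ h
          · rw [hN2, hB, he, hw, hk2]; ring
          · refine cop_prime fun l hl h1 h2 => ?_
            rcases (Nat.Prime.dvd_mul hl).1 h2 with h4 | h4
            · have h5 := prime_eq_of_dvd_two hl h4
              rw [h5] at h1
              omega
            · exact hek l hl h1 (hk2 ▸ h4.mul_left 3)
          · exact cop_prime fun l hl h1 h2 => hek l hl h1 (h2.trans (Nat.gcd_dvd_right _ _))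
      · refine key2 (N := N) (g := Nat.gcd 4 (u + 2)) (c := 3 * C) (a := B)
          (b := (k + 1) * (u ^ 2 + 2 * u + 2)) ?_
          (by positivity) hsq (Nat.Coprime.mul_right hBk hBE) ?_ h
        · rw [hN2, hB, hk2]; ring
        · refine cop_prime fun l hl h1 h2 => ?_
          have h4 : l ∣ 3 * (k + 1) := hk2 ▸ (h2.trans (Nat.gcd_dvd_right _ _))
          rcases (Nat.Prime.dvd_mul hl).1 h4 with h5 | h5
          · have h6 := (Nat.prime_dvd_prime_iff_eq hl Nat.prime_three).1 h5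
            rw [h6] at h1
            omega
          · exact hl.one_lt.ne' (Nat.eq_one_of_dvd_coprimes hBk h1 h5)
    · have hBu : ∀ l, l.Prime → l ∣ u ^ 2 + u + 1 → l ∣ u + 2 → False := by
        intro l hl h1 h2
        have h4 : l ∣ (u + 2) * (u + 2) + 3 := by
          rw [show (u + 2) * (u + 2) + 3 = (u ^ 2 + u + 1) + (u + 2) * 3 by ring]
          exact dvd_add h1 (h2.mul_right _)
        have h5 : l ∣ 3 := (Nat.dvd_add_right (h2.mul_right _)).1 h4
        have h6 := (Nat.prime_dvd_prime_iff_eq hl Nat.prime_three).1 h5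
        rw [h6] at h2
        exact h3 h2
      refine key2 (N := N) (g := Nat.gcd 4 (u + 2)) (c := C) (a := u ^ 2 + u + 1)
        (b := (u + 2) * (u ^ 2 + 2 * u + 2)) ?_ hC0 ?_ ?_ ?_ h
      · rw [hN2]; ring
      · exact not_sq_phi3 (by omega)
      · exact Nat.Coprime.mul_right (cop_prime fun l hl h1 h2 => hBu l hl h1 h2) (copTE u)
      · exact cop_prime fun l hl h1 h2 => hBu l hl h1 (h2.trans (Nat.gcd_dvd_right _ _))
  · have hEu : ∀ l, l.Prime → l ∣ u ^ 2 + 2 * u + 2 → l ∣ u + 2 → False := by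
      intro l hl h1 h2
      have h4 : l ∣ 2 := by
        have h5 := h1
        rw [show u ^ 2 + 2 * u + 2 = (u + 2) * u + 2 by ring] at h5
        exact (Nat.dvd_add_right (h2.mul_right _)).1 h5
      have h5 := prime_eq_of_dvd_two hl h4
      rw [h5] at h2
      omega
    refine key2 (N := N) (g := Nat.gcd 4 (u + 2)) (c := C) (a := u ^ 2 + 2 * u + 2)
      (b := (u + 2) * (u ^ 2 + u + 1)) ?_ hC0 ?_ ?_ ?_ h
    · rw [hN2]; ring
    · have := not_sq_succ (q := u + 1) (by omega)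
      rwa [show (u + 1) ^ 2 + 1 = u ^ 2 + 2 * u + 2 by ring] at this
    · exact Nat.Coprime.mul_right (cop_prime fun l hl h1 h2 => hEu l hl h1 h2) (copTE u).symm
    · exact cop_prime fun l hl h1 h2 => hEu l hl h1 (h2.trans (Nat.gcd_dvd_right _ _))

theorem phi3_sq {u : ℕ} (hu : 1 ≤ u) : ¬ IsSquare ((u + 1) ^ 4 + (u + 1) ^ 2 + 1) := by
  have := not_sq_phi3 (q := (u + 1) ^ 2) (by nlinarith)
  rwa [show ((u + 1) ^ 2) ^ 2 = (u + 1) ^ 4 by ring] at this

theorem P12_add (u : ℕ) : (u ^ 4 + 4 * u ^ 3 + 5 * u ^ 2 + 2 * u + 1) + (u + 1) ^ 2 = ((u + 1) ^ 2) ^ 2 + 1 := by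
  ring

theorem not_sq_P12 {u : ℕ} (hu : 1 ≤ u) : ¬ IsSquare (u ^ 4 + 4 * u ^ 3 + 5 * u ^ 2 + 2 * u + 1) :=
  not_sq_phi6 (q := (u + 1) ^ 2) (by nlinarith) (P12_add u)

theorem d4 {q : ℕ} (hq2 : 2 ≤ q) : ¬ IsSquare (ordD 4 q) := by
  obtain ⟨u, rfl⟩ : ∃ u, q = u + 1 := ⟨q - 1, by omega⟩
  have hdv : Nat.gcd 4 ((u + 1) ^ 4 - 1) ∣ numD 4 (u + 1) := by
    rw [numD]
    exact (Nat.gcd_dvd_right _ _).trans ((Dvd.intro _ rfl).trans (Dvd.intro_left _ rfl))
  have hN := Nat.div_mul_cancel hdv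
  rw [← ordD, numD4] at hN
  refine key2 (N := ordD 4 (u + 1)) (g := Nat.gcd 4 ((u + 1) ^ 4 - 1))
    (c := (u + 1) ^ 6 * (u * (u + 2)) ^ 2 * (u ^ 2 + 2 * u + 2))
    (a := (u + 1) ^ 4 + (u + 1) ^ 2 + 1) (b := 1) ?_ ?_ (phi3_sq (by omega)) (Nat.coprime_one_right _) ?_
  · rw [hN]; ring
  · exact mul_ne_zero (mul_ne_zero (by positivity) (pow_ne_zero _ (mul_ne_zero (by omega) (by omega))))
      (by positivity)
  · refine cop_prime fun l hl h1 h2 => ?_
    have h3 := prime_dvd_four hl (h2.trans (Nat.gcd_dvd_left _ _))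
    rw [h3] at h1
    have e : (u + 1) ^ 4 + (u + 1) ^ 2 = (u + 1) ^ 2 * ((u + 1) ^ 2 + 1) := by ring
    have h4 : 2 ∣ (u + 1) ^ 4 + (u + 1) ^ 2 := by
      rw [e]
      exact even_iff_two_dvd.1 (Nat.even_mul_succ_self _)
    omega

theorem sz {q : ℕ} (hq2 : 2 ≤ q) (he : Even q) : ¬ IsSquare (ordSz q) := by
  obtain ⟨u, rfl⟩ : ∃ u, q = u + 1 := ⟨q - 1, by omega⟩
  refine key2 (N := ordSz (u + 1)) (g := 1) (c := u + 1) (a := (u + 1) ^ 2 + 1) (b := u) ?_ (by omega)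
    (not_sq_succ (by omega)) ?_ (Nat.coprime_one_right _)
  · rw [ordSz, Nat.add_sub_cancel]; ring
  · refine cop_prime fun l hl h1 h2 => ?_
    rw [show (u + 1) ^ 2 + 1 = u * (u + 2) + 2 by ring] at h1
    have h3 : l ∣ 2 := (Nat.dvd_add_right (h2.mul_right _)).1 h1
    have h5 := prime_eq_of_dvd_two hl h3
    rw [h5] at h2
    obtain ⟨m, hm⟩ := he
    omega

theorem not_sq_odd_pow {p m : ℕ} (hp : p.Prime) {s : ℕ} (h : p ^ (2 * m + 1) = s ^ 2) : False := by
  have h1 : (p ^ m) ^ 2 * p = s ^ 2 := by rw [← h]; ring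
  obtain ⟨r, hr⟩ := sq_of_mul (pow_ne_zero _ hp.ne_zero) h1
  have h2 := hp.prime.irreducible
  exact (Prime.not_isSquare hp.prime) ⟨r, hr⟩

theorem rg {m : ℕ} : ¬ IsSquare (ordRG (3 ^ (2 * m + 1))) := by
  intro h
  have hq : IsPrimePow (3 ^ (2 * m + 1)) := Nat.prime_three.isPrimePow.pow (by omega)
  have hq2 : 2 ≤ 3 ^ (2 * m + 1) := hq.two_le
  obtain ⟨s, hs, hqs⟩ := sq_of_odd_exp (q := 3 ^ (2 * m + 1)) (N := ordRG (3 ^ (2 * m + 1))) (g := 1)
    (b := ((3 ^ (2 * m + 1)) ^ 3 + 1) * ((3 ^ (2 * m + 1)) ^ 1 - 1)) (e := 3) hq (by decide)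
    (by rw [ordRG, pow_one]; ring)
    (Nat.Coprime.mul_right (coprime_add_one (by norm_num)) (coprime_sub_one (by omega) (by norm_num)))
    (Nat.coprime_one_right _)
    (mul_ne_zero (by positivity) (sub_one_ne_zero hq2 (by norm_num))) h
  exact not_sq_odd_pow Nat.prime_three hqs

theorem copTP (u : ℕ) : Nat.Coprime (u ^ 2 + u + 1) (u ^ 4 + 4 * u ^ 3 + 5 * u ^ 2 + 2 * u + 1) := by
  refine cop_prime fun l hl h1 h2 => prime_dvd_one hl ?_
  have h3 : l ∣ (u ^ 4 + 4 * u ^ 3 + 5 * u ^ 2 + 2 * u + 1) + 2 * u := by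
    rw [show (u ^ 4 + 4 * u ^ 3 + 5 * u ^ 2 + 2 * u + 1) + 2 * u = (u ^ 2 + u + 1) * (u ^ 2 + 3 * u + 1) by ring]
    exact h1.mul_right _
  have h4 : l ∣ 2 * u := (Nat.dvd_add_right h2).1 h3
  rcases (Nat.Prime.dvd_mul hl).1 h4 with h5 | h5
  · exfalso
    have h6 := prime_eq_of_dvd_two hl h5
    rw [h6] at h1
    have h7 : 2 ∣ u ^ 2 + u := by
      rw [show u ^ 2 + u = u * (u + 1) by ring]
      exact even_iff_two_dvd.1 (Nat.even_mul_succ_self _)
    omega
  · rw [show u ^ 2 + u + 1 = u * (u + 1) + 1 by ring] at h1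
    exact (Nat.dvd_add_right (h5.mul_right _)).1 h1

theorem rf {q : ℕ} (hq2 : 2 ≤ q) : ¬ IsSquare (ordRF q) := by
  obtain ⟨u, rfl⟩ : ∃ u, q = u + 1 := ⟨q - 1, by omega⟩
  refine key2 (N := ordRF (u + 1)) (g := 1) (c := (u + 1) ^ 6 * (u * (u + 2)) * (u ^ 2 + 2 * u + 2))
    (a := u ^ 2 + u + 1) (b := u ^ 4 + 4 * u ^ 3 + 5 * u ^ 2 + 2 * u + 1) ?_ ?_
    (not_sq_phi3 (by omega)) (copTP u) (Nat.coprime_one_right _)
  · rw [ordRF, pm4, Nat.add_sub_cancel]; ring
  · exact mul_ne_zero (mul_ne_zero (by positivity) (mul_ne_zero (by omega) (by omega))) (by positivity)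

theorem t3D4 {q : ℕ} (hq2 : 2 ≤ q) : ¬ IsSquare (ord3D4 q) := by
  obtain ⟨u, rfl⟩ : ∃ u, q = u + 1 := ⟨q - 1, by omega⟩
  refine key2 (N := ord3D4 (u + 1)) (g := 1)
    (c := (u + 1) ^ 6 * (u * (u + 2)) * ((u + 1) ^ 4 + (u + 1) ^ 2 + 1))
    (a := u ^ 4 + 4 * u ^ 3 + 5 * u ^ 2 + 2 * u + 1) (b := 1) ?_ ?_
    (not_sq_P12 (by omega)) (Nat.coprime_one_right _) (Nat.coprime_one_right _)
  · rw [ord3D4, pm6, pm2]; ring
  · exact mul_ne_zero (mul_ne_zero (by positivity) (mul_ne_zero (by omega) (by omega))) (by positivity)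

theorem g2 {q : ℕ} (hq2 : 2 ≤ q) : ¬ IsSquare (ordG2 q) := by
  obtain ⟨u, rfl⟩ : ∃ u, q = u + 1 := ⟨q - 1, by omega⟩
  refine key2 (N := ordG2 (u + 1)) (g := 1) (c := (u + 1) ^ 3 * (u * (u + 2)))
    (a := (u + 1) ^ 4 + (u + 1) ^ 2 + 1) (b := 1) ?_ ?_
    (phi3_sq (by omega)) (Nat.coprime_one_right _) (Nat.coprime_one_right _)
  · rw [ordG2, pm6, pm2]; ring
  · exact mul_ne_zero (by positivity) (mul_ne_zero (by omega) (by omega))

theorem f4 {q : ℕ} (hq2 : 2 ≤ q) : ¬ IsSquare (ordF4 q) := by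
  obtain ⟨u, rfl⟩ : ∃ u, q = u + 1 := ⟨q - 1, by omega⟩
  refine key2 (N := ordF4 (u + 1)) (g := 1)
    (c := (u + 1) ^ 12 * (u * (u + 2)) ^ 2 * (u ^ 2 + 2 * u + 2) * ((u + 1) ^ 4 + (u + 1) ^ 2 + 1))
    (a := u ^ 4 + 4 * u ^ 3 + 5 * u ^ 2 + 2 * u + 1) (b := (u + 1) ^ 4 + 1) ?_ ?_
    (not_sq_P12 (by omega)) ?_ (Nat.coprime_one_right _)
  · rw [ordF4, pm12, pm8, pm6, pm2]; ring
  · exact mul_ne_zero (mul_ne_zero (mul_ne_zero (by positivity)
      (pow_ne_zero _ (mul_ne_zero (by omega) (by omega)))) (by positivity)) (by positivity)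
  · refine cop_prime fun l hl h1 h2 => prime_dvd_one hl ?_
    have h3 : l ∣ (u + 1) ^ 2 := by
      have e := P12_add u
      rw [show ((u + 1) ^ 2) ^ 2 + 1 = (u + 1) ^ 4 + 1 by ring] at e
      rw [← e] at h2
      exact (Nat.dvd_add_right h1).1 h2
    have h4 : l ∣ (u + 1) ^ 4 := h3.trans ⟨(u + 1) ^ 2, by ring⟩
    exact (Nat.dvd_add_right h4).1 h2

end Pool.Agent.H373SQ
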