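import Mathlib
import Pool.Agent.H373SQ.Small2
import Pool.Agent.H373SQ.Power

set_option autoImplicit false

namespace Pool.Agent.H373SQ

/-- the orders of the 26 sporadic simple groups -/
def sporadicOrders : List ℕ := [
   2 ^ 4 * 3 ^ 2 * 5 * 11,  -- M11
   2 ^ 6 * 3 ^ 3 * 5 * 11,  -- M12
   2 ^ 7 * 3 ^ 2 * 5 * 7 * 11,  -- M22
   2 ^ 7 * 3 ^ 2 * 5 * 7 * 11 * 23,  -- M23
   2 ^ 10 * 3 ^ 3 * 5 * 7 * 11 * 23,  -- M24
   2 ^ 3 * 3 * 5 * 7 * 11 * 19,  -- J1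
   2 ^ 7 * 3 ^ 3 * 5 ^ 2 * 7,  -- J2
   2 ^ 7 * 3 ^ 5 * 5 * 17 * 19,  -- J3
   2 ^ 21 * 3 ^ 3 * 5 * 7 * 11 ^ 3 * 23 * 29 * 31 * 37 * 43,  -- J4
   2 ^ 9 * 3 ^ 2 * 5 ^ 3 * 7 * 11,  -- HS
   2 ^ 7 * 3 ^ 6 * 5 ^ 3 * 7 * 11,  -- McL
   2 ^ 10 * 3 ^ 3 * 5 ^ 2 * 7 ^ 3 * 17,  -- He
   2 ^ 14 * 3 ^ 3 * 5 ^ 3 * 7 * 13 * 29,  -- Ru
   2 ^ 13 * 3 ^ 7 * 5 ^ 2 * 7 * 11 * 13,  -- Suz
   2 ^ 9 * 3 ^ 4 * 5 * 7 ^ 3 * 11 * 19 * 31,  -- ON
   2 ^ 10 * 3 ^ 7 * 5 ^ 3 * 7 * 11 * 23,  -- Co3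
   2 ^ 18 * 3 ^ 6 * 5 ^ 3 * 7 * 11 * 23,  -- Co2
   2 ^ 21 * 3 ^ 9 * 5 ^ 4 * 7 ^ 2 * 11 * 13 * 23,  -- Co1
   2 ^ 17 * 3 ^ 9 * 5 ^ 2 * 7 * 11 * 13,  -- Fi22
   2 ^ 18 * 3 ^ 13 * 5 ^ 2 * 7 * 11 * 13 * 17 * 23,  -- Fi23
   2 ^ 21 * 3 ^ 16 * 5 ^ 2 * 7 ^ 3 * 11 * 13 * 17 * 23 * 29,  -- Fi24'
   2 ^ 14 * 3 ^ 6 * 5 ^ 6 * 7 * 11 * 19,  -- HN
   2 ^ 8 * 3 ^ 7 * 5 ^ 6 * 7 * 11 * 31 * 37 * 67,  -- Ly
   2 ^ 15 * 3 ^ 10 * 5 ^ 3 * 7 ^ 2 * 13 * 19 * 31,  -- Th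
   2 ^ 41 * 3 ^ 13 * 5 ^ 6 * 7 ^ 2 * 11 * 13 * 17 * 19 * 23 * 31 * 47,  -- B
   2 ^ 46 * 3 ^ 20 * 5 ^ 9 * 7 ^ 6 * 11 ^ 2 * 13 ^ 3 * 17 * 19 * 23 * 29 * 31 * 41 * 47 * 59 * 71]  -- M

theorem not_sq_of_exact {N l : ℕ} (hl : l.Prime) (h1 : l ∣ N) (h2 : ¬ l * l ∣ N) : ¬ IsSquare N := by
  rintro ⟨t, rfl⟩
  have h3 : l ∣ t := by
    rcases (Nat.Prime.dvd_mul hl).1 h1 with h | h <;> exact h
  exact h2 (mul_dvd_mul h3 h3)

theorem sporadic_exact : ∀ N ∈ sporadicOrders, ∃ l ∈ [7, 11, 13, 17, 23], l ∣ N ∧ ¬ l * l ∣ N := by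
  decide

theorem sporadic_not_sq {N : ℕ} (h : N ∈ sporadicOrders) : ¬ IsSquare N := by
  obtain ⟨l, hl, h1, h2⟩ := sporadic_exact N h
  refine not_sq_of_exact ?_ h1 h2
  simp only [List.mem_cons, List.not_mem_nil, or_false] at hl
  rcases hl with rfl | rfl | rfl | rfl | rfl <;> norm_num

theorem tits_not_sq : ¬ IsSquare (17971200 : ℕ) :=
  not_sq_of_exact (l := 13) (by norm_num) (by norm_num) (by norm_num)

theorem alt_not_sq {n : ℕ} (hn : 5 ≤ n) : ¬ IsSquare (n.factorial / 2) := by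
  obtain ⟨p, hp, h1, h2⟩ := Nat.exists_prime_lt_and_le_two_mul (n / 2) (by omega)
  have hpn : p ≤ n := by omega
  have hp3 : 3 ≤ p := by omega
  have h2p : n < 2 * p := by omega
  have : Fact p.Prime := ⟨hp⟩
  have hv : padicValNat p n.factorial = 1 := by
    have hlog : Nat.log p n < 2 := Nat.log_lt_of_lt_pow (by omega) (by nlinarith)
    rw [padicValNat_factorial hlog]
    simp only [Nat.Ico_succ_singleton, Finset.sum_singleton, pow_one]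
    exact Nat.div_eq_of_lt_le (by omega) (by omega)
  refine key (N := n.factorial / 2) (g := 2) (c := 1) (a := n.factorial) (b := 1) hp ?_ one_ne_zero
    (Nat.factorial_ne_zero _) (by rw [hv]; exact odd_one) (fun h => prime_dvd_one hp h) ?_
  · rw [Nat.div_mul_cancel (Nat.dvd_factorial (by norm_num) (by omega))]; ring
  · intro h
    have := Nat.le_of_dvd (by norm_num) h
    omega

/-- The orders given by the classification for the finite simple groups other than `PSp(4, q)`. -/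
inductive OtherOrder : ℕ → Prop
  /-- cyclic groups of prime order -/
  | cyclic {p : ℕ} (hp : p.Prime) : OtherOrder p
  /-- alternating groups -/
  | alternating {n : ℕ} (hn : 5 ≤ n) : OtherOrder (n.factorial / 2)
  /-- the 26 sporadic groups -/
  | sporadic {N : ℕ} (h : N ∈ sporadicOrders) : OtherOrder N
  /-- the Tits group -/
  | tits : OtherOrder 17971200
  /-- `PSL(n, q)`, `n ≥ 2` -/
  | linear {n q : ℕ} (hn : 2 ≤ n) (hq : IsPrimePow q) : OtherOrder (ordPSL n q)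
  /-- `PSU(n, q)`, `n ≥ 3` -/
  | unitary {n q : ℕ} (hn : 3 ≤ n) (hq : IsPrimePow q) : OtherOrder (ordPSU n q)
  /-- `PSp(2n, q)` and `Ω(2n + 1, q)`, `n ≥ 3` -/
  | symplectic {n q : ℕ} (hn : 3 ≤ n) (hq : IsPrimePow q) : OtherOrder (ordBC n q)
  /-- `PΩ⁺(2n, q)`, `n ≥ 4` -/
  | orthogonalPlus {n q : ℕ} (hn : 4 ≤ n) (hq : IsPrimePow q) : OtherOrder (ordD n q)
  /-- `PΩ⁻(2n, q)`, `n ≥ 4` -/
  | orthogonalMinus {n q : ℕ} (hn : 4 ≤ n) (hq : IsPrimePow q) : OtherOrder (ordTD n q)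
  /-- the Suzuki groups `²B₂(q)`, `q = 2 ^ (2m + 1)`, `m ≥ 1` -/
  | suzuki {m : ℕ} (hm : 1 ≤ m) : OtherOrder (ordSz (2 ^ (2 * m + 1)))
  /-- the Ree groups `²G₂(q)`, `q = 3 ^ (2m + 1)`, `m ≥ 1` -/
  | reeG {m : ℕ} (hm : 1 ≤ m) : OtherOrder (ordRG (3 ^ (2 * m + 1)))
  /-- the Ree groups `²F₄(q)`, `q = 2 ^ (2m + 1)`, `m ≥ 1` -/
  | reeF {m : ℕ} (hm : 1 ≤ m) : OtherOrder (ordRF (2 ^ (2 * m + 1)))
  /-- `³D₄(q)` -/
  | steinberg {q : ℕ} (hq : IsPrimePow q) : OtherOrder (ord3D4 q)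
  /-- `G₂(q)` -/
  | gTwo {q : ℕ} (hq : IsPrimePow q) : OtherOrder (ordG2 q)
  /-- `F₄(q)` -/
  | fFour {q : ℕ} (hq : IsPrimePow q) : OtherOrder (ordF4 q)
  /-- `E₆(q)` -/
  | eSix {q : ℕ} (hq : IsPrimePow q) : OtherOrder (ordE6 q)
  /-- `²E₆(q)` -/
  | twistedESix {q : ℕ} (hq : IsPrimePow q) : OtherOrder (ordTE6 q)
  /-- `E₇(q)` -/
  | eSeven {q : ℕ} (hq : IsPrimePow q) : OtherOrder (ordE7 q)
  /-- `E₈(q)` -/
  | eEight {q : ℕ} (hq : IsPrimePow q) : OtherOrder (ordE8 q)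

theorem psl_all {n q : ℕ} (hn : 2 ≤ n) (hq : IsPrimePow q) : ¬ IsSquare (ordPSL n q) := by
  rcases Nat.lt_or_ge n 8 with h | h
  · interval_cases n
    · exact psl2 hq
    · exact psl3 hq
    · exact psl4 hq.two_le
    · exact psl5 hq.two_le
    · exact psl_67 (Or.inl rfl) hq
    · exact psl_67 (Or.inr rfl) hq
  · exact psl_big h hq.two_le

theorem psu_all {n q : ℕ} (hn : 3 ≤ n) (hq : IsPrimePow q) : ¬ IsSquare (ordPSU n q) := by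
  rcases Nat.lt_or_ge n 8 with h | h
  · interval_cases n
    · exact psu3 hq
    · exact psu4 hq.two_le
    · exact psu5 hq.two_le
    · exact psu_67 (Or.inl rfl) hq
    · exact psu_67 (Or.inr rfl) hq
  · exact psu_big h hq.two_le

theorem bc_all {n q : ℕ} (hn : 3 ≤ n) (hq : IsPrimePow q) : ¬ IsSquare (ordBC n q) := by
  rcases Nat.lt_or_ge n 4 with h | h
  · obtain rfl : n = 3 := by omega
    exact bc_3 hq
  · exact bc_big h hq.two_le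

theorem d_all {n q : ℕ} (hn : 4 ≤ n) (hq : IsPrimePow q) : ¬ IsSquare (ordD n q) := by
  by_cases hp : ∃ j, n = 2 ^ j
  · obtain ⟨j, rfl⟩ := hp
    have hj : 2 ≤ j := by
      by_contra hlt
      interval_cases j <;> omega
    obtain ⟨k, rfl⟩ : ∃ k, j = k + 2 := ⟨j - 2, by omega⟩
    rcases Nat.eq_zero_or_pos k with rfl | hk
    · exact d4 hq.two_le
    · exact d_pow hq.two_le hk
  · push Not at hp
    exact d_big (by have := hp 2; omega) hp hq.two_le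

theorem td_all {n q : ℕ} (hn : 4 ≤ n) (hq : IsPrimePow q) : ¬ IsSquare (ordTD n q) := by
  rcases Nat.lt_or_ge n 5 with h | h
  · obtain rfl : n = 4 := by omega
    exact td_four hq.two_le
  · exact td_big h hq.two_le

theorem OtherOrder.not_sq {N : ℕ} (h : OtherOrder N) : ¬ IsSquare N := by
  cases h with
  | cyclic hp => exact hp.prime.not_isSquare
  | alternating hn => exact alt_not_sq hn
  | sporadic h => exact sporadic_not_sq h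
  | tits => exact tits_not_sq
  | linear hn hq => exact psl_all hn hq
  | unitary hn hq => exact psu_all hn hq
  | symplectic hn hq => exact bc_all hn hq
  | orthogonalPlus hn hq => exact d_all hn hq
  | orthogonalMinus hn hq => exact td_all hn hq
  | suzuki hm =>
    refine sz ?_ (even_iff_two_dvd.2 (dvd_pow_self 2 (by omega)))
    calc 2 = 2 ^ 1 := by norm_num
      _ ≤ _ := Nat.pow_le_pow_right (by norm_num) (by omega)
  | reeG hm => exact rg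
  | reeF hm =>
    refine rf ?_
    calc 2 = 2 ^ 1 := by norm_num
      _ ≤ _ := Nat.pow_le_pow_right (by norm_num) (by omega)
  | steinberg hq => exact t3D4 hq.two_le
  | gTwo hq => exact g2 hq.two_le
  | fFour hq => exact f4 hq.two_le
  | eSix hq => exact e6 hq.two_le
  | twistedESix hq => exact te6 hq.two_le
  | eSeven hq => exact e7 hq.two_le
  | eEight hq => exact e8 hq.two_le

end Pool.Agent.H373SQ
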