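import Mathlib
import Pool.Agent.H373SQ.OrderList
import Pool.Agent.H373SQ.Jacobi
import Pool.Agent.H373SQ.CardPSL
import Pool.Agent.H373SQ.CardPSp

set_option autoImplicit false

namespace Pool.Agent.H373SQ

theorem card_isPrimePow (F : Type) [Field F] [Finite F] : IsPrimePow (Nat.card F) := by
  have := Fintype.ofFinite F
  rw [Nat.card_eq_fintype_card]
  exact (Fintype.nonempty_field_iff).1 ⟨inferInstance⟩

theorem ordBC_one {q : ℕ} (hq : IsPrimePow q) : ¬ IsSquare (ordBC 1 q) := by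
  have h : ordBC 1 q = ordPSL 2 q := by
    rw [ordBC, ordPSL, numBC, numPSL, icc22]
    simp
  rw [h]
  exact psl2 hq

/-- for a prime power `q`, `|PSp(4, q)|` is a square exactly if `q` is a prime with
`q ^ 2 + 1 = 2 z ^ 2` -/
theorem bc2_iff {q : ℕ} (hq : IsPrimePow q) :
    IsSquare (ordBC 2 q) ↔ q.Prime ∧ ∃ z : ℕ, q ^ 2 + 1 = 2 * z ^ 2 := by
  rw [bc2 hq.two_le]
  refine ⟨fun ⟨z, hz⟩ => ⟨?_, z, hz⟩, fun h => h.2⟩
  obtain ⟨p, k, hp, hk, rfl⟩ := hq
  have hp' : p.Prime := hp.nat_prime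
  by_cases hk1 : k = 1
  · rwa [hk1, pow_one]
  · exfalso
    refine no_power' (x := p) (n := k) (z := z) hp'.two_le hk1 (by omega) ?_
    rw [← hz, ← pow_mul, mul_comm]

theorem psp_iff (n : ℕ) (hn : 1 ≤ n) (F : Type) [Field F] [Finite F] :
    IsSquare (Nat.card (PSp n F)) ↔
      n = 2 ∧ (Nat.card F).Prime ∧ ∃ z : ℕ, Nat.card F ^ 2 + 1 = 2 * z ^ 2 := by
  rw [card_PSp n hn F]
  have hq := card_isPrimePow F
  rcases Nat.lt_or_ge n 3 with h | h
  · interval_cases n
    · exact ⟨fun h => absurd h (ordBC_one hq), fun h => absurd h.1 (by norm_num)⟩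
    · rw [bc2_iff hq]
      simp
  · exact ⟨fun h2 => absurd h2 (bc_all h hq), fun h2 => by omega⟩

/-- The classification of the finite simple groups, as far as it is used: a finite simple group has
one of the orders in the list `OtherOrder` or is isomorphic to `PSp(4, F)` for a finite field `F`. -/
def Classification : Prop :=
  ∀ (G : Type) [Group G] [Finite G] [IsSimpleGroup G],
    OtherOrder (Nat.card G) ∨
      ∃ (F : Type) (_ : Field F) (_ : Finite F), Nonempty (G ≃* PSp 2 F)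

end Pool.Agent.H373SQ
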