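import Mathlib
import Pool.Agent.H373SQ.Final

set_option autoImplicit false

namespace Pool.Agent.H373SQ.SquareOrder

open Pool.Agent.H373SQ

/-- (1) No order in the classification list other than that of `PSp(4, q)` is a square.
(2) The order of `PSL(n, F)` is not a square, for `n ≥ 2` and any finite field `F`.
(3) The order of `PSp(2n, F)` is a square exactly if `n = 2`, `F` is a prime field `F_p` and
`p ^ 2 + 1 = 2 z ^ 2` for some `z`.
(4) With the classification as hypothesis: every finite simple group of square order is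
`PSp(4, F_p)` for a prime `p` with `p ^ 2 + 1 = 2 z ^ 2`. -/
theorem result :
    (∀ N : ℕ, OtherOrder N → ¬ IsSquare N) ∧
    (∀ n : ℕ, 2 ≤ n → ∀ (F : Type) [Field F] [Finite F],
      ¬ IsSquare (Nat.card (Matrix.ProjectiveSpecialLinearGroup (Fin n) F))) ∧
    (∀ n : ℕ, 1 ≤ n → ∀ (F : Type) [Field F] [Finite F],
      (IsSquare (Nat.card (PSp n F)) ↔
        n = 2 ∧ (Nat.card F).Prime ∧ ∃ z : ℕ, Nat.card F ^ 2 + 1 = 2 * z ^ 2)) ∧
    (Classification → ∀ (G : Type) [Group G] [Finite G] [IsSimpleGroup G], IsSquare (Nat.card G) →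
      ∃ (F : Type) (_ : Field F) (_ : Finite F), (Nat.card F).Prime ∧ Nonempty (G ≃* PSp 2 F) ∧
        ∃ z : ℕ, Nat.card F ^ 2 + 1 = 2 * z ^ 2) := by
  refine ⟨fun N h => h.not_sq, ?_, fun n hn F _ _ => psp_iff n hn F, ?_⟩
  · intro n hn F _ _
    rw [card_PSL n (by omega) F]
    exact psl_all hn (card_isPrimePow F)
  · intro hC G _ _ _ hsq
    rcases hC G with h | ⟨F, hF, hfin, ⟨e⟩⟩
    · exact absurd hsq h.not_sq
    · have h1 : Nat.card G = Nat.card (PSp 2 F) := Nat.card_congr e.toEquiv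
      rw [h1] at hsq
      obtain ⟨-, hp, hz⟩ := (psp_iff 2 (by norm_num) F).1 hsq
      exact ⟨F, hF, hfin, hp, ⟨e⟩, hz⟩

end Pool.Agent.H373SQ.SquareOrder
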